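import Pool.Agent.H424R2.PPAD.Field

/-!
# The discrete part: End-of-Line paths in the 1-skeleton of the cube `{0,1}^(2n+1)`
-/

namespace Pool.Agent.H424R2.PPAD.Graph

open Field

/-- agreement of two bit vectors on the first `n` coordinates -/
def Agree (n : ℕ) (u v : ℕ → Bool) : Prop := ∀ l < n, u l = v l

theorem Agree.symm {n : ℕ} {u v : ℕ → Bool} (h : Agree n u v) : Agree n v u :=
  fun l hl => (h l hl).symm

theorem Agree.trans {n : ℕ} {u v w : ℕ → Bool} (h : Agree n u v) (h' : Agree n v w) :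
    Agree n u w := fun l hl => (h l hl).trans (h' l hl)

theorem Agree.rfl' {n : ℕ} {u : ℕ → Bool} : Agree n u u := fun _ _ => rfl

theorem not_agree {n : ℕ} {u v : ℕ → Bool} (h : ¬ Agree n u v) : ∃ l < n, u l ≠ v l := by
  by_contra hc
  push Not at hc
  exact h hc

/-- `w` is obtained from `u` by changing the coordinates into those of `v`, one after the other,
and the coordinate `j` (where `u` and `v` differ) is being changed. -/
def Mv (n : ℕ) (u v w : ℕ → Bool) (j : ℕ) : Prop :=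
  u j ≠ v j ∧ (∀ l < j, w l = v l) ∧ ∀ l, j < l → l < n → w l = u l

section Mv

variable {n : ℕ} {u v w : ℕ → Bool}

theorem Mv.uniq_start {j j' : ℕ} (h : Mv n u v w j) (hj : w j = u j)
    (h' : Mv n u v w j') (hj' : w j' = u j') : j = j' := by
  rcases lt_trichotomy j j' with hlt | heq | hlt
  · exact absurd (hj.symm.trans (h'.2.1 j hlt)) h.1
  · exact heq
  · exact absurd (hj'.symm.trans (h.2.1 j' hlt)) h'.1

theorem Mv.uniq_end {j j' : ℕ} (hjn : j < n) (hjn' : j' < n) (h : Mv n u v w j)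
    (hj : w j = v j) (h' : Mv n u v w j') (hj' : w j' = v j') : j = j' := by
  rcases lt_trichotomy j j' with hlt | heq | hlt
  · exact absurd ((h.2.2 j' hlt hjn').symm.trans hj') h'.1
  · exact heq
  · exact absurd ((h'.2.2 j hlt hjn).symm.trans hj) h.1

theorem Mv.start_ne {j : ℕ} (hjn : j < n) (h : Mv n u v w j) (hj : w j = u j) :
    ¬ Agree n w v := fun ha => h.1 (hj.symm.trans (ha j hjn))

theorem Mv.end_ne {j : ℕ} (hjn : j < n) (h : Mv n u v w j) (hj : w j = v j) :
    ¬ Agree n w u := fun ha => h.1 ((ha j hjn).symm.trans hj)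

/-- next step from the beginning -/
theorem exists_start_of_eq (hw : Agree n w u) (huv : ¬ Agree n u v) :
    ∃ j < n, Mv n u v w j ∧ w j = u j := by
  have h := not_agree huv
  classical
  have h2 := Nat.find_spec h
  refine ⟨Nat.find h, h2.1, ⟨h2.2, fun l hl => ?_, fun l _ hln => hw l hln⟩, hw _ h2.1⟩
  have h3 := Nat.find_min h hl
  push Not at h3
  have hln : l < n := lt_trans hl h2.1
  rw [hw l hln]
  exact h3 hln

/-- next step from an inner point -/
theorem Mv.exists_start {j : ℕ} (h : Mv n u v w j) (hj : w j = v j) (hw : ¬ Agree n w v) :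
    ∃ j' < n, Mv n u v w j' ∧ w j' = u j' := by
  have h1 := not_agree hw
  classical
  have h2 := Nat.find_spec h1
  have hlt : j < Nat.find h1 := by
    rcases lt_trichotomy j (Nat.find h1) with hlt | heq | hlt
    · exact hlt
    · exact absurd (heq ▸ hj) h2.2
    · exact absurd (h.2.1 _ hlt) h2.2
  have hu : w (Nat.find h1) = u (Nat.find h1) := h.2.2 _ hlt h2.1
  refine ⟨Nat.find h1, h2.1, ⟨?_, fun l hl => ?_, fun l hl hln => ?_⟩, hu⟩
  · rw [← hu]; exact h2.2
  · have h3 := Nat.find_min h1 hl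
    push Not at h3
    exact h3 (lt_trans hl h2.1)
  · exact h.2.2 l (lt_trans hlt hl) hln

/-- the largest index below `n` with a property -/
theorem exists_largest {n : ℕ} {p : ℕ → Prop} (h : ∃ l < n, p l) :
    ∃ l < n, p l ∧ ∀ k, l < k → k < n → ¬ p k := by
  induction n with
  | zero => obtain ⟨l, hl, _⟩ := h; omega
  | succ n ih =>
    by_cases hn : p n
    · exact ⟨n, by omega, hn, fun k h1 h2 => by omega⟩
    · obtain ⟨l, hl, hp⟩ := h
      have hln : l ≠ n := fun e => hn (e ▸ hp)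
      obtain ⟨l', hl', hp', hmax⟩ := ih ⟨l, by omega, hp⟩
      refine ⟨l', by omega, hp', fun k h1 h2 => ?_⟩
      by_cases hk : k = n
      · rw [hk]; exact hn
      · exact hmax k h1 (by omega)

/-- previous step from the end -/
theorem exists_end_of_eq (hw : Agree n w v) (huv : ¬ Agree n u v) :
    ∃ j < n, Mv n u v w j ∧ w j = v j := by
  obtain ⟨j, hj, hp, hmax⟩ := exists_largest (not_agree huv)
  refine ⟨j, hj, ⟨hp, fun l hl => hw l (by omega), fun l hl hln => ?_⟩, hw j hj⟩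
  have := hmax l hl hln
  push Not at this
  rw [hw l hln, this]

/-- previous step from an inner point -/
theorem Mv.exists_end {j : ℕ} (hjn : j < n) (h : Mv n u v w j) (hj : w j = u j)
    (hw : ¬ Agree n w u) : ∃ j' < n, Mv n u v w j' ∧ w j' = v j' := by
  obtain ⟨j', hj', hp, hmax⟩ := exists_largest (not_agree hw)
  have hlt : j' < j := by
    rcases lt_trichotomy j' j with hlt | heq | hlt
    · exact hlt
    · exact absurd (heq ▸ hj) hp
    · exact absurd (h.2.2 _ hlt hj') hp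
  have hv : w j' = v j' := h.2.1 _ hlt
  refine ⟨j', hj', ⟨?_, fun l hl => h.2.1 l (lt_trans hl hlt), fun l hl hln => ?_⟩, hv⟩
  · rw [← hv]; exact hp.symm
  · have := hmax l hl hln
    push Not at this
    exact this

end Mv

variable (n : ℕ) (S P : (ℕ → Bool) → ℕ → Bool)

/-- the second block of coordinates -/
def bl (x : ℕ → Bool) : ℕ → Bool := fun l => x (n + l)

/-- There is an edge from `x[i := 0]` to `x[i := 1]`. -/
def Ep (x : ℕ → Bool) (i : ℕ) : Prop :=
  if i < n then
    x (2 * n) = true ∧ Agree n (S (P (bl n x))) (bl n x) ∧ P (bl n x) i = false ∧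
      bl n x i = true ∧ Mv n (P (bl n x)) (bl n x) x i
  else if i < 2 * n then
    x (2 * n) = false ∧ Agree n (P (S x)) x ∧ x (i - n) = false ∧ S x (i - n) = true ∧
      Mv n x (S x) (bl n x) (i - n)
  else Agree n (P (S x)) x ∧ ¬ Agree n (S x) x ∧ Agree n (bl n x) (S x)

/-- There is an edge from `x[i := 1]` to `x[i := 0]`. -/
def Em (x : ℕ → Bool) (i : ℕ) : Prop :=
  if i < n then
    x (2 * n) = true ∧ Agree n (S (P (bl n x))) (bl n x) ∧ P (bl n x) i = true ∧
      bl n x i = false ∧ Mv n (P (bl n x)) (bl n x) x i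
  else if i < 2 * n then
    x (2 * n) = false ∧ Agree n (P (S x)) x ∧ x (i - n) = true ∧ S x (i - n) = false ∧
      Mv n x (S x) (bl n x) (i - n)
  else Agree n x (bl n x) ∧ Agree n (S (P (bl n x))) (bl n x) ∧ ¬ Agree n (P (bl n x)) (bl n x)

variable {n S P}

theorem out_a {x : ℕ → Bool} {i : ℕ} (hi : i < n) : out (Ep n S P) (Em n S P) x i ↔
    x (2 * n) = true ∧ Agree n (S (P (bl n x))) (bl n x) ∧
      Mv n (P (bl n x)) (bl n x) x i ∧ x i = P (bl n x) i := by
  unfold out Ep Em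
  simp only [hi, if_true]
  constructor
  · rintro (⟨h0, h1, h2, h3, h4, h5⟩ | ⟨h0, h1, h2, h3, h4, h5⟩)
    · exact ⟨h1, h2, h5, by rw [h0, h3]⟩
    · exact ⟨h1, h2, h5, by rw [h0, h3]⟩
  · rintro ⟨h1, h2, h3, h4⟩
    have h5 := h3.1
    rw [← h4] at h5 ⊢
    cases hx : x i <;> rw [hx] at h5
    · left; exact ⟨rfl, h1, h2, rfl, by simpa using h5.symm, h3⟩
    · right; exact ⟨rfl, h1, h2, rfl, by simpa using h5.symm, h3⟩

theorem inn_a {x : ℕ → Bool} {i : ℕ} (hi : i < n) : inn (Ep n S P) (Em n S P) x i ↔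
    x (2 * n) = true ∧ Agree n (S (P (bl n x))) (bl n x) ∧
      Mv n (P (bl n x)) (bl n x) x i ∧ x i = bl n x i := by
  unfold inn Ep Em
  simp only [hi, if_true]
  constructor
  · rintro (⟨h0, h1, h2, h3, h4, h5⟩ | ⟨h0, h1, h2, h3, h4, h5⟩)
    · exact ⟨h1, h2, h5, by rw [h0, h4]⟩
    · exact ⟨h1, h2, h5, by rw [h0, h4]⟩
  · rintro ⟨h1, h2, h3, h4⟩
    have h5 := h3.1
    rw [← h4] at h5 ⊢
    cases hx : x i <;> rw [hx] at h5
    · right; exact ⟨rfl, h1, h2, by simpa using h5, rfl, h3⟩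
    · left; exact ⟨rfl, h1, h2, by simpa using h5, rfl, h3⟩

theorem out_b {x : ℕ → Bool} {j : ℕ} (hj : j < n) : out (Ep n S P) (Em n S P) x (n + j) ↔
    x (2 * n) = false ∧ Agree n (P (S x)) x ∧
      Mv n x (S x) (bl n x) j ∧ bl n x j = x j := by
  have h1 : ¬ n + j < n := by omega
  have h2 : n + j < 2 * n := by omega
  have h3 : n + j - n = j := by omega
  unfold out Ep Em
  simp only [h1, h2, h3, if_true, if_false]
  have hb : x (n + j) = bl n x j := rfl
  rw [hb]
  constructor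
  · rintro (⟨h0, h1, h2, h3, h4, h5⟩ | ⟨h0, h1, h2, h3, h4, h5⟩)
    · exact ⟨h1, h2, h5, by rw [h0, h3]⟩
    · exact ⟨h1, h2, h5, by rw [h0, h3]⟩
  · rintro ⟨h1, h2, h3, h4⟩
    have h5 := h3.1
    rw [h4]
    cases hx : x j <;> rw [hx] at h5
    · left; exact ⟨rfl, h1, h2, rfl, by simpa using h5.symm, h3⟩
    · right; exact ⟨rfl, h1, h2, rfl, by simpa using h5.symm, h3⟩

theorem inn_b {x : ℕ → Bool} {j : ℕ} (hj : j < n) : inn (Ep n S P) (Em n S P) x (n + j) ↔
    x (2 * n) = false ∧ Agree n (P (S x)) x ∧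
      Mv n x (S x) (bl n x) j ∧ bl n x j = S x j := by
  have h1 : ¬ n + j < n := by omega
  have h2 : n + j < 2 * n := by omega
  have h3 : n + j - n = j := by omega
  unfold inn Ep Em
  simp only [h1, h2, h3, if_true, if_false]
  have hb : x (n + j) = bl n x j := rfl
  rw [hb]
  constructor
  · rintro (⟨h0, h1, h2, h3, h4, h5⟩ | ⟨h0, h1, h2, h3, h4, h5⟩)
    · exact ⟨h1, h2, h5, by rw [h0, h4]⟩
    · exact ⟨h1, h2, h5, by rw [h0, h4]⟩
  · rintro ⟨h1, h2, h3, h4⟩
    have h5 := h3.1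
    rw [h4]
    cases hx : S x j <;> rw [hx] at h5
    · right; exact ⟨rfl, h1, h2, by simpa using h5, rfl, h3⟩
    · left; exact ⟨rfl, h1, h2, by simpa using h5, rfl, h3⟩

theorem out_m {x : ℕ → Bool} : out (Ep n S P) (Em n S P) x (2 * n) ↔
    (x (2 * n) = false ∧ Agree n (P (S x)) x ∧ ¬ Agree n (S x) x ∧ Agree n (bl n x) (S x)) ∨
    (x (2 * n) = true ∧ Agree n x (bl n x) ∧ Agree n (S (P (bl n x))) (bl n x) ∧
      ¬ Agree n (P (bl n x)) (bl n x)) := by
  have h1 : ¬ 2 * n < n := by omega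
  have h2 : ¬ 2 * n < 2 * n := by omega
  unfold out Ep Em
  simp only [h1, h2, if_false]

theorem inn_m {x : ℕ → Bool} : inn (Ep n S P) (Em n S P) x (2 * n) ↔
    (x (2 * n) = true ∧ Agree n (P (S x)) x ∧ ¬ Agree n (S x) x ∧ Agree n (bl n x) (S x)) ∨
    (x (2 * n) = false ∧ Agree n x (bl n x) ∧ Agree n (S (P (bl n x))) (bl n x) ∧
      ¬ Agree n (P (bl n x)) (bl n x)) := by
  have h1 : ¬ 2 * n < n := by omega
  have h2 : ¬ 2 * n < 2 * n := by omega
  unfold inn Ep Em
  simp only [h1, h2, if_false]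

/-- the three kinds of coordinates -/
theorem cases_idx {i : ℕ} (hi : i < 2 * n + 1) : i < n ∨ (∃ j < n, i = n + j) ∨ i = 2 * n := by
  by_cases h1 : i < n
  · exact Or.inl h1
  · by_cases h2 : i < 2 * n
    · exact Or.inr (Or.inl ⟨i - n, by omega, by omega⟩)
    · exact Or.inr (Or.inr (by omega))

variable (hS : ∀ u v, Agree n u v → Agree n (S u) (S v))
  (hP : ∀ u v, Agree n u v → Agree n (P u) (P v))

theorem C2 (x : ℕ → Bool) (i : ℕ) : ¬ (Ep n S P x i ∧ Em n S P x i) := by
  unfold Ep Em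
  split_ifs with h1 h2
  · rintro ⟨⟨_, _, h, _⟩, _, _, h', _⟩
    rw [h] at h'; exact absurd h' (by simp)
  · rintro ⟨⟨_, _, h, _⟩, _, _, h', _⟩
    rw [h] at h'; exact absurd h' (by simp)
  · rintro ⟨⟨_, h1, h2⟩, h3, _⟩
    exact h1 (h2.symm.trans h3.symm)

theorem Co (x : ℕ → Bool) (i j : ℕ) (hi : i < 2 * n + 1) (hj : j < 2 * n + 1)
    (h : out (Ep n S P) (Em n S P) x i) (h' : out (Ep n S P) (Em n S P) x j) : i = j := by
  rcases cases_idx hi with hi | ⟨i', hi', rfl⟩ | rfl <;>
  rcases cases_idx hj with hj | ⟨j', hj', rfl⟩ | rfl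
  · rw [out_a hi] at h
    rw [out_a hj] at h'
    exact h.2.2.1.uniq_start h.2.2.2 h'.2.2.1 h'.2.2.2
  · rw [out_a hi] at h
    rw [out_b hj'] at h'
    rw [h.1] at h'
    exact absurd h'.1 (by simp)
  · rw [out_a hi] at h
    rw [out_m] at h'
    rcases h' with h' | h'
    · rw [h.1] at h'
      exact absurd h'.1 (by simp)
    · exact absurd h'.2.1 (h.2.2.1.start_ne hi h.2.2.2)
  · rw [out_b hi'] at h
    rw [out_a hj] at h'
    rw [h.1] at h'
    exact absurd h'.1 (by simp)
  · rw [out_b hi'] at h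
    rw [out_b hj'] at h'
    rw [h.2.2.1.uniq_start h.2.2.2 h'.2.2.1 h'.2.2.2]
  · rw [out_b hi'] at h
    rw [out_m] at h'
    rcases h' with h' | h'
    · exact absurd h'.2.2.2 (h.2.2.1.start_ne hi' h.2.2.2)
    · rw [h.1] at h'
      exact absurd h'.1 (by simp)
  · rw [out_a hj] at h'
    rw [out_m] at h
    rcases h with h | h
    · rw [h'.1] at h
      exact absurd h.1 (by simp)
    · exact absurd h.2.1 (h'.2.2.1.start_ne hj h'.2.2.2)
  · rw [out_b hj'] at h'
    rw [out_m] at h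
    rcases h with h | h
    · exact absurd h.2.2.2 (h'.2.2.1.start_ne hj' h'.2.2.2)
    · rw [h'.1] at h
      exact absurd h.1 (by simp)
  · rfl

include hP in
theorem Ci (x : ℕ → Bool) (i j : ℕ) (hi : i < 2 * n + 1) (hj : j < 2 * n + 1)
    (h : inn (Ep n S P) (Em n S P) x i) (h' : inn (Ep n S P) (Em n S P) x j) : i = j := by
  -- incoming in a direction of the first block and in the mode direction is impossible
  have key1 : ∀ i < n, inn (Ep n S P) (Em n S P) x i → inn (Ep n S P) (Em n S P) x (2 * n) →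
      False := by
    intro i hi h h'
    rw [inn_a hi] at h
    rw [inn_m] at h'
    rcases h' with h' | h'
    · have h1 : Agree n (P (bl n x)) x := (hP _ _ h'.2.2.2).trans h'.2.1
      exact h.2.2.1.end_ne hi h.2.2.2 h1.symm
    · rw [h.1] at h'
      exact absurd h'.1 (by simp)
  have key2 : ∀ i < n, inn (Ep n S P) (Em n S P) x (n + i) →
      inn (Ep n S P) (Em n S P) x (2 * n) → False := by
    intro i hi h h'
    rw [inn_b hi] at h
    rw [inn_m] at h'
    rcases h' with h' | h'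
    · rw [h.1] at h'
      exact absurd h'.1 (by simp)
    · exact h.2.2.1.end_ne hi h.2.2.2 h'.2.1.symm
  rcases cases_idx hi with hi | ⟨i', hi', rfl⟩ | rfl <;>
  rcases cases_idx hj with hj | ⟨j', hj', rfl⟩ | rfl
  · rw [inn_a hi] at h
    rw [inn_a hj] at h'
    exact h.2.2.1.uniq_end hi hj h.2.2.2 h'.2.2.1 h'.2.2.2
  · rw [inn_a hi] at h
    rw [inn_b hj'] at h'
    rw [h.1] at h'
    exact absurd h'.1 (by simp)
  · exact (key1 i hi h h').elim
  · rw [inn_b hi'] at h
    rw [inn_a hj] at h'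
    rw [h.1] at h'
    exact absurd h'.1 (by simp)
  · rw [inn_b hi'] at h
    rw [inn_b hj'] at h'
    rw [h.2.2.1.uniq_end hi' hj' h.2.2.2 h'.2.2.1 h'.2.2.2]
  · exact (key2 i' hi' h h').elim
  · exact (key1 j hj h' h).elim
  · exact (key2 j' hj' h' h).elim
  · rfl

/-- the zero vector -/
def zero : ℕ → Bool := fun _ => false

variable (hP0 : Agree n (P zero) zero) (hS0 : ¬ Agree n (S zero) zero)

include hP hP0 in
theorem C3 (x : ℕ → Bool) (hx : ∀ i < 2 * n + 1, x i = false) :
    ∀ i < 2 * n + 1, ¬ inn (Ep n S P) (Em n S P) x i := by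
  intro i hi h
  have ha : Agree n x zero := fun l hl => hx l (by omega)
  have hb : Agree n (bl n x) zero := fun l hl => hx (n + l) (by omega)
  have hm : x (2 * n) = false := hx _ (by omega)
  rcases cases_idx hi with hi | ⟨i', hi', rfl⟩ | rfl
  · rw [inn_a hi] at h
    rw [hm] at h
    exact absurd h.1 (by simp)
  · rw [inn_b hi'] at h
    have := h.2.2.1.1
    rw [← h.2.2.2, ha i' hi', hb i' hi'] at this
    exact this rfl
  · rw [inn_m] at h
    rcases h with h | h
    · rw [hm] at h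
      exact absurd h.1 (by simp)
    · exact h.2.2.2 (((hP _ _ hb).trans hP0).trans hb.symm)

include hS hP hS0 in
/-- An end of a path gives a solution. -/
theorem solution (x : ℕ → Bool)
    (h : ((∀ i < 2 * n + 1, x i = false) ∧
      ∀ i < 2 * n + 1, ¬ out (Ep n S P) (Em n S P) x i) ∨
    (¬ (∀ i < 2 * n + 1, x i = false) ∧
      (((∃ i < 2 * n + 1, out (Ep n S P) (Em n S P) x i) ∧
        ∀ i < 2 * n + 1, ¬ inn (Ep n S P) (Em n S P) x i) ∨
       ((∃ i < 2 * n + 1, inn (Ep n S P) (Em n S P) x i) ∧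
        ∀ i < 2 * n + 1, ¬ out (Ep n S P) (Em n S P) x i)))) :
    ¬ Agree n (P (S x)) x ∨ (¬ Agree n x zero ∧ ¬ Agree n (S (P x)) x) := by
  rcases h with ⟨hx, hout⟩ | ⟨hx, ⟨⟨i, hi, hi2⟩, hinn⟩ | ⟨⟨i, hi, hi2⟩, hout⟩⟩
  · -- the vertex 0
    left
    intro hPS
    have ha : Agree n x zero := fun l hl => hx l (by omega)
    have hb : Agree n (bl n x) zero := fun l hl => hx (n + l) (by omega)
    have hm : x (2 * n) = false := hx _ (by omega)
    have hne : ¬ Agree n x (S x) := fun h =>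
      hS0 ((hS _ _ ha.symm).trans (h.symm.trans ha))
    obtain ⟨j, hj, hmv, hj2⟩ := exists_start_of_eq (hb.trans ha.symm) hne
    exact hout (n + j) (by omega) ((out_b hj).2 ⟨hm, hPS, hmv, hj2⟩)
  · -- a source
    -- first: the outgoing edge is in the second block, with `b = a`, `m = 0`
    have hno_a : ∀ i < n, ¬ inn (Ep n S P) (Em n S P) x i := fun i hi => hinn i (by omega)
    have hno_b : ∀ i < n, ¬ inn (Ep n S P) (Em n S P) x (n + i) := fun i hi =>
      hinn (n + i) (by omega)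
    have hno_m := hinn (2 * n) (by omega)
    rcases cases_idx hi with hi | ⟨j, hj, rfl⟩ | rfl
    · exfalso
      rw [out_a hi] at hi2
      obtain ⟨hm, hSP, hmv, hj2⟩ := hi2
      by_cases hx' : Agree n x (P (bl n x))
      · refine hno_m (inn_m.2 (Or.inl ⟨hm, ?_, ?_, ?_⟩))
        · exact (hP _ _ ((hS _ _ hx').trans hSP)).trans hx'.symm
        · intro h
          exact hmv.1 ((hx' i hi).symm.trans ((h i hi).symm.trans
            (((hS _ _ hx').trans hSP) i hi)))
        · exact ((hS _ _ hx').trans hSP).symm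
      · obtain ⟨j', hj', h1, h2⟩ := hmv.exists_end hi hj2 hx'
        exact hno_a j' hj' ((inn_a hj').2 ⟨hm, hSP, h1, h2⟩)
    · rw [out_b hj] at hi2
      obtain ⟨hm, hPS, hmv, hj2⟩ := hi2
      right
      have hba : Agree n (bl n x) x := by
        by_contra hx'
        obtain ⟨j', hj', h1, h2⟩ := hmv.exists_end hj hj2 hx'
        exact hno_b j' hj' ((inn_b hj').2 ⟨hm, hPS, h1, h2⟩)
      constructor
      · intro h0
        apply hx
        intro i hi
        rcases cases_idx hi with hi | ⟨j, hj, rfl⟩ | rfl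
        · exact h0 i hi
        · exact (hba j hj).trans (h0 j hj)
        · exact hm
      · intro hSP
        refine hno_m (inn_m.2 (Or.inr ⟨hm, hba.symm, ?_, ?_⟩))
        · exact (hS _ _ (hP _ _ hba)).trans (hSP.trans hba.symm)
        · intro h
          have h1 : Agree n (P x) x := ((hP _ _ hba).symm.trans h).trans hba
          have h2 : Agree n (S x) x := (hS _ _ h1).symm.trans hSP
          exact hmv.1 (h2 j hj).symm
    · exfalso
      rw [out_m] at hi2
      rcases hi2 with ⟨hm, hPS, hSx, hb⟩ | ⟨hm, hab, hSP, hPb⟩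
      · have hne : ¬ Agree n x (S x) := fun h => hSx h.symm
        obtain ⟨j, hj, hmv, hj2⟩ := exists_end_of_eq hb hne
        exact hno_b j hj ((inn_b hj).2 ⟨hm, hPS, hmv, hj2⟩)
      · obtain ⟨j, hj, hmv, hj2⟩ := exists_end_of_eq hab hPb
        exact hno_a j hj ((inn_a hj).2 ⟨hm, hSP, hmv, hj2⟩)
  · -- a sink
    have hno_a : ∀ i < n, ¬ out (Ep n S P) (Em n S P) x i := fun i hi => hout i (by omega)
    have hno_b : ∀ i < n, ¬ out (Ep n S P) (Em n S P) x (n + i) := fun i hi =>
      hout (n + i) (by omega)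
    have hno_m := hout (2 * n) (by omega)
    rcases cases_idx hi with hi | ⟨j, hj, rfl⟩ | rfl
    · exfalso
      rw [inn_a hi] at hi2
      obtain ⟨hm, hSP, hmv, hj2⟩ := hi2
      by_cases hx' : Agree n x (bl n x)
      · refine hno_m (out_m.2 (Or.inr ⟨hm, hx', hSP, ?_⟩))
        intro h
        exact hmv.1 (h i hi)
      · obtain ⟨j', hj', h1, h2⟩ := hmv.exists_start hj2 hx'
        exact hno_a j' hj' ((out_a hj').2 ⟨hm, hSP, h1, h2⟩)
    · exfalso
      rw [inn_b hj] at hi2
      obtain ⟨hm, hPS, hmv, hj2⟩ := hi2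
      by_cases hx' : Agree n (bl n x) (S x)
      · refine hno_m (out_m.2 (Or.inl ⟨hm, hPS, ?_, hx'⟩))
        intro h
        exact hmv.1 (h j hj).symm
      · obtain ⟨j', hj', h1, h2⟩ := hmv.exists_start hj2 hx'
        exact hno_b j' hj' ((out_b hj').2 ⟨hm, hPS, h1, h2⟩)
    · rw [inn_m] at hi2
      rcases hi2 with ⟨hm, hPS, hSx, hb⟩ | ⟨hm, hab, hSP, hPb⟩
      · exfalso
        have h1 : Agree n (P (bl n x)) x := (hP _ _ hb).trans hPS
        have h2 : ¬ Agree n (P (bl n x)) (bl n x) := fun h =>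
          hSx (hb.symm.trans (h.symm.trans h1))
        obtain ⟨j, hj, hmv, hj2⟩ := exists_start_of_eq h1.symm h2
        exact hno_a j hj ((out_a hj).2 ⟨hm, (hS _ _ h1).trans hb.symm, hmv, hj2⟩)
      · left
        intro hPS
        by_cases hSx : Agree n x (S x)
        · apply hPb
          exact (hP _ _ (hab.symm.trans hSx)).trans (hPS.trans hab)
        · obtain ⟨j, hj, hmv, hj2⟩ := exists_start_of_eq hab.symm hSx
          exact hno_b j hj ((out_b hj).2 ⟨hm, hPS, hmv, hj2⟩)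

end Pool.Agent.H424R2.PPAD.Graph
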