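import Pool.Agent.H424R2.PPAD.Clamp
import Pool.Agent.H424R2.PPAD.Graph

/-!
# The clamp system of an instance of End-of-Line
-/

namespace Pool.Agent.H424R2.PPAD

open Pool.Agent.NPC

namespace Build

/-- the `i`-th coordinate -/
def vY (i : ℕ) : Var := (1, i, 0)
def vZ : Var := (2, 0, 0)
def vR (i : ℕ) : Var := (3, i, 0)
def vQ (i : ℕ) : Var := (4, i, 0)
def vD (i : ℕ) : Var := (5, i, 0)
def vFM (i : ℕ) : Var := (6, i, 0)
def vGM (i : ℕ) : Var := (7, i, 0)
def vU : Var := (8, 0, 0)
def vDN : Var := (9, 0, 0)
def vUP : Var := (10, 0, 0)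
def vTP (i : ℕ) : Var := (11, i, 0)
def vTM (i : ℕ) : Var := (12, i, 0)
def vT : Var := (13, 0, 0)
def vH : Var := (14, 0, 0)
def vK : Var := (15, 0, 0)
def vA1 (i : ℕ) : Var := (16, i, 0)
def vA2 (i : ℕ) : Var := (17, i, 0)
def vB1 (i : ℕ) : Var := (18, i, 0)
def vB2 (i : ℕ) : Var := (19, i, 0)
def vEP (i : ℕ) : Var := (20, i, 0)
def vEM (i : ℕ) : Var := (21, i, 0)
/-- gate `j` of the copy `c` of a circuit -/
def vW (c j : ℕ) : Var := (22, c, j)
/-- differences -/
def vX (k l : ℕ) : Var := (23, k, l)
/-- output `l` of the copy `c` of a circuit -/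
def vO (c l : ℕ) : Var := (24, c, l)
def vNE1 : Var := (25, 0, 0)
def vNE2 : Var := (26, 0, 0)

/-- the circuit of the copy `c`: `S`, `P`, `P`, `S` -/
def circ (I : Circ × Circ) (c : ℕ) : Circ := if c = 0 ∨ c = 3 then I.1 else I.2

/-- the input wires of the copy `c` -/
def inp (n c w : ℕ) : Var :=
  if c = 0 then vR w else if c = 1 then vO 0 w else if c = 2 then vR (n + w) else vO 2 w

/-- reference to a wire, for a gate with number `j` -/
def ref (n c w j : ℕ) : List Var :=
  if w < n then [inp n c w] else if w < n + j then [vW c (w - n)] else []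

/-- the pairs of bits that are compared -/
def prA (n k l : ℕ) : Var := if k = 1 ∨ k = 3 ∨ k = 6 then vR (n + l) else vR l

def prB (n k l : ℕ) : Var :=
  if k = 0 then vO 1 l else if k = 1 then vO 0 l else if k = 2 then vR (n + l)
  else if k = 3 then vO 3 l else if k = 4 then vO 2 l else if k = 5 then vO 0 l else vO 2 l

/-- both differences of the pair `k` -/
def df (k l : ℕ) : List Var := [vX (2 * k) l, vX (2 * k + 1) l]

def others (N i : ℕ) : List Var :=
  (List.range N).flatMap fun l => if l = i then [] else List.replicate 8 (vD l)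

def negA (n i : ℕ) : List Var :=
  one :: ((List.range n).flatMap (fun l => df 3 l) ++
    (List.range n).flatMap (fun l => if l < i then df 2 l else if i < l then df 4 l else []))

def negB (n j : ℕ) : List Var :=
  vR (2 * n) :: ((List.range n).flatMap (fun l => df 0 l) ++
    (List.range n).flatMap (fun l => if l < j then df 1 l else if j < l then df 2 l else []))

/-- the right hand sides of the equations -/
def eqn (I : Circ × Circ) (t i j : ℕ) : List Var × List Var :=
  if t = 1 then ([vR i, vA1 i, vA2 i], [vB1 i, vB2 i, vUP, vUP])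
  else if t = 2 then ([one], [vH, vK])
  else if t = 3 then ([vY i, vY i, vY i, vY i], [one])
  else if t = 4 then ([vY i, vY i], [one])
  else if t = 5 then ([vY i], [vQ i])
  else if t = 6 then ([one, one], others (2 * eolN I + 1) i)
  else if t = 7 then ([one], others (2 * eolN I + 1) i)
  else if t = 8 then ([one, one], [vZ, vZ, vZ, vZ])
  else if t = 9 then ([vZ, vZ, vZ, vZ], [])
  else if t = 10 then ([vZ, vZ], [one])
  else if t = 11 then ([vFM i, vEP i], [one])
  else if t = 12 then ([vFM i, vEM i], [one])
  else if t = 13 then ((List.range (2 * eolN I + 1)).flatMap (fun l => [vTP l, vTM l]), [])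
  else if t = 14 then ([one, one],
    (List.range (2 * eolN I + 1)).flatMap (fun l => List.replicate 8 (vY l)))
  else if t = 15 then ([vT, vU], [one])
  else if t = 16 then ([vGM i, vEP i], [vDN, one])
  else if t = 17 then ([vDN, vGM i, vEM i], [one, one])
  else if t = 18 then ([vGM i, vEM i], [vDN, one])
  else if t = 19 then ([vDN, vGM i, vEP i], [one, one])
  else if t = 20 then
    if i < eolN I then ([vX 12 i, vR (2 * eolN I)], negA (eolN I) i)
    else if i < 2 * eolN I then ([vX 11 (i - eolN I)], negB (eolN I) (i - eolN I))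
    else ([vNE1], (List.range (eolN I)).flatMap (fun l => df 0 l ++ df 1 l))
  else if t = 21 then
    if i < eolN I then ([vX 13 i, vR (2 * eolN I)], negA (eolN I) i)
    else if i < 2 * eolN I then ([vX 10 (i - eolN I)], negB (eolN I) (i - eolN I))
    else ([vNE2], (List.range (eolN I)).flatMap (fun l => df 2 l ++ df 3 l))
  else if t = 22 then ([one, one],
    ref (eolN I) i ((circ I i).1.getD j (0, 0)).1 j ++
      ref (eolN I) i ((circ I i).1.getD j (0, 0)).2 j)
  else if t = 23 then
    if i % 2 = 0 then ([prA (eolN I) (i / 2) j], [prB (eolN I) (i / 2) j])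
    else ([prB (eolN I) (i / 2) j], [prA (eolN I) (i / 2) j])
  else if t = 24 then (ref (eolN I) i ((circ I i).2.getD j 0) (circ I i).1.length, [])
  else if t = 25 then ((List.range (eolN I)).flatMap (fun l => df 5 l), [])
  else if t = 26 then ((List.range (eolN I)).flatMap (fun l => df 6 l), [])
  else ([], [])

/-- size of the box of indices -/
def bd (I : Circ × Circ) : ℕ := (2 * eolN I + 1) + (I.1.1.length + (I.2.1.length + 18))

/-- the names of the variables -/
def keys (I : Circ × Circ) : List Var :=
  (List.range 27).flatMap fun t => (List.range (bd I)).flatMap fun i =>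
    (List.range (bd I)).map fun j => (t + 1, i, j)

/-- the clamp system -/
def sys (I : Circ × Circ) : Sys :=
  (keys I).map fun v => (v, eqn I v.1 v.2.1 v.2.2)

/-- reading off a solution -/
def answer (I : Circ × Circ) (y : List (Var × ℚ)) : List Bool :=
  (List.range (eolN I)).map fun i => decide ((1 / 2 : ℚ) ≤ val y (vY i))

theorem mem_keys {I : Circ × Circ} {t i j : ℕ} (h0 : 0 < t) (ht : t ≤ 27) (hi : i < bd I)
    (hj : j < bd I) : (t, i, j) ∈ keys I := by
  unfold keys
  rw [List.mem_flatMap]
  refine ⟨t - 1, List.mem_range.2 (by omega), ?_⟩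
  rw [List.mem_flatMap]
  refine ⟨i, List.mem_range.2 hi, ?_⟩
  rw [List.mem_map]
  refine ⟨j, List.mem_range.2 hj, ?_⟩
  rw [Nat.sub_add_cancel h0]

theorem keys_nodup (I : Circ × Circ) : (keys I).Nodup := by
  unfold keys
  rw [List.nodup_flatMap]
  constructor
  · intro t _
    rw [List.nodup_flatMap]
    constructor
    · intro i _
      refine List.Nodup.map ?_ List.nodup_range
      intro a b h
      simpa using h
    · refine List.nodup_range.imp_of_mem ?_ 
      intro a b _ _ hab
      rw [Function.onFun, List.disjoint_left]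
      intro v hv hv'
      simp only [List.mem_map] at hv hv'
      obtain ⟨_, _, rfl⟩ := hv
      obtain ⟨_, _, h⟩ := hv'
      simp only [Prod.mk.injEq] at h
      exact hab h.2.1.symm
  · refine List.nodup_range.imp_of_mem ?_
    intro a b _ _ hab
    rw [Function.onFun, List.disjoint_left]
    intro v hv hv'
    simp only [List.mem_flatMap, List.mem_map] at hv hv'
    obtain ⟨_, _, _, _, rfl⟩ := hv
    obtain ⟨_, _, _, _, h⟩ := hv'
    simp only [Prod.mk.injEq] at h
    omega

theorem sys_keys (I : Circ × Circ) : (sys I).map Prod.fst = keys I := by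
  unfold sys
  rw [List.map_map]
  exact List.map_id _

theorem sys_valid (I : Circ × Circ) : ClampProblem.Valid (sys I) := by
  refine ⟨by rw [sys_keys]; exact keys_nodup I, ?_⟩
  rw [sys_keys]
  unfold keys one
  simp

end Build

end Pool.Agent.H424R2.PPAD
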