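import Pool.Agent.H424R2.PPAD.Build

/-!
# The reduction from End-of-Line to clamp systems is polynomial-time computable
-/

namespace Pool.Agent.H424R2.PPAD

open Pool.Agent.NPC

namespace Build


variable {α : Type} [TEnc α]

theorem poly_var1 (k : ℕ) {f : α → ℕ} (hf : NPC.Poly f) :
    NPC.Poly fun a => ((k, f a, 0) : Var) := by repeat' (beta_reduce; with_reducible_and_instances (first
        | assumption | exact NPC.Poly.const _ | exact NPC.Poly.id | apply NPC.Poly.fst
        | apply NPC.Poly.snd | apply NPC.Poly.cons | apply NPC.Poly.append | apply NPC.Poly.map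
        | apply NPC.Poly.flatMap | apply NPC.Poly.filter | apply NPC.Poly.length
        | apply NPC.Poly.range_length | apply NPC.Poly.zipIdx | apply NPC.Poly.zip
        | apply NPC.Poly.add | apply NPC.Poly.sub | apply NPC.Poly.mul | apply NPC.Poly.div
        | apply NPC.Poly.mod | apply NPC.Poly.decide_and | apply NPC.Poly.decide_or
        | apply NPC.Poly.decide_not | apply NPC.Poly.decide_lt | apply NPC.Poly.decide_le
        | apply NPC.Poly.decide_eq | apply NPC.Poly.decide_mem | apply NPC.Poly.ite
        | apply NPC.Poly.cond | apply NPC.Poly.some | apply NPC.Poly.getD | apply NPC.UPoly.range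
        | apply NPC.UPoly.const | apply NPC.UPoly.add | apply NPC.UPoly.mul
        | apply NPC.UPoly.length | apply NPC.Poly.pair))

theorem poly_vW {f g : α → ℕ} (hf : NPC.Poly f) (hg : NPC.Poly g) :
    NPC.Poly fun a => vW (f a) (g a) := by unfold vW; repeat' (beta_reduce; with_reducible_and_instances (first
        | assumption | exact NPC.Poly.const _ | exact NPC.Poly.id | apply NPC.Poly.fst
        | apply NPC.Poly.snd | apply NPC.Poly.cons | apply NPC.Poly.append | apply NPC.Poly.map
        | apply NPC.Poly.flatMap | apply NPC.Poly.filter | apply NPC.Poly.length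
        | apply NPC.Poly.range_length | apply NPC.Poly.zipIdx | apply NPC.Poly.zip
        | apply NPC.Poly.add | apply NPC.Poly.sub | apply NPC.Poly.mul | apply NPC.Poly.div
        | apply NPC.Poly.mod | apply NPC.Poly.decide_and | apply NPC.Poly.decide_or
        | apply NPC.Poly.decide_not | apply NPC.Poly.decide_lt | apply NPC.Poly.decide_le
        | apply NPC.Poly.decide_eq | apply NPC.Poly.decide_mem | apply NPC.Poly.ite
        | apply NPC.Poly.cond | apply NPC.Poly.some | apply NPC.Poly.getD | apply NPC.UPoly.range
        | apply NPC.UPoly.const | apply NPC.UPoly.add | apply NPC.UPoly.mul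
        | apply NPC.UPoly.length | apply NPC.Poly.pair))

theorem poly_vX {f g : α → ℕ} (hf : NPC.Poly f) (hg : NPC.Poly g) :
    NPC.Poly fun a => vX (f a) (g a) := by unfold vX; repeat' (beta_reduce; with_reducible_and_instances (first
        | assumption | exact NPC.Poly.const _ | exact NPC.Poly.id | apply NPC.Poly.fst
        | apply NPC.Poly.snd | apply NPC.Poly.cons | apply NPC.Poly.append | apply NPC.Poly.map
        | apply NPC.Poly.flatMap | apply NPC.Poly.filter | apply NPC.Poly.length
        | apply NPC.Poly.range_length | apply NPC.Poly.zipIdx | apply NPC.Poly.zip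
        | apply NPC.Poly.add | apply NPC.Poly.sub | apply NPC.Poly.mul | apply NPC.Poly.div
        | apply NPC.Poly.mod | apply NPC.Poly.decide_and | apply NPC.Poly.decide_or
        | apply NPC.Poly.decide_not | apply NPC.Poly.decide_lt | apply NPC.Poly.decide_le
        | apply NPC.Poly.decide_eq | apply NPC.Poly.decide_mem | apply NPC.Poly.ite
        | apply NPC.Poly.cond | apply NPC.Poly.some | apply NPC.Poly.getD | apply NPC.UPoly.range
        | apply NPC.UPoly.const | apply NPC.UPoly.add | apply NPC.UPoly.mul
        | apply NPC.UPoly.length | apply NPC.Poly.pair))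

theorem poly_vO {f g : α → ℕ} (hf : NPC.Poly f) (hg : NPC.Poly g) :
    NPC.Poly fun a => vO (f a) (g a) := by unfold vO; repeat' (beta_reduce; with_reducible_and_instances (first
        | assumption | exact NPC.Poly.const _ | exact NPC.Poly.id | apply NPC.Poly.fst
        | apply NPC.Poly.snd | apply NPC.Poly.cons | apply NPC.Poly.append | apply NPC.Poly.map
        | apply NPC.Poly.flatMap | apply NPC.Poly.filter | apply NPC.Poly.length
        | apply NPC.Poly.range_length | apply NPC.Poly.zipIdx | apply NPC.Poly.zip
        | apply NPC.Poly.add | apply NPC.Poly.sub | apply NPC.Poly.mul | apply NPC.Poly.div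
        | apply NPC.Poly.mod | apply NPC.Poly.decide_and | apply NPC.Poly.decide_or
        | apply NPC.Poly.decide_not | apply NPC.Poly.decide_lt | apply NPC.Poly.decide_le
        | apply NPC.Poly.decide_eq | apply NPC.Poly.decide_mem | apply NPC.Poly.ite
        | apply NPC.Poly.cond | apply NPC.Poly.some | apply NPC.Poly.getD | apply NPC.UPoly.range
        | apply NPC.UPoly.const | apply NPC.UPoly.add | apply NPC.UPoly.mul
        | apply NPC.UPoly.length | apply NPC.Poly.pair))

theorem poly_vR {f : α → ℕ} (hf : NPC.Poly f) :
    NPC.Poly fun a => vR (f a) := by unfold vR; repeat' (beta_reduce; with_reducible_and_instances (first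
        | assumption | exact NPC.Poly.const _ | exact NPC.Poly.id | apply NPC.Poly.fst
        | apply NPC.Poly.snd | apply NPC.Poly.cons | apply NPC.Poly.append | apply NPC.Poly.map
        | apply NPC.Poly.flatMap | apply NPC.Poly.filter | apply NPC.Poly.length
        | apply NPC.Poly.range_length | apply NPC.Poly.zipIdx | apply NPC.Poly.zip
        | apply NPC.Poly.add | apply NPC.Poly.sub | apply NPC.Poly.mul | apply NPC.Poly.div
        | apply NPC.Poly.mod | apply NPC.Poly.decide_and | apply NPC.Poly.decide_or
        | apply NPC.Poly.decide_not | apply NPC.Poly.decide_lt | apply NPC.Poly.decide_le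
        | apply NPC.Poly.decide_eq | apply NPC.Poly.decide_mem | apply NPC.Poly.ite
        | apply NPC.Poly.cond | apply NPC.Poly.some | apply NPC.Poly.getD | apply NPC.UPoly.range
        | apply NPC.UPoly.const | apply NPC.UPoly.add | apply NPC.UPoly.mul
        | apply NPC.UPoly.length | apply NPC.Poly.pair))

theorem poly_vD {f : α → ℕ} (hf : NPC.Poly f) :
    NPC.Poly fun a => vD (f a) := by unfold vD; repeat' (beta_reduce; with_reducible_and_instances (first
        | assumption | exact NPC.Poly.const _ | exact NPC.Poly.id | apply NPC.Poly.fst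
        | apply NPC.Poly.snd | apply NPC.Poly.cons | apply NPC.Poly.append | apply NPC.Poly.map
        | apply NPC.Poly.flatMap | apply NPC.Poly.filter | apply NPC.Poly.length
        | apply NPC.Poly.range_length | apply NPC.Poly.zipIdx | apply NPC.Poly.zip
        | apply NPC.Poly.add | apply NPC.Poly.sub | apply NPC.Poly.mul | apply NPC.Poly.div
        | apply NPC.Poly.mod | apply NPC.Poly.decide_and | apply NPC.Poly.decide_or
        | apply NPC.Poly.decide_not | apply NPC.Poly.decide_lt | apply NPC.Poly.decide_le
        | apply NPC.Poly.decide_eq | apply NPC.Poly.decide_mem | apply NPC.Poly.ite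
        | apply NPC.Poly.cond | apply NPC.Poly.some | apply NPC.Poly.getD | apply NPC.UPoly.range
        | apply NPC.UPoly.const | apply NPC.UPoly.add | apply NPC.UPoly.mul
        | apply NPC.UPoly.length | apply NPC.Poly.pair))

theorem poly_vY {f : α → ℕ} (hf : NPC.Poly f) :
    NPC.Poly fun a => vY (f a) := by unfold vY; repeat' (beta_reduce; with_reducible_and_instances (first
        | assumption | exact NPC.Poly.const _ | exact NPC.Poly.id | apply NPC.Poly.fst
        | apply NPC.Poly.snd | apply NPC.Poly.cons | apply NPC.Poly.append | apply NPC.Poly.map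
        | apply NPC.Poly.flatMap | apply NPC.Poly.filter | apply NPC.Poly.length
        | apply NPC.Poly.range_length | apply NPC.Poly.zipIdx | apply NPC.Poly.zip
        | apply NPC.Poly.add | apply NPC.Poly.sub | apply NPC.Poly.mul | apply NPC.Poly.div
        | apply NPC.Poly.mod | apply NPC.Poly.decide_and | apply NPC.Poly.decide_or
        | apply NPC.Poly.decide_not | apply NPC.Poly.decide_lt | apply NPC.Poly.decide_le
        | apply NPC.Poly.decide_eq | apply NPC.Poly.decide_mem | apply NPC.Poly.ite
        | apply NPC.Poly.cond | apply NPC.Poly.some | apply NPC.Poly.getD | apply NPC.UPoly.range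
        | apply NPC.UPoly.const | apply NPC.UPoly.add | apply NPC.UPoly.mul
        | apply NPC.UPoly.length | apply NPC.Poly.pair))

theorem poly_circ {I : α → Circ × Circ} {c : α → ℕ} (hI : NPC.Poly I) (hc : NPC.Poly c) :
    NPC.Poly fun a => circ (I a) (c a) := by unfold circ; repeat' (beta_reduce; with_reducible_and_instances (first
        | assumption | exact NPC.Poly.const _ | exact NPC.Poly.id | apply NPC.Poly.fst
        | apply NPC.Poly.snd | apply NPC.Poly.cons | apply NPC.Poly.append | apply NPC.Poly.map
        | apply NPC.Poly.flatMap | apply NPC.Poly.filter | apply NPC.Poly.length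
        | apply NPC.Poly.range_length | apply NPC.Poly.zipIdx | apply NPC.Poly.zip
        | apply NPC.Poly.add | apply NPC.Poly.sub | apply NPC.Poly.mul | apply NPC.Poly.div
        | apply NPC.Poly.mod | apply NPC.Poly.decide_and | apply NPC.Poly.decide_or
        | apply NPC.Poly.decide_not | apply NPC.Poly.decide_lt | apply NPC.Poly.decide_le
        | apply NPC.Poly.decide_eq | apply NPC.Poly.decide_mem | apply NPC.Poly.ite
        | apply NPC.Poly.cond | apply NPC.Poly.some | apply NPC.Poly.getD | apply NPC.UPoly.range
        | apply NPC.UPoly.const | apply NPC.UPoly.add | apply NPC.UPoly.mul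
        | apply NPC.UPoly.length | apply NPC.Poly.pair))

theorem poly_inp {n c w : α → ℕ} (hn : NPC.Poly n) (hc : NPC.Poly c) (hw : NPC.Poly w) :
    NPC.Poly fun a => inp (n a) (c a) (w a) := by
  unfold inp vR vO
  repeat' (beta_reduce; with_reducible_and_instances (first
    | assumption | exact NPC.Poly.const _ | exact NPC.Poly.id | apply NPC.Poly.fst
    | apply NPC.Poly.snd | apply NPC.Poly.cons | apply NPC.Poly.append | apply NPC.Poly.map
    | apply NPC.Poly.flatMap | apply NPC.Poly.filter | apply NPC.Poly.length
    | apply NPC.Poly.range_length | apply NPC.Poly.zipIdx | apply NPC.Poly.zip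
    | apply NPC.Poly.add | apply NPC.Poly.sub | apply NPC.Poly.mul | apply NPC.Poly.div
    | apply NPC.Poly.mod | apply NPC.Poly.decide_and | apply NPC.Poly.decide_or
    | apply NPC.Poly.decide_not | apply NPC.Poly.decide_lt | apply NPC.Poly.decide_le
    | apply NPC.Poly.decide_eq | apply NPC.Poly.decide_mem | apply NPC.Poly.ite
    | apply NPC.Poly.cond | apply NPC.Poly.some | apply NPC.Poly.getD | apply NPC.UPoly.range
    | apply NPC.UPoly.const | apply NPC.UPoly.add | apply NPC.UPoly.mul | apply NPC.UPoly.length
    | apply NPC.Poly.pair))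

theorem poly_ref {n c w j : α → ℕ} (hn : NPC.Poly n) (hc : NPC.Poly c) (hw : NPC.Poly w)
    (hj : NPC.Poly j) : NPC.Poly fun a => ref (n a) (c a) (w a) (j a) := by
  unfold ref vW
  have h := poly_inp hn hc hw
  repeat' (beta_reduce; with_reducible_and_instances (first
    | assumption | exact NPC.Poly.const _ | exact NPC.Poly.id | apply NPC.Poly.fst
    | apply NPC.Poly.snd | apply NPC.Poly.cons | apply NPC.Poly.append | apply NPC.Poly.map
    | apply NPC.Poly.flatMap | apply NPC.Poly.filter | apply NPC.Poly.length
    | apply NPC.Poly.range_length | apply NPC.Poly.zipIdx | apply NPC.Poly.zip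
    | apply NPC.Poly.add | apply NPC.Poly.sub | apply NPC.Poly.mul | apply NPC.Poly.div
    | apply NPC.Poly.mod | apply NPC.Poly.decide_and | apply NPC.Poly.decide_or
    | apply NPC.Poly.decide_not | apply NPC.Poly.decide_lt | apply NPC.Poly.decide_le
    | apply NPC.Poly.decide_eq | apply NPC.Poly.decide_mem | apply NPC.Poly.ite
    | apply NPC.Poly.cond | apply NPC.Poly.some | apply NPC.Poly.getD | apply NPC.UPoly.range
    | apply NPC.UPoly.const | apply NPC.UPoly.add | apply NPC.UPoly.mul | apply NPC.UPoly.length
    | apply NPC.Poly.pair))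

theorem poly_df {k l : α → ℕ} (hk : NPC.Poly k) (hl : NPC.Poly l) :
    NPC.Poly fun a => df (k a) (l a) := by
  unfold df vX
  repeat' (beta_reduce; with_reducible_and_instances (first
    | assumption | exact NPC.Poly.const _ | exact NPC.Poly.id | apply NPC.Poly.fst
    | apply NPC.Poly.snd | apply NPC.Poly.cons | apply NPC.Poly.append | apply NPC.Poly.map
    | apply NPC.Poly.flatMap | apply NPC.Poly.filter | apply NPC.Poly.length
    | apply NPC.Poly.range_length | apply NPC.Poly.zipIdx | apply NPC.Poly.zip
    | apply NPC.Poly.add | apply NPC.Poly.sub | apply NPC.Poly.mul | apply NPC.Poly.div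
    | apply NPC.Poly.mod | apply NPC.Poly.decide_and | apply NPC.Poly.decide_or
    | apply NPC.Poly.decide_not | apply NPC.Poly.decide_lt | apply NPC.Poly.decide_le
    | apply NPC.Poly.decide_eq | apply NPC.Poly.decide_mem | apply NPC.Poly.ite
    | apply NPC.Poly.cond | apply NPC.Poly.some | apply NPC.Poly.getD | apply NPC.UPoly.range
    | apply NPC.UPoly.const | apply NPC.UPoly.add | apply NPC.UPoly.mul | apply NPC.UPoly.length
    | apply NPC.Poly.pair))

theorem poly_prA {n k l : α → ℕ} (hn : NPC.Poly n) (hk : NPC.Poly k) (hl : NPC.Poly l) :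
    NPC.Poly fun a => prA (n a) (k a) (l a) := by
  unfold prA vR
  repeat' (beta_reduce; with_reducible_and_instances (first
    | assumption | exact NPC.Poly.const _ | exact NPC.Poly.id | apply NPC.Poly.fst
    | apply NPC.Poly.snd | apply NPC.Poly.cons | apply NPC.Poly.append | apply NPC.Poly.map
    | apply NPC.Poly.flatMap | apply NPC.Poly.filter | apply NPC.Poly.length
    | apply NPC.Poly.range_length | apply NPC.Poly.zipIdx | apply NPC.Poly.zip
    | apply NPC.Poly.add | apply NPC.Poly.sub | apply NPC.Poly.mul | apply NPC.Poly.div
    | apply NPC.Poly.mod | apply NPC.Poly.decide_and | apply NPC.Poly.decide_or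
    | apply NPC.Poly.decide_not | apply NPC.Poly.decide_lt | apply NPC.Poly.decide_le
    | apply NPC.Poly.decide_eq | apply NPC.Poly.decide_mem | apply NPC.Poly.ite
    | apply NPC.Poly.cond | apply NPC.Poly.some | apply NPC.Poly.getD | apply NPC.UPoly.range
    | apply NPC.UPoly.const | apply NPC.UPoly.add | apply NPC.UPoly.mul | apply NPC.UPoly.length
    | apply NPC.Poly.pair))

theorem poly_prB {n k l : α → ℕ} (hn : NPC.Poly n) (hk : NPC.Poly k) (hl : NPC.Poly l) :
    NPC.Poly fun a => prB (n a) (k a) (l a) := by
  unfold prB vR vO
  repeat' (beta_reduce; with_reducible_and_instances (first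
    | assumption | exact NPC.Poly.const _ | exact NPC.Poly.id | apply NPC.Poly.fst
    | apply NPC.Poly.snd | apply NPC.Poly.cons | apply NPC.Poly.append | apply NPC.Poly.map
    | apply NPC.Poly.flatMap | apply NPC.Poly.filter | apply NPC.Poly.length
    | apply NPC.Poly.range_length | apply NPC.Poly.zipIdx | apply NPC.Poly.zip
    | apply NPC.Poly.add | apply NPC.Poly.sub | apply NPC.Poly.mul | apply NPC.Poly.div
    | apply NPC.Poly.mod | apply NPC.Poly.decide_and | apply NPC.Poly.decide_or
    | apply NPC.Poly.decide_not | apply NPC.Poly.decide_lt | apply NPC.Poly.decide_le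
    | apply NPC.Poly.decide_eq | apply NPC.Poly.decide_mem | apply NPC.Poly.ite
    | apply NPC.Poly.cond | apply NPC.Poly.some | apply NPC.Poly.getD | apply NPC.UPoly.range
    | apply NPC.UPoly.const | apply NPC.UPoly.add | apply NPC.UPoly.mul | apply NPC.UPoly.length
    | apply NPC.Poly.pair))

theorem poly_rep8 {f : α → Var} (hf : NPC.Poly f) :
    NPC.Poly fun a => List.replicate 8 (f a) := by
  have h : NPC.Poly fun a => [f a, f a, f a, f a, f a, f a, f a, f a] := by repeat' (beta_reduce; with_reducible_and_instances (first
      | assumption | exact NPC.Poly.const _ | exact NPC.Poly.id | apply NPC.Poly.fst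
      | apply NPC.Poly.snd | apply NPC.Poly.cons | apply NPC.Poly.append | apply NPC.Poly.map
      | apply NPC.Poly.flatMap | apply NPC.Poly.filter | apply NPC.Poly.length
      | apply NPC.Poly.range_length | apply NPC.Poly.zipIdx | apply NPC.Poly.zip
      | apply NPC.Poly.add | apply NPC.Poly.sub | apply NPC.Poly.mul | apply NPC.Poly.div
      | apply NPC.Poly.mod | apply NPC.Poly.decide_and | apply NPC.Poly.decide_or
      | apply NPC.Poly.decide_not | apply NPC.Poly.decide_lt | apply NPC.Poly.decide_le
      | apply NPC.Poly.decide_eq | apply NPC.Poly.decide_mem | apply NPC.Poly.ite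
      | apply NPC.Poly.cond | apply NPC.Poly.some | apply NPC.Poly.getD | apply NPC.UPoly.range
      | apply NPC.UPoly.const | apply NPC.UPoly.add | apply NPC.UPoly.mul | apply NPC.UPoly.length
      | apply NPC.Poly.pair))
  exact h

theorem poly_others {n i : α → ℕ} (hn : UPoly n) (hi : NPC.Poly i) :
    NPC.Poly fun a => others (n a) (i a) := by
  unfold others
  refine NPC.Poly.flatMap hn.range ?_
  have h : NPC.Poly fun p : α × ℕ => List.replicate 8 (vD p.2) :=
    poly_rep8 (poly_vD (by repeat' (beta_reduce; with_reducible_and_instances (first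
        | assumption | exact NPC.Poly.const _ | exact NPC.Poly.id | apply NPC.Poly.fst
        | apply NPC.Poly.snd | apply NPC.Poly.cons | apply NPC.Poly.append | apply NPC.Poly.map
        | apply NPC.Poly.flatMap | apply NPC.Poly.filter | apply NPC.Poly.length
        | apply NPC.Poly.range_length | apply NPC.Poly.zipIdx | apply NPC.Poly.zip
        | apply NPC.Poly.add | apply NPC.Poly.sub | apply NPC.Poly.mul | apply NPC.Poly.div
        | apply NPC.Poly.mod | apply NPC.Poly.decide_and | apply NPC.Poly.decide_or
        | apply NPC.Poly.decide_not | apply NPC.Poly.decide_lt | apply NPC.Poly.decide_le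
        | apply NPC.Poly.decide_eq | apply NPC.Poly.decide_mem | apply NPC.Poly.ite
        | apply NPC.Poly.cond | apply NPC.Poly.some | apply NPC.Poly.getD | apply NPC.UPoly.range
        | apply NPC.UPoly.const | apply NPC.UPoly.add | apply NPC.UPoly.mul
        | apply NPC.UPoly.length | apply NPC.Poly.pair))))
  have hi' : NPC.Poly fun p : α × ℕ => i p.1 := hi.comp (by repeat' (beta_reduce; with_reducible_and_instances (first
      | assumption | exact NPC.Poly.const _ | exact NPC.Poly.id | apply NPC.Poly.fst
      | apply NPC.Poly.snd | apply NPC.Poly.cons | apply NPC.Poly.append | apply NPC.Poly.map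
      | apply NPC.Poly.flatMap | apply NPC.Poly.filter | apply NPC.Poly.length
      | apply NPC.Poly.range_length | apply NPC.Poly.zipIdx | apply NPC.Poly.zip
      | apply NPC.Poly.add | apply NPC.Poly.sub | apply NPC.Poly.mul | apply NPC.Poly.div
      | apply NPC.Poly.mod | apply NPC.Poly.decide_and | apply NPC.Poly.decide_or
      | apply NPC.Poly.decide_not | apply NPC.Poly.decide_lt | apply NPC.Poly.decide_le
      | apply NPC.Poly.decide_eq | apply NPC.Poly.decide_mem | apply NPC.Poly.ite
      | apply NPC.Poly.cond | apply NPC.Poly.some | apply NPC.Poly.getD | apply NPC.UPoly.range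
      | apply NPC.UPoly.const | apply NPC.UPoly.add | apply NPC.UPoly.mul | apply NPC.UPoly.length
      | apply NPC.Poly.pair)))
  repeat' (beta_reduce; with_reducible_and_instances (first
    | assumption | exact NPC.Poly.const _ | exact NPC.Poly.id | apply NPC.Poly.fst
    | apply NPC.Poly.snd | apply NPC.Poly.cons | apply NPC.Poly.append | apply NPC.Poly.map
    | apply NPC.Poly.flatMap | apply NPC.Poly.filter | apply NPC.Poly.length
    | apply NPC.Poly.range_length | apply NPC.Poly.zipIdx | apply NPC.Poly.zip
    | apply NPC.Poly.add | apply NPC.Poly.sub | apply NPC.Poly.mul | apply NPC.Poly.div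
    | apply NPC.Poly.mod | apply NPC.Poly.decide_and | apply NPC.Poly.decide_or
    | apply NPC.Poly.decide_not | apply NPC.Poly.decide_lt | apply NPC.Poly.decide_le
    | apply NPC.Poly.decide_eq | apply NPC.Poly.decide_mem | apply NPC.Poly.ite
    | apply NPC.Poly.cond | apply NPC.Poly.some | apply NPC.Poly.getD | apply NPC.UPoly.range
    | apply NPC.UPoly.const | apply NPC.UPoly.add | apply NPC.UPoly.mul | apply NPC.UPoly.length
    | apply NPC.Poly.pair))

theorem poly_negA {n i : α → ℕ} (hn : UPoly n) (hi : NPC.Poly i) :
    NPC.Poly fun a => negA (n a) (i a) := by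
  unfold negA
  have h2 : NPC.Poly fun p : α × ℕ => df 2 p.2 := poly_df (by repeat' (beta_reduce; with_reducible_and_instances (first
      | assumption | exact NPC.Poly.const _ | exact NPC.Poly.id | apply NPC.Poly.fst
      | apply NPC.Poly.snd | apply NPC.Poly.cons | apply NPC.Poly.append | apply NPC.Poly.map
      | apply NPC.Poly.flatMap | apply NPC.Poly.filter | apply NPC.Poly.length
      | apply NPC.Poly.range_length | apply NPC.Poly.zipIdx | apply NPC.Poly.zip
      | apply NPC.Poly.add | apply NPC.Poly.sub | apply NPC.Poly.mul | apply NPC.Poly.div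
      | apply NPC.Poly.mod | apply NPC.Poly.decide_and | apply NPC.Poly.decide_or
      | apply NPC.Poly.decide_not | apply NPC.Poly.decide_lt | apply NPC.Poly.decide_le
      | apply NPC.Poly.decide_eq | apply NPC.Poly.decide_mem | apply NPC.Poly.ite
      | apply NPC.Poly.cond | apply NPC.Poly.some | apply NPC.Poly.getD | apply NPC.UPoly.range
      | apply NPC.UPoly.const | apply NPC.UPoly.add | apply NPC.UPoly.mul | apply NPC.UPoly.length
      | apply NPC.Poly.pair))) (by repeat' (beta_reduce; with_reducible_and_instances (first
      | assumption | exact NPC.Poly.const _ | exact NPC.Poly.id | apply NPC.Poly.fst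
      | apply NPC.Poly.snd | apply NPC.Poly.cons | apply NPC.Poly.append | apply NPC.Poly.map
      | apply NPC.Poly.flatMap | apply NPC.Poly.filter | apply NPC.Poly.length
      | apply NPC.Poly.range_length | apply NPC.Poly.zipIdx | apply NPC.Poly.zip
      | apply NPC.Poly.add | apply NPC.Poly.sub | apply NPC.Poly.mul | apply NPC.Poly.div
      | apply NPC.Poly.mod | apply NPC.Poly.decide_and | apply NPC.Poly.decide_or
      | apply NPC.Poly.decide_not | apply NPC.Poly.decide_lt | apply NPC.Poly.decide_le
      | apply NPC.Poly.decide_eq | apply NPC.Poly.decide_mem | apply NPC.Poly.ite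
      | apply NPC.Poly.cond | apply NPC.Poly.some | apply NPC.Poly.getD | apply NPC.UPoly.range
      | apply NPC.UPoly.const | apply NPC.UPoly.add | apply NPC.UPoly.mul | apply NPC.UPoly.length
      | apply NPC.Poly.pair)))
  have h3 : NPC.Poly fun p : α × ℕ => df 3 p.2 := poly_df (by repeat' (beta_reduce; with_reducible_and_instances (first
      | assumption | exact NPC.Poly.const _ | exact NPC.Poly.id | apply NPC.Poly.fst
      | apply NPC.Poly.snd | apply NPC.Poly.cons | apply NPC.Poly.append | apply NPC.Poly.map
      | apply NPC.Poly.flatMap | apply NPC.Poly.filter | apply NPC.Poly.length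
      | apply NPC.Poly.range_length | apply NPC.Poly.zipIdx | apply NPC.Poly.zip
      | apply NPC.Poly.add | apply NPC.Poly.sub | apply NPC.Poly.mul | apply NPC.Poly.div
      | apply NPC.Poly.mod | apply NPC.Poly.decide_and | apply NPC.Poly.decide_or
      | apply NPC.Poly.decide_not | apply NPC.Poly.decide_lt | apply NPC.Poly.decide_le
      | apply NPC.Poly.decide_eq | apply NPC.Poly.decide_mem | apply NPC.Poly.ite
      | apply NPC.Poly.cond | apply NPC.Poly.some | apply NPC.Poly.getD | apply NPC.UPoly.range
      | apply NPC.UPoly.const | apply NPC.UPoly.add | apply NPC.UPoly.mul | apply NPC.UPoly.length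
      | apply NPC.Poly.pair))) (by repeat' (beta_reduce; with_reducible_and_instances (first
      | assumption | exact NPC.Poly.const _ | exact NPC.Poly.id | apply NPC.Poly.fst
      | apply NPC.Poly.snd | apply NPC.Poly.cons | apply NPC.Poly.append | apply NPC.Poly.map
      | apply NPC.Poly.flatMap | apply NPC.Poly.filter | apply NPC.Poly.length
      | apply NPC.Poly.range_length | apply NPC.Poly.zipIdx | apply NPC.Poly.zip
      | apply NPC.Poly.add | apply NPC.Poly.sub | apply NPC.Poly.mul | apply NPC.Poly.div
      | apply NPC.Poly.mod | apply NPC.Poly.decide_and | apply NPC.Poly.decide_or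
      | apply NPC.Poly.decide_not | apply NPC.Poly.decide_lt | apply NPC.Poly.decide_le
      | apply NPC.Poly.decide_eq | apply NPC.Poly.decide_mem | apply NPC.Poly.ite
      | apply NPC.Poly.cond | apply NPC.Poly.some | apply NPC.Poly.getD | apply NPC.UPoly.range
      | apply NPC.UPoly.const | apply NPC.UPoly.add | apply NPC.UPoly.mul | apply NPC.UPoly.length
      | apply NPC.Poly.pair)))
  have h4 : NPC.Poly fun p : α × ℕ => df 4 p.2 := poly_df (by repeat' (beta_reduce; with_reducible_and_instances (first
      | assumption | exact NPC.Poly.const _ | exact NPC.Poly.id | apply NPC.Poly.fst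
      | apply NPC.Poly.snd | apply NPC.Poly.cons | apply NPC.Poly.append | apply NPC.Poly.map
      | apply NPC.Poly.flatMap | apply NPC.Poly.filter | apply NPC.Poly.length
      | apply NPC.Poly.range_length | apply NPC.Poly.zipIdx | apply NPC.Poly.zip
      | apply NPC.Poly.add | apply NPC.Poly.sub | apply NPC.Poly.mul | apply NPC.Poly.div
      | apply NPC.Poly.mod | apply NPC.Poly.decide_and | apply NPC.Poly.decide_or
      | apply NPC.Poly.decide_not | apply NPC.Poly.decide_lt | apply NPC.Poly.decide_le
      | apply NPC.Poly.decide_eq | apply NPC.Poly.decide_mem | apply NPC.Poly.ite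
      | apply NPC.Poly.cond | apply NPC.Poly.some | apply NPC.Poly.getD | apply NPC.UPoly.range
      | apply NPC.UPoly.const | apply NPC.UPoly.add | apply NPC.UPoly.mul | apply NPC.UPoly.length
      | apply NPC.Poly.pair))) (by repeat' (beta_reduce; with_reducible_and_instances (first
      | assumption | exact NPC.Poly.const _ | exact NPC.Poly.id | apply NPC.Poly.fst
      | apply NPC.Poly.snd | apply NPC.Poly.cons | apply NPC.Poly.append | apply NPC.Poly.map
      | apply NPC.Poly.flatMap | apply NPC.Poly.filter | apply NPC.Poly.length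
      | apply NPC.Poly.range_length | apply NPC.Poly.zipIdx | apply NPC.Poly.zip
      | apply NPC.Poly.add | apply NPC.Poly.sub | apply NPC.Poly.mul | apply NPC.Poly.div
      | apply NPC.Poly.mod | apply NPC.Poly.decide_and | apply NPC.Poly.decide_or
      | apply NPC.Poly.decide_not | apply NPC.Poly.decide_lt | apply NPC.Poly.decide_le
      | apply NPC.Poly.decide_eq | apply NPC.Poly.decide_mem | apply NPC.Poly.ite
      | apply NPC.Poly.cond | apply NPC.Poly.some | apply NPC.Poly.getD | apply NPC.UPoly.range
      | apply NPC.UPoly.const | apply NPC.UPoly.add | apply NPC.UPoly.mul | apply NPC.UPoly.length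
      | apply NPC.Poly.pair)))
  have hi' : NPC.Poly fun p : α × ℕ => i p.1 := hi.comp (by repeat' (beta_reduce; with_reducible_and_instances (first
      | assumption | exact NPC.Poly.const _ | exact NPC.Poly.id | apply NPC.Poly.fst
      | apply NPC.Poly.snd | apply NPC.Poly.cons | apply NPC.Poly.append | apply NPC.Poly.map
      | apply NPC.Poly.flatMap | apply NPC.Poly.filter | apply NPC.Poly.length
      | apply NPC.Poly.range_length | apply NPC.Poly.zipIdx | apply NPC.Poly.zip
      | apply NPC.Poly.add | apply NPC.Poly.sub | apply NPC.Poly.mul | apply NPC.Poly.div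
      | apply NPC.Poly.mod | apply NPC.Poly.decide_and | apply NPC.Poly.decide_or
      | apply NPC.Poly.decide_not | apply NPC.Poly.decide_lt | apply NPC.Poly.decide_le
      | apply NPC.Poly.decide_eq | apply NPC.Poly.decide_mem | apply NPC.Poly.ite
      | apply NPC.Poly.cond | apply NPC.Poly.some | apply NPC.Poly.getD | apply NPC.UPoly.range
      | apply NPC.UPoly.const | apply NPC.UPoly.add | apply NPC.UPoly.mul | apply NPC.UPoly.length
      | apply NPC.Poly.pair)))
  repeat' (beta_reduce; with_reducible_and_instances (first
    | assumption | exact NPC.Poly.const _ | exact NPC.Poly.id | apply NPC.Poly.fst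
    | apply NPC.Poly.snd | apply NPC.Poly.cons | apply NPC.Poly.append | apply NPC.Poly.map
    | apply NPC.Poly.flatMap | apply NPC.Poly.filter | apply NPC.Poly.length
    | apply NPC.Poly.range_length | apply NPC.Poly.zipIdx | apply NPC.Poly.zip
    | apply NPC.Poly.add | apply NPC.Poly.sub | apply NPC.Poly.mul | apply NPC.Poly.div
    | apply NPC.Poly.mod | apply NPC.Poly.decide_and | apply NPC.Poly.decide_or
    | apply NPC.Poly.decide_not | apply NPC.Poly.decide_lt | apply NPC.Poly.decide_le
    | apply NPC.Poly.decide_eq | apply NPC.Poly.decide_mem | apply NPC.Poly.ite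
    | apply NPC.Poly.cond | apply NPC.Poly.some | apply NPC.Poly.getD | apply NPC.UPoly.range
    | apply NPC.UPoly.const | apply NPC.UPoly.add | apply NPC.UPoly.mul | apply NPC.UPoly.length
    | apply NPC.Poly.pair))

theorem poly_negB {n i : α → ℕ} (hn : UPoly n) (hi : NPC.Poly i) :
    NPC.Poly fun a => negB (n a) (i a) := by
  unfold negB
  have h2 : NPC.Poly fun p : α × ℕ => df 0 p.2 := poly_df (by repeat' (beta_reduce; with_reducible_and_instances (first
      | assumption | exact NPC.Poly.const _ | exact NPC.Poly.id | apply NPC.Poly.fst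
      | apply NPC.Poly.snd | apply NPC.Poly.cons | apply NPC.Poly.append | apply NPC.Poly.map
      | apply NPC.Poly.flatMap | apply NPC.Poly.filter | apply NPC.Poly.length
      | apply NPC.Poly.range_length | apply NPC.Poly.zipIdx | apply NPC.Poly.zip
      | apply NPC.Poly.add | apply NPC.Poly.sub | apply NPC.Poly.mul | apply NPC.Poly.div
      | apply NPC.Poly.mod | apply NPC.Poly.decide_and | apply NPC.Poly.decide_or
      | apply NPC.Poly.decide_not | apply NPC.Poly.decide_lt | apply NPC.Poly.decide_le
      | apply NPC.Poly.decide_eq | apply NPC.Poly.decide_mem | apply NPC.Poly.ite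
      | apply NPC.Poly.cond | apply NPC.Poly.some | apply NPC.Poly.getD | apply NPC.UPoly.range
      | apply NPC.UPoly.const | apply NPC.UPoly.add | apply NPC.UPoly.mul | apply NPC.UPoly.length
      | apply NPC.Poly.pair))) (by repeat' (beta_reduce; with_reducible_and_instances (first
      | assumption | exact NPC.Poly.const _ | exact NPC.Poly.id | apply NPC.Poly.fst
      | apply NPC.Poly.snd | apply NPC.Poly.cons | apply NPC.Poly.append | apply NPC.Poly.map
      | apply NPC.Poly.flatMap | apply NPC.Poly.filter | apply NPC.Poly.length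
      | apply NPC.Poly.range_length | apply NPC.Poly.zipIdx | apply NPC.Poly.zip
      | apply NPC.Poly.add | apply NPC.Poly.sub | apply NPC.Poly.mul | apply NPC.Poly.div
      | apply NPC.Poly.mod | apply NPC.Poly.decide_and | apply NPC.Poly.decide_or
      | apply NPC.Poly.decide_not | apply NPC.Poly.decide_lt | apply NPC.Poly.decide_le
      | apply NPC.Poly.decide_eq | apply NPC.Poly.decide_mem | apply NPC.Poly.ite
      | apply NPC.Poly.cond | apply NPC.Poly.some | apply NPC.Poly.getD | apply NPC.UPoly.range
      | apply NPC.UPoly.const | apply NPC.UPoly.add | apply NPC.UPoly.mul | apply NPC.UPoly.length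
      | apply NPC.Poly.pair)))
  have h3 : NPC.Poly fun p : α × ℕ => df 1 p.2 := poly_df (by repeat' (beta_reduce; with_reducible_and_instances (first
      | assumption | exact NPC.Poly.const _ | exact NPC.Poly.id | apply NPC.Poly.fst
      | apply NPC.Poly.snd | apply NPC.Poly.cons | apply NPC.Poly.append | apply NPC.Poly.map
      | apply NPC.Poly.flatMap | apply NPC.Poly.filter | apply NPC.Poly.length
      | apply NPC.Poly.range_length | apply NPC.Poly.zipIdx | apply NPC.Poly.zip
      | apply NPC.Poly.add | apply NPC.Poly.sub | apply NPC.Poly.mul | apply NPC.Poly.div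
      | apply NPC.Poly.mod | apply NPC.Poly.decide_and | apply NPC.Poly.decide_or
      | apply NPC.Poly.decide_not | apply NPC.Poly.decide_lt | apply NPC.Poly.decide_le
      | apply NPC.Poly.decide_eq | apply NPC.Poly.decide_mem | apply NPC.Poly.ite
      | apply NPC.Poly.cond | apply NPC.Poly.some | apply NPC.Poly.getD | apply NPC.UPoly.range
      | apply NPC.UPoly.const | apply NPC.UPoly.add | apply NPC.UPoly.mul | apply NPC.UPoly.length
      | apply NPC.Poly.pair))) (by repeat' (beta_reduce; with_reducible_and_instances (first
      | assumption | exact NPC.Poly.const _ | exact NPC.Poly.id | apply NPC.Poly.fst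
      | apply NPC.Poly.snd | apply NPC.Poly.cons | apply NPC.Poly.append | apply NPC.Poly.map
      | apply NPC.Poly.flatMap | apply NPC.Poly.filter | apply NPC.Poly.length
      | apply NPC.Poly.range_length | apply NPC.Poly.zipIdx | apply NPC.Poly.zip
      | apply NPC.Poly.add | apply NPC.Poly.sub | apply NPC.Poly.mul | apply NPC.Poly.div
      | apply NPC.Poly.mod | apply NPC.Poly.decide_and | apply NPC.Poly.decide_or
      | apply NPC.Poly.decide_not | apply NPC.Poly.decide_lt | apply NPC.Poly.decide_le
      | apply NPC.Poly.decide_eq | apply NPC.Poly.decide_mem | apply NPC.Poly.ite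
      | apply NPC.Poly.cond | apply NPC.Poly.some | apply NPC.Poly.getD | apply NPC.UPoly.range
      | apply NPC.UPoly.const | apply NPC.UPoly.add | apply NPC.UPoly.mul | apply NPC.UPoly.length
      | apply NPC.Poly.pair)))
  have h4 : NPC.Poly fun p : α × ℕ => df 2 p.2 := poly_df (by repeat' (beta_reduce; with_reducible_and_instances (first
      | assumption | exact NPC.Poly.const _ | exact NPC.Poly.id | apply NPC.Poly.fst
      | apply NPC.Poly.snd | apply NPC.Poly.cons | apply NPC.Poly.append | apply NPC.Poly.map
      | apply NPC.Poly.flatMap | apply NPC.Poly.filter | apply NPC.Poly.length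
      | apply NPC.Poly.range_length | apply NPC.Poly.zipIdx | apply NPC.Poly.zip
      | apply NPC.Poly.add | apply NPC.Poly.sub | apply NPC.Poly.mul | apply NPC.Poly.div
      | apply NPC.Poly.mod | apply NPC.Poly.decide_and | apply NPC.Poly.decide_or
      | apply NPC.Poly.decide_not | apply NPC.Poly.decide_lt | apply NPC.Poly.decide_le
      | apply NPC.Poly.decide_eq | apply NPC.Poly.decide_mem | apply NPC.Poly.ite
      | apply NPC.Poly.cond | apply NPC.Poly.some | apply NPC.Poly.getD | apply NPC.UPoly.range
      | apply NPC.UPoly.const | apply NPC.UPoly.add | apply NPC.UPoly.mul | apply NPC.UPoly.length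
      | apply NPC.Poly.pair))) (by repeat' (beta_reduce; with_reducible_and_instances (first
      | assumption | exact NPC.Poly.const _ | exact NPC.Poly.id | apply NPC.Poly.fst
      | apply NPC.Poly.snd | apply NPC.Poly.cons | apply NPC.Poly.append | apply NPC.Poly.map
      | apply NPC.Poly.flatMap | apply NPC.Poly.filter | apply NPC.Poly.length
      | apply NPC.Poly.range_length | apply NPC.Poly.zipIdx | apply NPC.Poly.zip
      | apply NPC.Poly.add | apply NPC.Poly.sub | apply NPC.Poly.mul | apply NPC.Poly.div
      | apply NPC.Poly.mod | apply NPC.Poly.decide_and | apply NPC.Poly.decide_or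
      | apply NPC.Poly.decide_not | apply NPC.Poly.decide_lt | apply NPC.Poly.decide_le
      | apply NPC.Poly.decide_eq | apply NPC.Poly.decide_mem | apply NPC.Poly.ite
      | apply NPC.Poly.cond | apply NPC.Poly.some | apply NPC.Poly.getD | apply NPC.UPoly.range
      | apply NPC.UPoly.const | apply NPC.UPoly.add | apply NPC.UPoly.mul | apply NPC.UPoly.length
      | apply NPC.Poly.pair)))
  have hi' : NPC.Poly fun p : α × ℕ => i p.1 := hi.comp (by repeat' (beta_reduce; with_reducible_and_instances (first
      | assumption | exact NPC.Poly.const _ | exact NPC.Poly.id | apply NPC.Poly.fst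
      | apply NPC.Poly.snd | apply NPC.Poly.cons | apply NPC.Poly.append | apply NPC.Poly.map
      | apply NPC.Poly.flatMap | apply NPC.Poly.filter | apply NPC.Poly.length
      | apply NPC.Poly.range_length | apply NPC.Poly.zipIdx | apply NPC.Poly.zip
      | apply NPC.Poly.add | apply NPC.Poly.sub | apply NPC.Poly.mul | apply NPC.Poly.div
      | apply NPC.Poly.mod | apply NPC.Poly.decide_and | apply NPC.Poly.decide_or
      | apply NPC.Poly.decide_not | apply NPC.Poly.decide_lt | apply NPC.Poly.decide_le
      | apply NPC.Poly.decide_eq | apply NPC.Poly.decide_mem | apply NPC.Poly.ite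
      | apply NPC.Poly.cond | apply NPC.Poly.some | apply NPC.Poly.getD | apply NPC.UPoly.range
      | apply NPC.UPoly.const | apply NPC.UPoly.add | apply NPC.UPoly.mul | apply NPC.UPoly.length
      | apply NPC.Poly.pair)))
  have hn' : NPC.Poly n := hn.toPoly
  have h5 : NPC.Poly fun a => vR (2 * n a) := poly_vR (by repeat' (beta_reduce; with_reducible_and_instances (first
      | assumption | exact NPC.Poly.const _ | exact NPC.Poly.id | apply NPC.Poly.fst
      | apply NPC.Poly.snd | apply NPC.Poly.cons | apply NPC.Poly.append | apply NPC.Poly.map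
      | apply NPC.Poly.flatMap | apply NPC.Poly.filter | apply NPC.Poly.length
      | apply NPC.Poly.range_length | apply NPC.Poly.zipIdx | apply NPC.Poly.zip
      | apply NPC.Poly.add | apply NPC.Poly.sub | apply NPC.Poly.mul | apply NPC.Poly.div
      | apply NPC.Poly.mod | apply NPC.Poly.decide_and | apply NPC.Poly.decide_or
      | apply NPC.Poly.decide_not | apply NPC.Poly.decide_lt | apply NPC.Poly.decide_le
      | apply NPC.Poly.decide_eq | apply NPC.Poly.decide_mem | apply NPC.Poly.ite
      | apply NPC.Poly.cond | apply NPC.Poly.some | apply NPC.Poly.getD | apply NPC.UPoly.range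
      | apply NPC.UPoly.const | apply NPC.UPoly.add | apply NPC.UPoly.mul | apply NPC.UPoly.length
      | apply NPC.Poly.pair)))
  repeat' (beta_reduce; with_reducible_and_instances (first
    | assumption | exact NPC.Poly.const _ | exact NPC.Poly.id | apply NPC.Poly.fst
    | apply NPC.Poly.snd | apply NPC.Poly.cons | apply NPC.Poly.append | apply NPC.Poly.map
    | apply NPC.Poly.flatMap | apply NPC.Poly.filter | apply NPC.Poly.length
    | apply NPC.Poly.range_length | apply NPC.Poly.zipIdx | apply NPC.Poly.zip
    | apply NPC.Poly.add | apply NPC.Poly.sub | apply NPC.Poly.mul | apply NPC.Poly.div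
    | apply NPC.Poly.mod | apply NPC.Poly.decide_and | apply NPC.Poly.decide_or
    | apply NPC.Poly.decide_not | apply NPC.Poly.decide_lt | apply NPC.Poly.decide_le
    | apply NPC.Poly.decide_eq | apply NPC.Poly.decide_mem | apply NPC.Poly.ite
    | apply NPC.Poly.cond | apply NPC.Poly.some | apply NPC.Poly.getD | apply NPC.UPoly.range
    | apply NPC.UPoly.const | apply NPC.UPoly.add | apply NPC.UPoly.mul | apply NPC.UPoly.length
    | apply NPC.Poly.pair))

theorem upoly_n {I : α → Circ × Circ} (hI : NPC.Poly I) : UPoly fun a => eolN (I a) := by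
  unfold eolN
  exact NPC.UPoly.length (by repeat' (beta_reduce; with_reducible_and_instances (first
      | assumption | exact NPC.Poly.const _ | exact NPC.Poly.id | apply NPC.Poly.fst
      | apply NPC.Poly.snd | apply NPC.Poly.cons | apply NPC.Poly.append | apply NPC.Poly.map
      | apply NPC.Poly.flatMap | apply NPC.Poly.filter | apply NPC.Poly.length
      | apply NPC.Poly.range_length | apply NPC.Poly.zipIdx | apply NPC.Poly.zip
      | apply NPC.Poly.add | apply NPC.Poly.sub | apply NPC.Poly.mul | apply NPC.Poly.div
      | apply NPC.Poly.mod | apply NPC.Poly.decide_and | apply NPC.Poly.decide_or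
      | apply NPC.Poly.decide_not | apply NPC.Poly.decide_lt | apply NPC.Poly.decide_le
      | apply NPC.Poly.decide_eq | apply NPC.Poly.decide_mem | apply NPC.Poly.ite
      | apply NPC.Poly.cond | apply NPC.Poly.some | apply NPC.Poly.getD | apply NPC.UPoly.range
      | apply NPC.UPoly.const | apply NPC.UPoly.add | apply NPC.UPoly.mul | apply NPC.UPoly.length
      | apply NPC.Poly.pair)))

theorem poly_eqn : NPC.Poly fun p : (Circ × Circ) × Var => eqn p.1 p.2.1 p.2.2.1 p.2.2.2 := by
  have hI : NPC.Poly fun p : (Circ × Circ) × Var => p.1 := by repeat' (beta_reduce; with_reducible_and_instances (first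
      | assumption | exact NPC.Poly.const _ | exact NPC.Poly.id | apply NPC.Poly.fst
      | apply NPC.Poly.snd | apply NPC.Poly.cons | apply NPC.Poly.append | apply NPC.Poly.map
      | apply NPC.Poly.flatMap | apply NPC.Poly.filter | apply NPC.Poly.length
      | apply NPC.Poly.range_length | apply NPC.Poly.zipIdx | apply NPC.Poly.zip
      | apply NPC.Poly.add | apply NPC.Poly.sub | apply NPC.Poly.mul | apply NPC.Poly.div
      | apply NPC.Poly.mod | apply NPC.Poly.decide_and | apply NPC.Poly.decide_or
      | apply NPC.Poly.decide_not | apply NPC.Poly.decide_lt | apply NPC.Poly.decide_le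
      | apply NPC.Poly.decide_eq | apply NPC.Poly.decide_mem | apply NPC.Poly.ite
      | apply NPC.Poly.cond | apply NPC.Poly.some | apply NPC.Poly.getD | apply NPC.UPoly.range
      | apply NPC.UPoly.const | apply NPC.UPoly.add | apply NPC.UPoly.mul | apply NPC.UPoly.length
      | apply NPC.Poly.pair))
  have hi : NPC.Poly fun p : (Circ × Circ) × Var => p.2.2.1 := by repeat' (beta_reduce; with_reducible_and_instances (first
      | assumption | exact NPC.Poly.const _ | exact NPC.Poly.id | apply NPC.Poly.fst
      | apply NPC.Poly.snd | apply NPC.Poly.cons | apply NPC.Poly.append | apply NPC.Poly.map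
      | apply NPC.Poly.flatMap | apply NPC.Poly.filter | apply NPC.Poly.length
      | apply NPC.Poly.range_length | apply NPC.Poly.zipIdx | apply NPC.Poly.zip
      | apply NPC.Poly.add | apply NPC.Poly.sub | apply NPC.Poly.mul | apply NPC.Poly.div
      | apply NPC.Poly.mod | apply NPC.Poly.decide_and | apply NPC.Poly.decide_or
      | apply NPC.Poly.decide_not | apply NPC.Poly.decide_lt | apply NPC.Poly.decide_le
      | apply NPC.Poly.decide_eq | apply NPC.Poly.decide_mem | apply NPC.Poly.ite
      | apply NPC.Poly.cond | apply NPC.Poly.some | apply NPC.Poly.getD | apply NPC.UPoly.range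
      | apply NPC.UPoly.const | apply NPC.UPoly.add | apply NPC.UPoly.mul | apply NPC.UPoly.length
      | apply NPC.Poly.pair))
  have hj : NPC.Poly fun p : (Circ × Circ) × Var => p.2.2.2 := by repeat' (beta_reduce; with_reducible_and_instances (first
      | assumption | exact NPC.Poly.const _ | exact NPC.Poly.id | apply NPC.Poly.fst
      | apply NPC.Poly.snd | apply NPC.Poly.cons | apply NPC.Poly.append | apply NPC.Poly.map
      | apply NPC.Poly.flatMap | apply NPC.Poly.filter | apply NPC.Poly.length
      | apply NPC.Poly.range_length | apply NPC.Poly.zipIdx | apply NPC.Poly.zip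
      | apply NPC.Poly.add | apply NPC.Poly.sub | apply NPC.Poly.mul | apply NPC.Poly.div
      | apply NPC.Poly.mod | apply NPC.Poly.decide_and | apply NPC.Poly.decide_or
      | apply NPC.Poly.decide_not | apply NPC.Poly.decide_lt | apply NPC.Poly.decide_le
      | apply NPC.Poly.decide_eq | apply NPC.Poly.decide_mem | apply NPC.Poly.ite
      | apply NPC.Poly.cond | apply NPC.Poly.some | apply NPC.Poly.getD | apply NPC.UPoly.range
      | apply NPC.UPoly.const | apply NPC.UPoly.add | apply NPC.UPoly.mul | apply NPC.UPoly.length
      | apply NPC.Poly.pair))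
  have hn : UPoly fun p : (Circ × Circ) × Var => eolN p.1 := upoly_n hI
  have hn' := hn.toPoly
  have hN : UPoly fun p : (Circ × Circ) × Var => 2 * eolN p.1 + 1 :=
    ((NPC.UPoly.const 2).mul hn).add (NPC.UPoly.const 1)
  have hoth := poly_others hN hi
  have hnA := poly_negA hn hi
  have hij : NPC.Poly fun p : (Circ × Circ) × Var => p.2.2.1 - eolN p.1 := by repeat' (beta_reduce; with_reducible_and_instances (first
      | assumption | exact NPC.Poly.const _ | exact NPC.Poly.id | apply NPC.Poly.fst
      | apply NPC.Poly.snd | apply NPC.Poly.cons | apply NPC.Poly.append | apply NPC.Poly.map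
      | apply NPC.Poly.flatMap | apply NPC.Poly.filter | apply NPC.Poly.length
      | apply NPC.Poly.range_length | apply NPC.Poly.zipIdx | apply NPC.Poly.zip
      | apply NPC.Poly.add | apply NPC.Poly.sub | apply NPC.Poly.mul | apply NPC.Poly.div
      | apply NPC.Poly.mod | apply NPC.Poly.decide_and | apply NPC.Poly.decide_or
      | apply NPC.Poly.decide_not | apply NPC.Poly.decide_lt | apply NPC.Poly.decide_le
      | apply NPC.Poly.decide_eq | apply NPC.Poly.decide_mem | apply NPC.Poly.ite
      | apply NPC.Poly.cond | apply NPC.Poly.some | apply NPC.Poly.getD | apply NPC.UPoly.range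
      | apply NPC.UPoly.const | apply NPC.UPoly.add | apply NPC.UPoly.mul | apply NPC.UPoly.length
      | apply NPC.Poly.pair))
  have hnB := poly_negB hn hij
  have hT : NPC.Poly fun p : (Circ × Circ) × Var =>
      (List.range (2 * eolN p.1 + 1)).flatMap (fun l => [vTP l, vTM l]) :=
    NPC.Poly.flatMap hN.range (by unfold vTP vTM; repeat' (beta_reduce; with_reducible_and_instances (first
        | assumption | exact NPC.Poly.const _ | exact NPC.Poly.id | apply NPC.Poly.fst
        | apply NPC.Poly.snd | apply NPC.Poly.cons | apply NPC.Poly.append | apply NPC.Poly.map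
        | apply NPC.Poly.flatMap | apply NPC.Poly.filter | apply NPC.Poly.length
        | apply NPC.Poly.range_length | apply NPC.Poly.zipIdx | apply NPC.Poly.zip
        | apply NPC.Poly.add | apply NPC.Poly.sub | apply NPC.Poly.mul | apply NPC.Poly.div
        | apply NPC.Poly.mod | apply NPC.Poly.decide_and | apply NPC.Poly.decide_or
        | apply NPC.Poly.decide_not | apply NPC.Poly.decide_lt | apply NPC.Poly.decide_le
        | apply NPC.Poly.decide_eq | apply NPC.Poly.decide_mem | apply NPC.Poly.ite
        | apply NPC.Poly.cond | apply NPC.Poly.some | apply NPC.Poly.getD | apply NPC.UPoly.range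
        | apply NPC.UPoly.const | apply NPC.UPoly.add | apply NPC.UPoly.mul
        | apply NPC.UPoly.length | apply NPC.Poly.pair)))
  have hH : NPC.Poly fun p : (Circ × Circ) × Var =>
      (List.range (2 * eolN p.1 + 1)).flatMap (fun l => List.replicate 8 (vY l)) :=
    NPC.Poly.flatMap hN.range (poly_rep8 (poly_vY (by repeat' (beta_reduce; with_reducible_and_instances (first
        | assumption | exact NPC.Poly.const _ | exact NPC.Poly.id | apply NPC.Poly.fst
        | apply NPC.Poly.snd | apply NPC.Poly.cons | apply NPC.Poly.append | apply NPC.Poly.map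
        | apply NPC.Poly.flatMap | apply NPC.Poly.filter | apply NPC.Poly.length
        | apply NPC.Poly.range_length | apply NPC.Poly.zipIdx | apply NPC.Poly.zip
        | apply NPC.Poly.add | apply NPC.Poly.sub | apply NPC.Poly.mul | apply NPC.Poly.div
        | apply NPC.Poly.mod | apply NPC.Poly.decide_and | apply NPC.Poly.decide_or
        | apply NPC.Poly.decide_not | apply NPC.Poly.decide_lt | apply NPC.Poly.decide_le
        | apply NPC.Poly.decide_eq | apply NPC.Poly.decide_mem | apply NPC.Poly.ite
        | apply NPC.Poly.cond | apply NPC.Poly.some | apply NPC.Poly.getD | apply NPC.UPoly.range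
        | apply NPC.UPoly.const | apply NPC.UPoly.add | apply NPC.UPoly.mul
        | apply NPC.UPoly.length | apply NPC.Poly.pair)))))
  have hd : ∀ k : ℕ, NPC.Poly fun p : ((Circ × Circ) × Var) × ℕ => df k p.2 := fun k =>
    poly_df (by repeat' (beta_reduce; with_reducible_and_instances (first
        | assumption | exact NPC.Poly.const _ | exact NPC.Poly.id | apply NPC.Poly.fst
        | apply NPC.Poly.snd | apply NPC.Poly.cons | apply NPC.Poly.append | apply NPC.Poly.map
        | apply NPC.Poly.flatMap | apply NPC.Poly.filter | apply NPC.Poly.length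
        | apply NPC.Poly.range_length | apply NPC.Poly.zipIdx | apply NPC.Poly.zip
        | apply NPC.Poly.add | apply NPC.Poly.sub | apply NPC.Poly.mul | apply NPC.Poly.div
        | apply NPC.Poly.mod | apply NPC.Poly.decide_and | apply NPC.Poly.decide_or
        | apply NPC.Poly.decide_not | apply NPC.Poly.decide_lt | apply NPC.Poly.decide_le
        | apply NPC.Poly.decide_eq | apply NPC.Poly.decide_mem | apply NPC.Poly.ite
        | apply NPC.Poly.cond | apply NPC.Poly.some | apply NPC.Poly.getD | apply NPC.UPoly.range
        | apply NPC.UPoly.const | apply NPC.UPoly.add | apply NPC.UPoly.mul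
        | apply NPC.UPoly.length | apply NPC.Poly.pair))) (by repeat' (beta_reduce; with_reducible_and_instances (first
        | assumption | exact NPC.Poly.const _ | exact NPC.Poly.id | apply NPC.Poly.fst
        | apply NPC.Poly.snd | apply NPC.Poly.cons | apply NPC.Poly.append | apply NPC.Poly.map
        | apply NPC.Poly.flatMap | apply NPC.Poly.filter | apply NPC.Poly.length
        | apply NPC.Poly.range_length | apply NPC.Poly.zipIdx | apply NPC.Poly.zip
        | apply NPC.Poly.add | apply NPC.Poly.sub | apply NPC.Poly.mul | apply NPC.Poly.div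
        | apply NPC.Poly.mod | apply NPC.Poly.decide_and | apply NPC.Poly.decide_or
        | apply NPC.Poly.decide_not | apply NPC.Poly.decide_lt | apply NPC.Poly.decide_le
        | apply NPC.Poly.decide_eq | apply NPC.Poly.decide_mem | apply NPC.Poly.ite
        | apply NPC.Poly.cond | apply NPC.Poly.some | apply NPC.Poly.getD | apply NPC.UPoly.range
        | apply NPC.UPoly.const | apply NPC.UPoly.add | apply NPC.UPoly.mul
        | apply NPC.UPoly.length | apply NPC.Poly.pair)))
  have h01 : NPC.Poly fun p : (Circ × Circ) × Var =>
      (List.range (eolN p.1)).flatMap (fun l => df 0 l ++ df 1 l) :=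
    NPC.Poly.flatMap hn.range ((hd 0).append (hd 1))
  have h23 : NPC.Poly fun p : (Circ × Circ) × Var =>
      (List.range (eolN p.1)).flatMap (fun l => df 2 l ++ df 3 l) :=
    NPC.Poly.flatMap hn.range ((hd 2).append (hd 3))
  have h5 : NPC.Poly fun p : (Circ × Circ) × Var =>
      (List.range (eolN p.1)).flatMap (fun l => df 5 l) := NPC.Poly.flatMap hn.range (hd 5)
  have h6 : NPC.Poly fun p : (Circ × Circ) × Var =>
      (List.range (eolN p.1)).flatMap (fun l => df 6 l) := NPC.Poly.flatMap hn.range (hd 6)
  have hm : NPC.Poly fun p : (Circ × Circ) × Var => vR (2 * eolN p.1) :=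
    poly_vR (by repeat' (beta_reduce; with_reducible_and_instances (first
        | assumption | exact NPC.Poly.const _ | exact NPC.Poly.id | apply NPC.Poly.fst
        | apply NPC.Poly.snd | apply NPC.Poly.cons | apply NPC.Poly.append | apply NPC.Poly.map
        | apply NPC.Poly.flatMap | apply NPC.Poly.filter | apply NPC.Poly.length
        | apply NPC.Poly.range_length | apply NPC.Poly.zipIdx | apply NPC.Poly.zip
        | apply NPC.Poly.add | apply NPC.Poly.sub | apply NPC.Poly.mul | apply NPC.Poly.div
        | apply NPC.Poly.mod | apply NPC.Poly.decide_and | apply NPC.Poly.decide_or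
        | apply NPC.Poly.decide_not | apply NPC.Poly.decide_lt | apply NPC.Poly.decide_le
        | apply NPC.Poly.decide_eq | apply NPC.Poly.decide_mem | apply NPC.Poly.ite
        | apply NPC.Poly.cond | apply NPC.Poly.some | apply NPC.Poly.getD | apply NPC.UPoly.range
        | apply NPC.UPoly.const | apply NPC.UPoly.add | apply NPC.UPoly.mul
        | apply NPC.UPoly.length | apply NPC.Poly.pair)))
  have hX1 : ∀ k : ℕ, NPC.Poly fun p : (Circ × Circ) × Var => vX k p.2.2.1 := fun k =>
    poly_vX (by repeat' (beta_reduce; with_reducible_and_instances (first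
        | assumption | exact NPC.Poly.const _ | exact NPC.Poly.id | apply NPC.Poly.fst
        | apply NPC.Poly.snd | apply NPC.Poly.cons | apply NPC.Poly.append | apply NPC.Poly.map
        | apply NPC.Poly.flatMap | apply NPC.Poly.filter | apply NPC.Poly.length
        | apply NPC.Poly.range_length | apply NPC.Poly.zipIdx | apply NPC.Poly.zip
        | apply NPC.Poly.add | apply NPC.Poly.sub | apply NPC.Poly.mul | apply NPC.Poly.div
        | apply NPC.Poly.mod | apply NPC.Poly.decide_and | apply NPC.Poly.decide_or
        | apply NPC.Poly.decide_not | apply NPC.Poly.decide_lt | apply NPC.Poly.decide_le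
        | apply NPC.Poly.decide_eq | apply NPC.Poly.decide_mem | apply NPC.Poly.ite
        | apply NPC.Poly.cond | apply NPC.Poly.some | apply NPC.Poly.getD | apply NPC.UPoly.range
        | apply NPC.UPoly.const | apply NPC.UPoly.add | apply NPC.UPoly.mul
        | apply NPC.UPoly.length | apply NPC.Poly.pair))) (by repeat' (beta_reduce; with_reducible_and_instances (first
        | assumption | exact NPC.Poly.const _ | exact NPC.Poly.id | apply NPC.Poly.fst
        | apply NPC.Poly.snd | apply NPC.Poly.cons | apply NPC.Poly.append | apply NPC.Poly.map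
        | apply NPC.Poly.flatMap | apply NPC.Poly.filter | apply NPC.Poly.length
        | apply NPC.Poly.range_length | apply NPC.Poly.zipIdx | apply NPC.Poly.zip
        | apply NPC.Poly.add | apply NPC.Poly.sub | apply NPC.Poly.mul | apply NPC.Poly.div
        | apply NPC.Poly.mod | apply NPC.Poly.decide_and | apply NPC.Poly.decide_or
        | apply NPC.Poly.decide_not | apply NPC.Poly.decide_lt | apply NPC.Poly.decide_le
        | apply NPC.Poly.decide_eq | apply NPC.Poly.decide_mem | apply NPC.Poly.ite
        | apply NPC.Poly.cond | apply NPC.Poly.some | apply NPC.Poly.getD | apply NPC.UPoly.range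
        | apply NPC.UPoly.const | apply NPC.UPoly.add | apply NPC.UPoly.mul
        | apply NPC.UPoly.length | apply NPC.Poly.pair)))
  have hX2 : ∀ k : ℕ, NPC.Poly fun p : (Circ × Circ) × Var => vX k (p.2.2.1 - eolN p.1) :=
    fun k => poly_vX (by repeat' (beta_reduce; with_reducible_and_instances (first
        | assumption | exact NPC.Poly.const _ | exact NPC.Poly.id | apply NPC.Poly.fst
        | apply NPC.Poly.snd | apply NPC.Poly.cons | apply NPC.Poly.append | apply NPC.Poly.map
        | apply NPC.Poly.flatMap | apply NPC.Poly.filter | apply NPC.Poly.length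
        | apply NPC.Poly.range_length | apply NPC.Poly.zipIdx | apply NPC.Poly.zip
        | apply NPC.Poly.add | apply NPC.Poly.sub | apply NPC.Poly.mul | apply NPC.Poly.div
        | apply NPC.Poly.mod | apply NPC.Poly.decide_and | apply NPC.Poly.decide_or
        | apply NPC.Poly.decide_not | apply NPC.Poly.decide_lt | apply NPC.Poly.decide_le
        | apply NPC.Poly.decide_eq | apply NPC.Poly.decide_mem | apply NPC.Poly.ite
        | apply NPC.Poly.cond | apply NPC.Poly.some | apply NPC.Poly.getD | apply NPC.UPoly.range
        | apply NPC.UPoly.const | apply NPC.UPoly.add | apply NPC.UPoly.mul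
        | apply NPC.UPoly.length | apply NPC.Poly.pair))) (by repeat' (beta_reduce; with_reducible_and_instances (first
        | assumption | exact NPC.Poly.const _ | exact NPC.Poly.id | apply NPC.Poly.fst
        | apply NPC.Poly.snd | apply NPC.Poly.cons | apply NPC.Poly.append | apply NPC.Poly.map
        | apply NPC.Poly.flatMap | apply NPC.Poly.filter | apply NPC.Poly.length
        | apply NPC.Poly.range_length | apply NPC.Poly.zipIdx | apply NPC.Poly.zip
        | apply NPC.Poly.add | apply NPC.Poly.sub | apply NPC.Poly.mul | apply NPC.Poly.div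
        | apply NPC.Poly.mod | apply NPC.Poly.decide_and | apply NPC.Poly.decide_or
        | apply NPC.Poly.decide_not | apply NPC.Poly.decide_lt | apply NPC.Poly.decide_le
        | apply NPC.Poly.decide_eq | apply NPC.Poly.decide_mem | apply NPC.Poly.ite
        | apply NPC.Poly.cond | apply NPC.Poly.some | apply NPC.Poly.getD | apply NPC.UPoly.range
        | apply NPC.UPoly.const | apply NPC.UPoly.add | apply NPC.UPoly.mul
        | apply NPC.UPoly.length | apply NPC.Poly.pair)))
  have hc := poly_circ hI hi
  have hg : NPC.Poly fun p : (Circ × Circ) × Var =>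
      (circ p.1 p.2.2.1).1.getD p.2.2.2 (0, 0) := by repeat' (beta_reduce; with_reducible_and_instances (first
          | assumption | exact NPC.Poly.const _ | exact NPC.Poly.id | apply NPC.Poly.fst
          | apply NPC.Poly.snd | apply NPC.Poly.cons | apply NPC.Poly.append | apply NPC.Poly.map
          | apply NPC.Poly.flatMap | apply NPC.Poly.filter | apply NPC.Poly.length
          | apply NPC.Poly.range_length | apply NPC.Poly.zipIdx | apply NPC.Poly.zip
          | apply NPC.Poly.add | apply NPC.Poly.sub | apply NPC.Poly.mul | apply NPC.Poly.div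
          | apply NPC.Poly.mod | apply NPC.Poly.decide_and | apply NPC.Poly.decide_or
          | apply NPC.Poly.decide_not | apply NPC.Poly.decide_lt | apply NPC.Poly.decide_le
          | apply NPC.Poly.decide_eq | apply NPC.Poly.decide_mem | apply NPC.Poly.ite
          | apply NPC.Poly.cond | apply NPC.Poly.some | apply NPC.Poly.getD
          | apply NPC.UPoly.range | apply NPC.UPoly.const | apply NPC.UPoly.add
          | apply NPC.UPoly.mul | apply NPC.UPoly.length | apply NPC.Poly.pair))
  have hr1 := poly_ref hn' hi (NPC.Poly.fst hg) hj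
  have hr2 := poly_ref hn' hi (NPC.Poly.snd hg) hj
  have ho : NPC.Poly fun p : (Circ × Circ) × Var =>
      (circ p.1 p.2.2.1).2.getD p.2.2.2 0 := by repeat' (beta_reduce; with_reducible_and_instances (first
          | assumption | exact NPC.Poly.const _ | exact NPC.Poly.id | apply NPC.Poly.fst
          | apply NPC.Poly.snd | apply NPC.Poly.cons | apply NPC.Poly.append | apply NPC.Poly.map
          | apply NPC.Poly.flatMap | apply NPC.Poly.filter | apply NPC.Poly.length
          | apply NPC.Poly.range_length | apply NPC.Poly.zipIdx | apply NPC.Poly.zip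
          | apply NPC.Poly.add | apply NPC.Poly.sub | apply NPC.Poly.mul | apply NPC.Poly.div
          | apply NPC.Poly.mod | apply NPC.Poly.decide_and | apply NPC.Poly.decide_or
          | apply NPC.Poly.decide_not | apply NPC.Poly.decide_lt | apply NPC.Poly.decide_le
          | apply NPC.Poly.decide_eq | apply NPC.Poly.decide_mem | apply NPC.Poly.ite
          | apply NPC.Poly.cond | apply NPC.Poly.some | apply NPC.Poly.getD
          | apply NPC.UPoly.range | apply NPC.UPoly.const | apply NPC.UPoly.add
          | apply NPC.UPoly.mul | apply NPC.UPoly.length | apply NPC.Poly.pair))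
  have hr3 := poly_ref hn' hi ho (NPC.Poly.length (NPC.Poly.fst hc))
  have hi2 : NPC.Poly fun p : (Circ × Circ) × Var => p.2.2.1 / 2 := by repeat' (beta_reduce; with_reducible_and_instances (first
      | assumption | exact NPC.Poly.const _ | exact NPC.Poly.id | apply NPC.Poly.fst
      | apply NPC.Poly.snd | apply NPC.Poly.cons | apply NPC.Poly.append | apply NPC.Poly.map
      | apply NPC.Poly.flatMap | apply NPC.Poly.filter | apply NPC.Poly.length
      | apply NPC.Poly.range_length | apply NPC.Poly.zipIdx | apply NPC.Poly.zip
      | apply NPC.Poly.add | apply NPC.Poly.sub | apply NPC.Poly.mul | apply NPC.Poly.div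
      | apply NPC.Poly.mod | apply NPC.Poly.decide_and | apply NPC.Poly.decide_or
      | apply NPC.Poly.decide_not | apply NPC.Poly.decide_lt | apply NPC.Poly.decide_le
      | apply NPC.Poly.decide_eq | apply NPC.Poly.decide_mem | apply NPC.Poly.ite
      | apply NPC.Poly.cond | apply NPC.Poly.some | apply NPC.Poly.getD | apply NPC.UPoly.range
      | apply NPC.UPoly.const | apply NPC.UPoly.add | apply NPC.UPoly.mul | apply NPC.UPoly.length
      | apply NPC.Poly.pair))
  have hpA := poly_prA hn' hi2 hj
  have hpB := poly_prB hn' hi2 hj
  have hxa := hX1 12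
  have hxb := hX1 13
  have hxc := hX2 11
  have hxd := hX2 10
  unfold eqn vTP vTM vFM vGM vEP vEM vA1 vA2 vB1 vB2 vQ
  have hvR := poly_vR hi
  have hvY := poly_vY hi
  have hvD := poly_vD hi
  repeat' (beta_reduce; with_reducible_and_instances (first
    | assumption | exact NPC.Poly.const _ | exact NPC.Poly.id | apply NPC.Poly.fst
    | apply NPC.Poly.snd | apply NPC.Poly.cons | apply NPC.Poly.append | apply NPC.Poly.map
    | apply NPC.Poly.flatMap | apply NPC.Poly.filter | apply NPC.Poly.length
    | apply NPC.Poly.range_length | apply NPC.Poly.zipIdx | apply NPC.Poly.zip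
    | apply NPC.Poly.add | apply NPC.Poly.sub | apply NPC.Poly.mul | apply NPC.Poly.div
    | apply NPC.Poly.mod | apply NPC.Poly.decide_and | apply NPC.Poly.decide_or
    | apply NPC.Poly.decide_not | apply NPC.Poly.decide_lt | apply NPC.Poly.decide_le
    | apply NPC.Poly.decide_eq | apply NPC.Poly.decide_mem | apply NPC.Poly.ite
    | apply NPC.Poly.cond | apply NPC.Poly.some | apply NPC.Poly.getD | apply NPC.UPoly.range
    | apply NPC.UPoly.const | apply NPC.UPoly.add | apply NPC.UPoly.mul | apply NPC.UPoly.length
    | apply NPC.Poly.pair))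

theorem upoly_bd : UPoly bd := by
  unfold bd eolN
  repeat' (beta_reduce; with_reducible_and_instances (first
    | assumption | exact NPC.Poly.const _ | exact NPC.Poly.id | apply NPC.Poly.fst
    | apply NPC.Poly.snd | apply NPC.Poly.cons | apply NPC.Poly.append | apply NPC.Poly.map
    | apply NPC.Poly.flatMap | apply NPC.Poly.filter | apply NPC.Poly.length
    | apply NPC.Poly.range_length | apply NPC.Poly.zipIdx | apply NPC.Poly.zip
    | apply NPC.Poly.add | apply NPC.Poly.sub | apply NPC.Poly.mul | apply NPC.Poly.div
    | apply NPC.Poly.mod | apply NPC.Poly.decide_and | apply NPC.Poly.decide_or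
    | apply NPC.Poly.decide_not | apply NPC.Poly.decide_lt | apply NPC.Poly.decide_le
    | apply NPC.Poly.decide_eq | apply NPC.Poly.decide_mem | apply NPC.Poly.ite
    | apply NPC.Poly.cond | apply NPC.Poly.some | apply NPC.Poly.getD | apply NPC.UPoly.range
    | apply NPC.UPoly.const | apply NPC.UPoly.add | apply NPC.UPoly.mul | apply NPC.UPoly.length
    | apply NPC.Poly.pair))

theorem poly_keys : NPC.Poly keys := by
  unfold keys
  have h := upoly_bd
  have h1 : NPC.Poly fun I : Circ × Circ => List.range (bd I) := h.range
  refine NPC.Poly.flatMap (NPC.Poly.const _) ?_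
  have h2 : NPC.Poly fun p : (Circ × Circ) × ℕ => List.range (bd p.1) := h1.comp (by repeat' (beta_reduce; with_reducible_and_instances (first
      | assumption | exact NPC.Poly.const _ | exact NPC.Poly.id | apply NPC.Poly.fst
      | apply NPC.Poly.snd | apply NPC.Poly.cons | apply NPC.Poly.append | apply NPC.Poly.map
      | apply NPC.Poly.flatMap | apply NPC.Poly.filter | apply NPC.Poly.length
      | apply NPC.Poly.range_length | apply NPC.Poly.zipIdx | apply NPC.Poly.zip
      | apply NPC.Poly.add | apply NPC.Poly.sub | apply NPC.Poly.mul | apply NPC.Poly.div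
      | apply NPC.Poly.mod | apply NPC.Poly.decide_and | apply NPC.Poly.decide_or
      | apply NPC.Poly.decide_not | apply NPC.Poly.decide_lt | apply NPC.Poly.decide_le
      | apply NPC.Poly.decide_eq | apply NPC.Poly.decide_mem | apply NPC.Poly.ite
      | apply NPC.Poly.cond | apply NPC.Poly.some | apply NPC.Poly.getD | apply NPC.UPoly.range
      | apply NPC.UPoly.const | apply NPC.UPoly.add | apply NPC.UPoly.mul | apply NPC.UPoly.length
      | apply NPC.Poly.pair)))
  refine NPC.Poly.flatMap h2 ?_
  have h3 : NPC.Poly fun p : ((Circ × Circ) × ℕ) × ℕ => List.range (bd p.1.1) :=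
    h1.comp (f := fun p : ((Circ × Circ) × ℕ) × ℕ => p.1.1) (by repeat' (beta_reduce; with_reducible_and_instances (first
        | assumption | exact NPC.Poly.const _ | exact NPC.Poly.id | apply NPC.Poly.fst
        | apply NPC.Poly.snd | apply NPC.Poly.cons | apply NPC.Poly.append | apply NPC.Poly.map
        | apply NPC.Poly.flatMap | apply NPC.Poly.filter | apply NPC.Poly.length
        | apply NPC.Poly.range_length | apply NPC.Poly.zipIdx | apply NPC.Poly.zip
        | apply NPC.Poly.add | apply NPC.Poly.sub | apply NPC.Poly.mul | apply NPC.Poly.div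
        | apply NPC.Poly.mod | apply NPC.Poly.decide_and | apply NPC.Poly.decide_or
        | apply NPC.Poly.decide_not | apply NPC.Poly.decide_lt | apply NPC.Poly.decide_le
        | apply NPC.Poly.decide_eq | apply NPC.Poly.decide_mem | apply NPC.Poly.ite
        | apply NPC.Poly.cond | apply NPC.Poly.some | apply NPC.Poly.getD | apply NPC.UPoly.range
        | apply NPC.UPoly.const | apply NPC.UPoly.add | apply NPC.UPoly.mul
        | apply NPC.UPoly.length | apply NPC.Poly.pair)))
  refine NPC.Poly.map h3 ?_
  repeat' (beta_reduce; with_reducible_and_instances (first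
    | assumption | exact NPC.Poly.const _ | exact NPC.Poly.id | apply NPC.Poly.fst
    | apply NPC.Poly.snd | apply NPC.Poly.cons | apply NPC.Poly.append | apply NPC.Poly.map
    | apply NPC.Poly.flatMap | apply NPC.Poly.filter | apply NPC.Poly.length
    | apply NPC.Poly.range_length | apply NPC.Poly.zipIdx | apply NPC.Poly.zip
    | apply NPC.Poly.add | apply NPC.Poly.sub | apply NPC.Poly.mul | apply NPC.Poly.div
    | apply NPC.Poly.mod | apply NPC.Poly.decide_and | apply NPC.Poly.decide_or
    | apply NPC.Poly.decide_not | apply NPC.Poly.decide_lt | apply NPC.Poly.decide_le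
    | apply NPC.Poly.decide_eq | apply NPC.Poly.decide_mem | apply NPC.Poly.ite
    | apply NPC.Poly.cond | apply NPC.Poly.some | apply NPC.Poly.getD | apply NPC.UPoly.range
    | apply NPC.UPoly.const | apply NPC.UPoly.add | apply NPC.UPoly.mul | apply NPC.UPoly.length
    | apply NPC.Poly.pair))

theorem poly_sys : NPC.Poly sys := by
  unfold sys
  refine NPC.Poly.map poly_keys ?_
  exact NPC.Poly.pair (by repeat' (beta_reduce; with_reducible_and_instances (first
      | assumption | exact NPC.Poly.const _ | exact NPC.Poly.id | apply NPC.Poly.fst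
      | apply NPC.Poly.snd | apply NPC.Poly.cons | apply NPC.Poly.append | apply NPC.Poly.map
      | apply NPC.Poly.flatMap | apply NPC.Poly.filter | apply NPC.Poly.length
      | apply NPC.Poly.range_length | apply NPC.Poly.zipIdx | apply NPC.Poly.zip
      | apply NPC.Poly.add | apply NPC.Poly.sub | apply NPC.Poly.mul | apply NPC.Poly.div
      | apply NPC.Poly.mod | apply NPC.Poly.decide_and | apply NPC.Poly.decide_or
      | apply NPC.Poly.decide_not | apply NPC.Poly.decide_lt | apply NPC.Poly.decide_le
      | apply NPC.Poly.decide_eq | apply NPC.Poly.decide_mem | apply NPC.Poly.ite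
      | apply NPC.Poly.cond | apply NPC.Poly.some | apply NPC.Poly.getD | apply NPC.UPoly.range
      | apply NPC.UPoly.const | apply NPC.UPoly.add | apply NPC.UPoly.mul | apply NPC.UPoly.length
      | apply NPC.Poly.pair))) poly_eqn

theorem poly_le_half : NPC.Poly fun q : ℚ => decide ((1 / 2 : ℚ) ≤ q) := by
  have hnum : NPC.Poly fun q : ℚ => q.num := NPC.Poly.of_toT (NPC.Poly.hd (f := fun q => toT q)
    (NPC.Poly.id (α := ℚ)).toT')
  have hden : NPC.Poly fun q : ℚ => q.den := NPC.Poly.of_toT (NPC.Poly.tl (f := fun q => toT q)
    (NPC.Poly.id (α := ℚ)).toT')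
  have hneg : NPC.Poly fun z : ℤ => decide (z < 0) := NPC.Poly.of_toT
    (NPC.Poly.hd (f := fun q => toT q) (NPC.Poly.id (α := ℤ)).toT')
  have habs : NPC.Poly fun z : ℤ => z.natAbs := NPC.Poly.of_toT
    (NPC.Poly.tl (f := fun q => toT q) (NPC.Poly.id (α := ℤ)).toT')
  have h1 : NPC.Poly fun q : ℚ => !(decide (q.num < 0)) && decide (q.den ≤ 2 * q.num.natAbs) :=
    NPC.Poly.and (NPC.Poly.not (hneg.comp hnum)) (NPC.Poly.decide_le hden
      (NPC.Poly.mul (NPC.Poly.const 2) (habs.comp hnum)))
  refine h1.congr fun q => ?_
  have hd : (0 : ℚ) < q.den := by exact_mod_cast q.den_pos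
  have hq : q = q.num / q.den := (Rat.num_div_den q).symm
  by_cases hn : q.num < 0
  · have : ¬ (1 / 2 : ℚ) ≤ q := by
      have := Rat.num_neg.1 hn
      intro h
      linarith
    rw [decide_eq_false this]
    simp [hn]
  · have h2 : (q.num.natAbs : ℤ) = q.num := Int.natAbs_of_nonneg (by omega)
    have h3 : (1 / 2 : ℚ) ≤ q ↔ q.den ≤ 2 * q.num.natAbs := by
      conv_lhs => rw [hq]
      rw [div_le_div_iff₀ (by norm_num) hd]
      constructor
      · intro h
        have h4 : (q.den : ℤ) ≤ 2 * q.num := by
          have : (q.den : ℚ) ≤ 2 * q.num := by linarith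
          exact_mod_cast this
        omega
      · intro h
        have h4 : (q.den : ℤ) ≤ 2 * q.num := by omega
        have : (q.den : ℚ) ≤ 2 * q.num := by exact_mod_cast h4
        linarith
    simp only [hn, h3, decide_false, Bool.not_false, Bool.true_and]

theorem poly_val {y : α → List (Var × ℚ)} {v : α → Var} (hy : NPC.Poly y) (hv : NPC.Poly v) :
    NPC.Poly fun a => val (y a) (v a) := by
  unfold val
  have h1 : NPC.Poly fun a => (y a).filter (fun p => decide (p.1 = v a)) := by
    refine NPC.Poly.filter hy ?_
    have hv' : NPC.Poly fun p : α × (Var × ℚ) => v p.1 := hv.comp (by repeat' (beta_reduce; with_reducible_and_instances (first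
        | assumption | exact NPC.Poly.const _ | exact NPC.Poly.id | apply NPC.Poly.fst
        | apply NPC.Poly.snd | apply NPC.Poly.cons | apply NPC.Poly.append | apply NPC.Poly.map
        | apply NPC.Poly.flatMap | apply NPC.Poly.filter | apply NPC.Poly.length
        | apply NPC.Poly.range_length | apply NPC.Poly.zipIdx | apply NPC.Poly.zip
        | apply NPC.Poly.add | apply NPC.Poly.sub | apply NPC.Poly.mul | apply NPC.Poly.div
        | apply NPC.Poly.mod | apply NPC.Poly.decide_and | apply NPC.Poly.decide_or
        | apply NPC.Poly.decide_not | apply NPC.Poly.decide_lt | apply NPC.Poly.decide_le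
        | apply NPC.Poly.decide_eq | apply NPC.Poly.decide_mem | apply NPC.Poly.ite
        | apply NPC.Poly.cond | apply NPC.Poly.some | apply NPC.Poly.getD | apply NPC.UPoly.range
        | apply NPC.UPoly.const | apply NPC.UPoly.add | apply NPC.UPoly.mul
        | apply NPC.UPoly.length | apply NPC.Poly.pair)))
    repeat' (beta_reduce; with_reducible_and_instances (first
      | assumption | exact NPC.Poly.const _ | exact NPC.Poly.id | apply NPC.Poly.fst
      | apply NPC.Poly.snd | apply NPC.Poly.cons | apply NPC.Poly.append | apply NPC.Poly.map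
      | apply NPC.Poly.flatMap | apply NPC.Poly.filter | apply NPC.Poly.length
      | apply NPC.Poly.range_length | apply NPC.Poly.zipIdx | apply NPC.Poly.zip
      | apply NPC.Poly.add | apply NPC.Poly.sub | apply NPC.Poly.mul | apply NPC.Poly.div
      | apply NPC.Poly.mod | apply NPC.Poly.decide_and | apply NPC.Poly.decide_or
      | apply NPC.Poly.decide_not | apply NPC.Poly.decide_lt | apply NPC.Poly.decide_le
      | apply NPC.Poly.decide_eq | apply NPC.Poly.decide_mem | apply NPC.Poly.ite
      | apply NPC.Poly.cond | apply NPC.Poly.some | apply NPC.Poly.getD | apply NPC.UPoly.range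
      | apply NPC.UPoly.const | apply NPC.UPoly.add | apply NPC.UPoly.mul | apply NPC.UPoly.length
      | apply NPC.Poly.pair))
  have h2 : NPC.Poly fun a => (((y a).filter (fun p => decide (p.1 = v a))).head?.map
      Prod.snd).getD 0 := by
    refine (NPC.Poly.optCases (g := fun _ => (0 : ℚ)) (h := fun _ b => b.2) (NPC.Poly.head? h1)
      (NPC.Poly.const _) (by repeat' (beta_reduce; with_reducible_and_instances (first
          | assumption | exact NPC.Poly.const _ | exact NPC.Poly.id | apply NPC.Poly.fst
          | apply NPC.Poly.snd | apply NPC.Poly.cons | apply NPC.Poly.append | apply NPC.Poly.map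
          | apply NPC.Poly.flatMap | apply NPC.Poly.filter | apply NPC.Poly.length
          | apply NPC.Poly.range_length | apply NPC.Poly.zipIdx | apply NPC.Poly.zip
          | apply NPC.Poly.add | apply NPC.Poly.sub | apply NPC.Poly.mul | apply NPC.Poly.div
          | apply NPC.Poly.mod | apply NPC.Poly.decide_and | apply NPC.Poly.decide_or
          | apply NPC.Poly.decide_not | apply NPC.Poly.decide_lt | apply NPC.Poly.decide_le
          | apply NPC.Poly.decide_eq | apply NPC.Poly.decide_mem | apply NPC.Poly.ite
          | apply NPC.Poly.cond | apply NPC.Poly.some | apply NPC.Poly.getD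
          | apply NPC.UPoly.range | apply NPC.UPoly.const | apply NPC.UPoly.add
          | apply NPC.UPoly.mul | apply NPC.UPoly.length | apply NPC.Poly.pair)))).congr fun a => ?_
    cases ((y a).filter (fun p => decide (p.1 = v a))).head? <;> rfl
  repeat' (beta_reduce; with_reducible_and_instances (first
    | assumption | exact NPC.Poly.const _ | exact NPC.Poly.id | apply NPC.Poly.fst
    | apply NPC.Poly.snd | apply NPC.Poly.cons | apply NPC.Poly.append | apply NPC.Poly.map
    | apply NPC.Poly.flatMap | apply NPC.Poly.filter | apply NPC.Poly.length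
    | apply NPC.Poly.range_length | apply NPC.Poly.zipIdx | apply NPC.Poly.zip
    | apply NPC.Poly.add | apply NPC.Poly.sub | apply NPC.Poly.mul | apply NPC.Poly.div
    | apply NPC.Poly.mod | apply NPC.Poly.decide_and | apply NPC.Poly.decide_or
    | apply NPC.Poly.decide_not | apply NPC.Poly.decide_lt | apply NPC.Poly.decide_le
    | apply NPC.Poly.decide_eq | apply NPC.Poly.decide_mem | apply NPC.Poly.ite
    | apply NPC.Poly.cond | apply NPC.Poly.some | apply NPC.Poly.getD | apply NPC.UPoly.range
    | apply NPC.UPoly.const | apply NPC.UPoly.add | apply NPC.UPoly.mul | apply NPC.UPoly.length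
    | apply NPC.Poly.pair))

theorem poly_answer : NPC.Poly fun p : (Circ × Circ) × List (Var × ℚ) => answer p.1 p.2 := by
  unfold answer
  have hn : UPoly fun p : (Circ × Circ) × List (Var × ℚ) => eolN p.1 :=
    upoly_n (by repeat' (beta_reduce; with_reducible_and_instances (first
        | assumption | exact NPC.Poly.const _ | exact NPC.Poly.id | apply NPC.Poly.fst
        | apply NPC.Poly.snd | apply NPC.Poly.cons | apply NPC.Poly.append | apply NPC.Poly.map
        | apply NPC.Poly.flatMap | apply NPC.Poly.filter | apply NPC.Poly.length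
        | apply NPC.Poly.range_length | apply NPC.Poly.zipIdx | apply NPC.Poly.zip
        | apply NPC.Poly.add | apply NPC.Poly.sub | apply NPC.Poly.mul | apply NPC.Poly.div
        | apply NPC.Poly.mod | apply NPC.Poly.decide_and | apply NPC.Poly.decide_or
        | apply NPC.Poly.decide_not | apply NPC.Poly.decide_lt | apply NPC.Poly.decide_le
        | apply NPC.Poly.decide_eq | apply NPC.Poly.decide_mem | apply NPC.Poly.ite
        | apply NPC.Poly.cond | apply NPC.Poly.some | apply NPC.Poly.getD | apply NPC.UPoly.range
        | apply NPC.UPoly.const | apply NPC.UPoly.add | apply NPC.UPoly.mul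
        | apply NPC.UPoly.length | apply NPC.Poly.pair)))
  refine NPC.Poly.map hn.range ?_
  exact poly_le_half.comp (poly_val (by repeat' (beta_reduce; with_reducible_and_instances (first
      | assumption | exact NPC.Poly.const _ | exact NPC.Poly.id | apply NPC.Poly.fst
      | apply NPC.Poly.snd | apply NPC.Poly.cons | apply NPC.Poly.append | apply NPC.Poly.map
      | apply NPC.Poly.flatMap | apply NPC.Poly.filter | apply NPC.Poly.length
      | apply NPC.Poly.range_length | apply NPC.Poly.zipIdx | apply NPC.Poly.zip
      | apply NPC.Poly.add | apply NPC.Poly.sub | apply NPC.Poly.mul | apply NPC.Poly.div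
      | apply NPC.Poly.mod | apply NPC.Poly.decide_and | apply NPC.Poly.decide_or
      | apply NPC.Poly.decide_not | apply NPC.Poly.decide_lt | apply NPC.Poly.decide_le
      | apply NPC.Poly.decide_eq | apply NPC.Poly.decide_mem | apply NPC.Poly.ite
      | apply NPC.Poly.cond | apply NPC.Poly.some | apply NPC.Poly.getD | apply NPC.UPoly.range
      | apply NPC.UPoly.const | apply NPC.UPoly.add | apply NPC.UPoly.mul | apply NPC.UPoly.length
      | apply NPC.Poly.pair))) (poly_vY (by repeat' (beta_reduce; with_reducible_and_instances (first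
      | assumption | exact NPC.Poly.const _ | exact NPC.Poly.id | apply NPC.Poly.fst
      | apply NPC.Poly.snd | apply NPC.Poly.cons | apply NPC.Poly.append | apply NPC.Poly.map
      | apply NPC.Poly.flatMap | apply NPC.Poly.filter | apply NPC.Poly.length
      | apply NPC.Poly.range_length | apply NPC.Poly.zipIdx | apply NPC.Poly.zip
      | apply NPC.Poly.add | apply NPC.Poly.sub | apply NPC.Poly.mul | apply NPC.Poly.div
      | apply NPC.Poly.mod | apply NPC.Poly.decide_and | apply NPC.Poly.decide_or
      | apply NPC.Poly.decide_not | apply NPC.Poly.decide_lt | apply NPC.Poly.decide_le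
      | apply NPC.Poly.decide_eq | apply NPC.Poly.decide_mem | apply NPC.Poly.ite
      | apply NPC.Poly.cond | apply NPC.Poly.some | apply NPC.Poly.getD | apply NPC.UPoly.range
      | apply NPC.UPoly.const | apply NPC.UPoly.add | apply NPC.UPoly.mul | apply NPC.UPoly.length
      | apply NPC.Poly.pair)))))

end Build

end Pool.Agent.H424R2.PPAD
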