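import Pool.Agent.H424R2.PPAD.Build

/-!
# Semantics of circuits
-/

namespace Pool.Agent.H424R2.PPAD

open Pool.Agent.NPC

namespace Circuit

/-- one gate -/
def step (w : List Bool) (g : ℕ × ℕ) : List Bool := w ++ [!(w.getD g.1 false && w.getD g.2 false)]

/-- the wires of a list of gates -/
def F (gs : List (ℕ × ℕ)) (x : List Bool) : List Bool := gs.foldl step x

theorem F_snoc (gs : List (ℕ × ℕ)) (g : ℕ × ℕ) (x : List Bool) :
    F (gs ++ [g]) x = F gs x ++ [!((F gs x).getD g.1 false && (F gs x).getD g.2 false)] := by
  unfold F
  rw [List.foldl_append]
  rfl

theorem F_length (gs : List (ℕ × ℕ)) (x : List Bool) : (F gs x).length = x.length + gs.length := by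
  induction gs using List.reverseRecOn with
  | nil => simp [F]
  | append_singleton gs g ih => rw [F_snoc]; simp [ih]; omega

theorem getD_append_left {l l' : List Bool} {k : ℕ} (h : k < l.length) :
    (l ++ l').getD k false = l.getD k false := by
  simp [List.getD_eq_getElem?_getD, List.getElem?_append_left h]

theorem getD_length {l : List Bool} {b : Bool} : (l ++ [b]).getD l.length false = b := by
  simp [List.getD_eq_getElem?_getD]

theorem getD_ge {l : List Bool} {k : ℕ} (h : l.length ≤ k) : l.getD k false = false := by
  simp [List.getD_eq_getElem?_getD, List.getElem?_eq_none h]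

theorem F_input (gs : List (ℕ × ℕ)) (x : List Bool) {k : ℕ} (hk : k < x.length) :
    (F gs x).getD k false = x.getD k false := by
  induction gs using List.reverseRecOn with
  | nil => rfl
  | append_singleton gs g ih =>
    rw [F_snoc, getD_append_left (by rw [F_length]; omega), ih]

theorem F_gate (gs : List (ℕ × ℕ)) (x : List Bool) {j : ℕ} (hj : j < gs.length) :
    (F gs x).getD (x.length + j) false =
      !((if (gs.getD j (0, 0)).1 < x.length + j then (F gs x).getD (gs.getD j (0, 0)).1 false
          else false) &&
        (if (gs.getD j (0, 0)).2 < x.length + j then (F gs x).getD (gs.getD j (0, 0)).2 false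
          else false)) := by
  induction gs using List.reverseRecOn with
  | nil => simp at hj
  | append_singleton gs g ih =>
    have hlen := F_length gs x
    rw [List.length_append, List.length_singleton] at hj
    rw [F_snoc]
    by_cases hj' : j < gs.length
    · have hg : (gs ++ [g]).getD j (0, 0) = gs.getD j (0, 0) := by
        simp [List.getD_eq_getElem?_getD, List.getElem?_append_left hj']
      rw [getD_append_left (by omega), ih hj', hg]
      congr 1
      congr 1
      · split_ifs with h
        · rw [getD_append_left (by omega)]
        · rfl
      · split_ifs with h
        · rw [getD_append_left (by omega)]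
        · rfl
    · have hjeq : j = gs.length := by omega
      subst hjeq
      have hg : (gs ++ [g]).getD gs.length (0, 0) = g := by
        simp [List.getD_eq_getElem?_getD]
      have e : x.length + gs.length = (F gs x).length := hlen.symm
      rw [hg, e, getD_length]
      congr 1
      congr 1
      · split_ifs with h
        · rw [getD_append_left h]
        · exact getD_ge (by omega)
      · split_ifs with h
        · rw [getD_append_left h]
        · exact getD_ge (by omega)

theorem wires_eq (C : Circ) (x : List Bool) : C.wires x = F C.1 x := rfl

end Circuit

end Pool.Agent.H424R2.PPAD
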