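import Pool.Agent.H424R2.PPAD.Relu

/-!
# Clamp systems and their reduction to panchromatic vertices
-/

namespace Pool.Agent.H424R2.PPAD

open Pool.Agent.NPC Panch Set

/-! ### From vectors to functions on the nodes -/

namespace Relu

variable {ν : Type} [DecidableEq ν] {L : List (ν × List ν)}

theorem exists_fun (h : Good L) (hnd : ∀ p ∈ L, p.2.Nodup) {v : Fin (dim (inputOf L)) → ℝ}
    (hv : IsPanchromatic (inputOf L) v) :
    ∃ X : ν → ℝ, (∀ i, X (nd L i).1 = v i) ∧ (∀ w, w ∉ L.map Prod.fst → X w = 0) ∧
      ∀ p ∈ L, X p.1 = 1 - max 0 (p.2.map X).sum := by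
  classical
  let X : ν → ℝ := fun w => if hw : ∃ i, (nd L i).1 = w then v hw.choose else 0
  have hX : ∀ i, X (nd L i).1 = v i := by
    intro i
    have hw : ∃ j, (nd L j).1 = (nd L i).1 := ⟨i, rfl⟩
    have : hw.choose = i := nd_inj h hw.choose_spec
    simp only [X, dif_pos hw, this]
  have hX0 : ∀ w, w ∉ L.map Prod.fst → X w = 0 := by
    intro w hw
    simp only [X]
    rw [dif_neg]
    rintro ⟨i, rfl⟩
    exact hw (List.mem_map_of_mem (nd_mem L i))
  refine ⟨X, hX, hX0, fun p hp => ?_⟩
  obtain ⟨i, rfl⟩ := exists_idx hp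
  rw [hX, equations h hv i]
  congr 2
  have e1 : ((nd L i).2.map X).sum = ∑ w ∈ (nd L i).2.toFinset, X w := by
    rw [List.sum_toFinset _ (hnd _ (nd_mem L i))]
  rw [e1]
  have e2 : ∑ j ∈ (R L i).erase i, v j =
      ∑ w ∈ ((R L i).erase i).image (fun j => (nd L j).1), X w := by
    rw [Finset.sum_image (fun a _ b _ hab => nd_inj h hab)]
    exact Finset.sum_congr rfl fun j _ => (hX j).symm
  rw [e2]
  refine Finset.sum_subset ?_ ?_
  · intro w hw
    rw [Finset.mem_image] at hw
    obtain ⟨j, hj, rfl⟩ := hw
    rw [Finset.mem_erase] at hj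
    simp only [R, Finset.mem_filter, Finset.mem_univ, true_and] at hj
    rcases hj.2 with h2 | h2
    · exact absurd (nd_inj h h2) hj.1
    · exact List.mem_toFinset.2 h2
  · intro w hw hw2
    apply hX0
    intro hw3
    obtain ⟨q, hq, rfl⟩ := List.mem_map.1 hw3
    obtain ⟨j, rfl⟩ := exists_idx hq
    apply hw2
    rw [Finset.mem_image]
    refine ⟨j, ?_, rfl⟩
    rw [List.mem_toFinset] at hw
    rw [Finset.mem_erase]
    refine ⟨?_, by simp [R, hw]⟩
    rintro rfl
    exact not_self h _ hw

end Relu

/-! ### Clamp systems -/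

/-- Names of variables. -/
abbrev Var := ℕ × ℕ × ℕ

/-- The name of the constant `1`. -/
def one : Var := (0, 0, 0)

/-- A clamp system: a list of equations `x_v = min(1, max(0, ∑_{w ∈ pos} x_w - ∑_{w ∈ neg} x_w))`,
each given by the variable `v` and the lists `pos` and `neg` of variables (with multiplicities).
The variable `one` has the value `1`, and variables without equation have the value `0`. -/
abbrev Sys := List (Var × List Var × List Var)

/-- The value of a variable under an assignment given as an association list. -/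
def val (y : List (Var × ℚ)) (v : Var) : ℚ :=
  if v = one then 1 else ((y.filter fun p => decide (p.1 = v)).head?.map Prod.snd).getD 0

/-- The search problem: find a solution of a clamp system. -/
def ClampProblem : SearchProblem where
  Inst := Sys
  Sol := List (Var × ℚ)
  encInst := inferInstance
  encSol := inferInstance
  Valid S := (S.map Prod.fst).Nodup ∧ one ∉ S.map Prod.fst
  IsSol S y := (∀ v, v ≠ one → v ∉ S.map Prod.fst → val y v = 0) ∧ ∀ e ∈ S,
    val y e.1 = max 0 (min 1 ((e.2.1.map (val y)).sum - (e.2.2.map (val y)).sum))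

namespace Clamp

/-- The nodes of the digraph: kind, variable, index. -/
abbrev Node := ℕ × Var × ℕ

/-- The global nodes. -/
def gl (k : ℕ) : Node := (9 + k, (0, 0, 0), 0)

/-- The node carrying the value of a variable. -/
def nodeOf (w : Var) : Node := if w = one then gl 4 else (0, w, 0)

/-- The global equations. -/
def globals : List (Node × List Node) :=
  [(gl 0, [gl 2]), (gl 1, [gl 0]), (gl 2, [gl 1]), (gl 3, [gl 0, gl 1]), (gl 4, [gl 3])]

/-- the main part of a block -/
def blk0 (e : Var × List Var × List Var) : List (Node × List Node) :=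
  [((0, e.1, 0), [(4, e.1, 0)]),
   ((4, e.1, 0), gl 3 :: ((List.range e.2.1.length).map (fun t => ((2, e.1, t) : Node)) ++
      (List.range e.2.2.length).map (fun t => ((8, e.1, t) : Node))))]

def blk1 (v : Var) (pos : List Var) : List (Node × List Node) :=
  pos.zipIdx.map fun p => ((1, v, p.2), [nodeOf p.1, gl 3])

def blk2 (v : Var) (pos : List Var) : List (Node × List Node) :=
  pos.zipIdx.map fun p => ((2, v, p.2), [(1, v, p.2)])

def blk3 (v : Var) (pos : List Var) : List (Node × List Node) :=
  pos.zipIdx.map fun p => ((3, v, p.2), [nodeOf p.1, gl 3])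

def blk7 (v : Var) (pos : List Var) : List (Node × List Node) :=
  pos.zipIdx.map fun p => ((7, v, p.2), [(3, v, p.2)])

def blk8 (v : Var) (pos : List Var) : List (Node × List Node) :=
  pos.zipIdx.map fun p => ((8, v, p.2), [(7, v, p.2), gl 4])

/-- The nodes simulating one equation. -/
def block (e : Var × List Var × List Var) : List (Node × List Node) :=
  blk0 e ++ (blk1 e.1 e.2.1 ++ (blk2 e.1 e.2.1 ++ (blk3 e.1 e.2.2 ++ (blk7 e.1 e.2.2 ++
    blk8 e.1 e.2.2))))

/-- The digraph of a system. -/
def flat (S : Sys) : List (Node × List Node) := globals ++ S.flatMap block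

/-- the pairs of kinds that can be joined -/
def allowed : List (ℕ × ℕ) :=
  [(0, 4), (4, 12), (4, 2), (4, 8), (1, 0), (1, 13), (1, 12), (2, 1), (3, 0), (3, 13), (3, 12),
   (7, 3), (8, 7), (8, 13), (9, 11), (10, 9), (11, 10), (12, 9), (12, 10), (13, 12)]

theorem allowed_asymm : ∀ p ∈ allowed, (p.2, p.1) ∉ allowed := by decide

theorem nodeOf_kind (w : Var) : (nodeOf w).1 = 0 ∨ (nodeOf w).1 = 13 := by
  unfold nodeOf gl
  split_ifs <;> simp

theorem mem_zipIdx {w : Var} {t : ℕ} {l : List Var} (h : (w, t) ∈ l.zipIdx) :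
    t < l.length ∧ l.getD t one = w := by
  have h2 := List.mem_zipIdx h
  simp only [Nat.zero_le, Nat.zero_add, true_and, Nat.sub_zero] at h2
  refine ⟨h2.1, ?_⟩
  rw [List.getD_eq_getElem _ _ h2.1]
  exact h2.2.symm

theorem kind_ok {S : Sys} {p : Node × List Node} (hp : p ∈ flat S) {w : Node} (hw : w ∈ p.2) :
    (p.1.1, w.1) ∈ allowed := by
  rw [flat, List.mem_append] at hp
  rcases hp with hp | hp
  · simp only [globals, List.mem_cons, List.not_mem_nil, or_false] at hp
    rcases hp with rfl | rfl | rfl | rfl | rfl <;> simp [gl] at hw <;>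
      (try rcases hw with rfl | rfl) <;> decide
  · rw [List.mem_flatMap] at hp
    obtain ⟨e, -, hp⟩ := hp
    simp only [block, List.mem_append] at hp
    rcases hp with hp | hp | hp | hp | hp | hp
    · simp only [blk0, List.mem_cons, List.not_mem_nil, or_false] at hp
      rcases hp with rfl | rfl
      · simp only [List.mem_cons, List.not_mem_nil, or_false] at hw
        subst hw
        change (0, 4) ∈ allowed; decide
      · simp only [List.mem_cons, List.mem_append, List.mem_map] at hw
        rcases hw with rfl | ⟨t, _, rfl⟩ | ⟨t, _, rfl⟩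
        · change (4, 12) ∈ allowed; decide
        · change (4, 2) ∈ allowed; decide
        · change (4, 8) ∈ allowed; decide
    · simp only [blk1, List.mem_map] at hp
      obtain ⟨q, _, rfl⟩ := hp
      simp only [List.mem_cons, List.not_mem_nil, or_false] at hw
      rcases hw with rfl | rfl
      · rcases nodeOf_kind q.1 with h | h <;> rw [h] <;> (simp only; decide)
      · change (1, 12) ∈ allowed; decide
    · simp only [blk2, List.mem_map] at hp
      obtain ⟨q, _, rfl⟩ := hp
      simp only [List.mem_cons, List.not_mem_nil, or_false] at hw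
      subst hw
      change (2, 1) ∈ allowed; decide
    · simp only [blk3, List.mem_map] at hp
      obtain ⟨q, _, rfl⟩ := hp
      simp only [List.mem_cons, List.not_mem_nil, or_false] at hw
      rcases hw with rfl | rfl
      · rcases nodeOf_kind q.1 with h | h <;> rw [h] <;> (simp only; decide)
      · change (3, 12) ∈ allowed; decide
    · simp only [blk7, List.mem_map] at hp
      obtain ⟨q, _, rfl⟩ := hp
      simp only [List.mem_cons, List.not_mem_nil, or_false] at hw
      subst hw
      change (7, 3) ∈ allowed; decide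
    · simp only [blk8, List.mem_map] at hp
      obtain ⟨q, _, rfl⟩ := hp
      simp only [List.mem_cons, List.not_mem_nil, or_false] at hw
      rcases hw with rfl | rfl
      · change (8, 7) ∈ allowed; decide
      · change (8, 13) ∈ allowed; decide

theorem no2 {S : Sys} : ∀ p ∈ flat S, ∀ q ∈ flat S, q.1 ∈ p.2 → p.1 ∉ q.2 := by
  intro p hp q hq h1 h2
  exact allowed_asymm _ (kind_ok hp h1) (kind_ok hq h2)

/-! #### The keys are distinct -/

theorem keys_zip (k : ℕ) (v : Var) (l : List Var) (F : Var × ℕ → List Node) :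
    (l.zipIdx.map fun p => (((k, v, p.2) : Node), F p)).map Prod.fst =
      (List.range l.length).map fun t => ((k, v, t) : Node) := by
  rw [List.map_map]
  have : (Prod.fst ∘ fun p : Var × ℕ => (((k, v, p.2) : Node), F p)) =
      (fun t => ((k, v, t) : Node)) ∘ Prod.snd := rfl
  rw [this, ← List.map_map, List.zipIdx_map_snd, List.range_eq_range']

theorem nodup_range_map (k : ℕ) (v : Var) (n : ℕ) :
    ((List.range n).map fun t => ((k, v, t) : Node)).Nodup := by
  refine List.Nodup.map ?_ List.nodup_range
  intro a b h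
  simpa using h

theorem block_keys (e : Var × List Var × List Var) : (block e).map Prod.fst =
    [(0, e.1, 0), (4, e.1, 0)] ++
    (((List.range e.2.1.length).map fun t => ((1, e.1, t) : Node)) ++
    (((List.range e.2.1.length).map fun t => ((2, e.1, t) : Node)) ++
    (((List.range e.2.2.length).map fun t => ((3, e.1, t) : Node)) ++
    (((List.range e.2.2.length).map fun t => ((7, e.1, t) : Node)) ++
    ((List.range e.2.2.length).map fun t => ((8, e.1, t) : Node)))))) := by
  simp only [block, List.map_append, blk1, blk2, blk3, blk7, blk8, keys_zip]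
  rfl

theorem block_nodup (e : Var × List Var × List Var) : ((block e).map Prod.fst).Nodup := by
  rw [block_keys]
  simp only [List.nodup_append', nodup_range_map, true_and, List.disjoint_left]
  simp

theorem block_key_snd {e : Var × List Var × List Var} {w : Node}
    (h : w ∈ (block e).map Prod.fst) : w.2.1 = e.1 ∧ w.1 < 9 := by
  rw [block_keys] at h
  simp only [List.mem_append, List.mem_map, List.mem_cons, List.not_mem_nil, or_false] at h
  rcases h with (rfl | rfl) | ⟨_, _, rfl⟩ | ⟨_, _, rfl⟩ | ⟨_, _, rfl⟩ | ⟨_, _, rfl⟩ |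
    ⟨_, _, rfl⟩ <;> simp

theorem flat_nodup {S : Sys} (hS : (S.map Prod.fst).Nodup) :
    ((flat S).map Prod.fst).Nodup := by
  rw [flat, List.map_append, List.map_flatMap, List.nodup_append']
  refine ⟨by decide, ?_, ?_⟩
  · rw [List.nodup_flatMap]
    refine ⟨fun e _ => block_nodup e, ?_⟩
    have h1 : S.Pairwise fun a b => a.1 ≠ b.1 := List.pairwise_map.1 hS
    refine h1.imp ?_
    intro a b hab
    rw [Function.onFun, List.disjoint_left]
    intro w hwa hwb
    exact hab ((block_key_snd hwa).1.symm.trans (block_key_snd hwb).1)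
  · rw [List.disjoint_left]
    intro w hw hw2
    rw [List.mem_flatMap] at hw2
    obtain ⟨e, _, he⟩ := hw2
    have := (block_key_snd he).2
    have h9 : 9 ≤ w.1 := by
      revert hw
      simp only [globals, List.map_cons, List.map_nil, List.mem_cons, List.not_mem_nil, or_false,
        gl]
      rintro (rfl | rfl | rfl | rfl | rfl) <;> simp
    omega

theorem out_nodup {S : Sys} : ∀ p ∈ flat S, p.2.Nodup := by
  intro p hp
  rw [flat, List.mem_append] at hp
  have hno : ∀ w : Var, nodeOf w ≠ gl 3 := by
    intro w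
    unfold nodeOf gl
    split_ifs <;> simp
  rcases hp with hp | hp
  · simp only [globals, List.mem_cons, List.not_mem_nil, or_false] at hp
    rcases hp with rfl | rfl | rfl | rfl | rfl <;> decide
  · rw [List.mem_flatMap] at hp
    obtain ⟨e, -, hp⟩ := hp
    simp only [block, List.mem_append] at hp
    rcases hp with hp | hp | hp | hp | hp | hp
    · simp only [blk0, List.mem_cons, List.not_mem_nil, or_false] at hp
      rcases hp with rfl | rfl
      · simp
      · simp only [List.nodup_cons, List.nodup_append', nodup_range_map, true_and,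
          List.disjoint_left]
        simp [gl]
    · simp only [blk1, List.mem_map] at hp
      obtain ⟨q, _, rfl⟩ := hp
      simp [hno]
    · simp only [blk2, List.mem_map] at hp
      obtain ⟨q, _, rfl⟩ := hp
      simp
    · simp only [blk3, List.mem_map] at hp
      obtain ⟨q, _, rfl⟩ := hp
      simp [hno]
    · simp only [blk7, List.mem_map] at hp
      obtain ⟨q, _, rfl⟩ := hp
      simp
    · simp only [blk8, List.mem_map] at hp
      obtain ⟨q, _, rfl⟩ := hp
      simp [gl]

theorem gl_mem {S : Sys} {k : ℕ} (hk : k < 5) : ∃ q ∈ flat S, q.1 = gl k := by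
  have : ∃ q ∈ globals, q.1 = gl k := by
    interval_cases k
    · exact ⟨_, by simp [globals]; left; rfl, rfl⟩
    · exact ⟨(gl 1, [gl 0]), by simp [globals], rfl⟩
    · exact ⟨(gl 2, [gl 1]), by simp [globals], rfl⟩
    · exact ⟨(gl 3, [gl 0, gl 1]), by simp [globals], rfl⟩
    · exact ⟨(gl 4, [gl 3]), by simp [globals], rfl⟩
  obtain ⟨q, hq, h⟩ := this
  exact ⟨q, List.mem_append_left _ hq, h⟩

theorem mem_flat_of_mem_block {S : Sys} {e} (he : e ∈ S) {p} (hp : p ∈ block e) : p ∈ flat S :=
  List.mem_append_right _ (List.mem_flatMap.2 ⟨e, he, hp⟩)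

section Mem

variable {S : Sys} {e : Var × List Var × List Var} (he : e ∈ S)
include he

theorem mem_main : (((0, e.1, 0), [(4, e.1, 0)]) : Node × List Node) ∈ flat S :=
  mem_flat_of_mem_block he (by simp [block, blk0])

theorem mem_sum : (((4, e.1, 0), gl 3 ::
    ((List.range e.2.1.length).map (fun t => ((2, e.1, t) : Node)) ++
      (List.range e.2.2.length).map (fun t => ((8, e.1, t) : Node)))) : Node × List Node)
        ∈ flat S := by
  refine mem_flat_of_mem_block he ?_
  simp only [block, List.mem_append, blk0, List.mem_cons]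
  left; right; left
  trivial

theorem mem1 {q : Var × ℕ} (hq : q ∈ e.2.1.zipIdx) :
    (((1, e.1, q.2), [nodeOf q.1, gl 3]) : Node × List Node) ∈ flat S := by
  refine mem_flat_of_mem_block he ?_
  simp only [block, List.mem_append]
  right; left
  exact List.mem_map.2 ⟨q, hq, rfl⟩

theorem mem2 {q : Var × ℕ} (hq : q ∈ e.2.1.zipIdx) :
    (((2, e.1, q.2), [(1, e.1, q.2)]) : Node × List Node) ∈ flat S := by
  refine mem_flat_of_mem_block he ?_
  simp only [block, List.mem_append]
  right; right; left
  exact List.mem_map.2 ⟨q, hq, rfl⟩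

theorem mem3 {q : Var × ℕ} (hq : q ∈ e.2.2.zipIdx) :
    (((3, e.1, q.2), [nodeOf q.1, gl 3]) : Node × List Node) ∈ flat S := by
  refine mem_flat_of_mem_block he ?_
  simp only [block, List.mem_append]
  right; right; right; left
  exact List.mem_map.2 ⟨q, hq, rfl⟩

theorem mem7 {q : Var × ℕ} (hq : q ∈ e.2.2.zipIdx) :
    (((7, e.1, q.2), [(3, e.1, q.2)]) : Node × List Node) ∈ flat S := by
  refine mem_flat_of_mem_block he ?_
  simp only [block, List.mem_append]
  right; right; right; right; left
  exact List.mem_map.2 ⟨q, hq, rfl⟩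

theorem mem8 {q : Var × ℕ} (hq : q ∈ e.2.2.zipIdx) :
    (((8, e.1, q.2), [(7, e.1, q.2), gl 4]) : Node × List Node) ∈ flat S := by
  refine mem_flat_of_mem_block he ?_
  simp only [block, List.mem_append]
  right; right; right; right; right
  exact List.mem_map.2 ⟨q, hq, rfl⟩

end Mem

theorem out_ne {S : Sys} : ∀ p ∈ flat S, ∃ q ∈ flat S, q.1 ∈ p.2 := by
  intro p hp
  have hg : ∀ k < 5, gl k ∈ p.2 → ∃ q ∈ flat S, q.1 ∈ p.2 := by
    intro k hk h
    obtain ⟨q, hq, h2⟩ := gl_mem (S := S) hk
    exact ⟨q, hq, by rw [h2]; exact h⟩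
  have hp' := hp
  rw [flat, List.mem_append] at hp
  rcases hp with hp | hp
  · simp only [globals, List.mem_cons, List.not_mem_nil, or_false] at hp
    rcases hp with rfl | rfl | rfl | rfl | rfl
    · exact hg 2 (by norm_num) (by simp)
    · exact hg 0 (by norm_num) (by simp)
    · exact hg 1 (by norm_num) (by simp)
    · exact hg 0 (by norm_num) (by simp)
    · exact hg 3 (by norm_num) (by simp)
  · rw [List.mem_flatMap] at hp
    obtain ⟨e, he, hp⟩ := hp
    simp only [block, List.mem_append] at hp
    rcases hp with hp | hp | hp | hp | hp | hp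
    · simp only [blk0, List.mem_cons, List.not_mem_nil, or_false] at hp
      rcases hp with rfl | rfl
      · exact ⟨_, mem_sum he, by simp⟩
      · exact hg 3 (by norm_num) (by simp)
    · simp only [blk1, List.mem_map] at hp
      obtain ⟨q, _, rfl⟩ := hp
      exact hg 3 (by norm_num) (by simp)
    · simp only [blk2, List.mem_map] at hp
      obtain ⟨q, hq, rfl⟩ := hp
      exact ⟨_, mem1 he hq, by simp⟩
    · simp only [blk3, List.mem_map] at hp
      obtain ⟨q, _, rfl⟩ := hp
      exact hg 3 (by norm_num) (by simp)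
    · simp only [blk7, List.mem_map] at hp
      obtain ⟨q, hq, rfl⟩ := hp
      exact ⟨_, mem3 he hq, by simp⟩
    · simp only [blk8, List.mem_map] at hp
      obtain ⟨q, _, rfl⟩ := hp
      exact hg 4 (by norm_num) (by simp)

theorem good {S : Sys} (hS : (S.map Prod.fst).Nodup) : Relu.Good (flat S) where
  pos := by simp [flat, globals]
  nodup := flat_nodup hS
  ne := out_ne
  no2 := no2

/-! #### Correctness -/

section Correct

variable {S : Sys} {X : Node → ℝ} (hX0 : ∀ w, w ∉ (flat S).map Prod.fst → X w = 0)
  (hX : ∀ p ∈ flat S, X p.1 = 1 - max 0 (p.2.map X).sum)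

include hX in
theorem X_le {p} (hp : p ∈ flat S) : X p.1 ≤ 1 := by
  rw [hX p hp]
  have := le_max_left (0 : ℝ) (p.2.map X).sum
  linarith

include hX in
theorem X_gl : X (gl 3) = 0 ∧ X (gl 4) = 1 := by
  have h0 := hX (gl 0, [gl 2]) (by simp [flat, globals])
  have h1 := hX (gl 1, [gl 0]) (by simp [flat, globals])
  have h2 := hX (gl 2, [gl 1]) (by simp [flat, globals])
  have h3 := hX (gl 3, [gl 0, gl 1]) (by simp [flat, globals])
  have h4 := hX (gl 4, [gl 3]) (by simp [flat, globals])
  simp only [List.map_cons, List.map_nil, List.sum_cons, List.sum_nil, add_zero] at h0 h1 h2 h3 h4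
  have l0 : X (gl 0) ≤ 1 := by rw [h0]; have := le_max_left (0 : ℝ) (X (gl 2)); linarith
  have l1 : X (gl 1) ≤ 1 := by rw [h1]; have := le_max_left (0 : ℝ) (X (gl 0)); linarith
  have l2 : X (gl 2) ≤ 1 := by rw [h2]; have := le_max_left (0 : ℝ) (X (gl 1)); linarith
  have n0 : 0 ≤ X (gl 0) := by rw [h0]; have := max_le zero_le_one l2; linarith
  have n1 : 0 ≤ X (gl 1) := by rw [h1]; have := max_le zero_le_one l0; linarith
  have n2 : 0 ≤ X (gl 2) := by rw [h2]; have := max_le zero_le_one l1; linarith
  rw [max_eq_right n2] at h0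
  rw [max_eq_right n0] at h1
  rw [max_eq_right n1] at h2
  have h3' : X (gl 3) = 0 := by
    rw [h3, max_eq_right (by linarith)]
    linarith
  refine ⟨h3', ?_⟩
  rw [h4, h3']
  simp

include hX0 hX in
theorem X_nodeOf (w : Var) : 0 ≤ X (nodeOf w) ∧ X (nodeOf w) ≤ 1 := by
  unfold nodeOf
  split_ifs with h
  · rw [(X_gl hX).2]; simp
  · by_cases hw : ((0, w, 0) : Node) ∈ (flat S).map Prod.fst
    · obtain ⟨p, hp, hp2⟩ := List.mem_map.1 hw
      have hle := X_le hX hp
      rw [hp2] at hle
      refine ⟨?_, hle⟩
      have hp' := hp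
      rw [flat, List.mem_append] at hp
      rcases hp with hp | hp
      · simp only [globals, List.mem_cons, List.not_mem_nil, or_false] at hp
        rcases hp with rfl | rfl | rfl | rfl | rfl <;> simp [gl] at hp2
      · rw [List.mem_flatMap] at hp
        obtain ⟨e, he, hp⟩ := hp
        have hk : e.1 = w := by
          have := (block_key_snd (List.mem_map_of_mem hp)).1
          rw [hp2] at this
          exact this.symm
        subst hk
        have h1 := hX _ (mem_main he)
        have h2 := X_le hX (mem_sum he)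
        simp only [List.map_cons, List.map_nil, List.sum_cons, List.sum_nil, add_zero] at h1 h2
        rw [h1]
        have := max_le zero_le_one h2
        linarith
    · rw [hX0 _ hw]; simp

include hX0 hX in
theorem X_pos {e} (he : e ∈ S) {q : Var × ℕ} (hq : q ∈ e.2.1.zipIdx) :
    X (2, e.1, q.2) = X (nodeOf q.1) := by
  have h1 := hX _ (mem1 he hq)
  have h2 := hX _ (mem2 he hq)
  have h3 := X_nodeOf hX0 hX q.1
  simp only [List.map_cons, List.map_nil, List.sum_cons, List.sum_nil, add_zero,
    (X_gl hX).1] at h1 h2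
  rw [max_eq_right h3.1] at h1
  rw [h2, h1, max_eq_right (by linarith [h3.2])]
  ring

include hX0 hX in
theorem X_neg {e} (he : e ∈ S) {q : Var × ℕ} (hq : q ∈ e.2.2.zipIdx) :
    X (8, e.1, q.2) = - X (nodeOf q.1) := by
  have h1 := hX _ (mem3 he hq)
  have h2 := hX _ (mem7 he hq)
  have h4 := hX _ (mem8 he hq)
  have h3 := X_nodeOf hX0 hX q.1
  simp only [List.map_cons, List.map_nil, List.sum_cons, List.sum_nil, add_zero,
    (X_gl hX).1, (X_gl hX).2] at h1 h2 h4
  rw [max_eq_right h3.1] at h1
  rw [h1, max_eq_right (by linarith [h3.2])] at h2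
  rw [h4, h2, max_eq_right (by linarith [h3.1])]
  ring

theorem sum_range_zip (l : List Var) (f : ℕ → ℝ) (g : Var → ℝ)
    (h : ∀ q ∈ l.zipIdx, f q.2 = g q.1) :
    ((List.range l.length).map f).sum = (l.map g).sum := by
  have e1 : (List.range l.length).map f = l.zipIdx.map fun q => f q.2 := by
    have : (fun q : Var × ℕ => f q.2) = f ∘ Prod.snd := rfl
    rw [this, ← List.map_map, List.zipIdx_map_snd, List.range_eq_range']
  have e2 : l.map g = l.zipIdx.map fun q => g q.1 := by
    have : (fun q : Var × ℕ => g q.1) = g ∘ Prod.fst := rfl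
    rw [this, ← List.map_map, List.zipIdx_map_fst]
  rw [e1, e2, List.map_congr_left h]

include hX0 hX in
theorem X_eqn {e} (he : e ∈ S) : X (0, e.1, 0) =
    max 0 (min 1 ((e.2.1.map fun w => X (nodeOf w)).sum -
      (e.2.2.map fun w => X (nodeOf w)).sum)) := by
  have h1 := hX _ (mem_main he)
  have h2 := hX _ (mem_sum he)
  simp only [List.map_cons, List.map_nil, List.sum_cons, List.sum_nil, add_zero] at h1
  rw [List.map_cons, List.sum_cons, (X_gl hX).1, zero_add, List.map_append, List.sum_append,
    List.map_map, List.map_map] at h2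
  rw [sum_range_zip e.2.1 _ (fun w => X (nodeOf w)) (fun q hq => X_pos hX0 hX he hq),
    sum_range_zip e.2.2 _ (fun w => - X (nodeOf w)) (fun q hq => X_neg hX0 hX he hq)] at h2
  have e3 : (e.2.2.map fun w => - X (nodeOf w)).sum = -(e.2.2.map fun w => X (nodeOf w)).sum := by
    generalize e.2.2 = l
    induction l with
    | nil => simp
    | cons a l ih => simp only [List.map_cons, List.sum_cons, ih]; ring
  rw [e3] at h2
  simp only at h2
  rw [h1, h2]
  generalize (e.2.1.map fun w => X (nodeOf w)).sum = a
  generalize (e.2.2.map fun w => X (nodeOf w)).sum = b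
  rcases le_total (a - b) 0 with h | h
  · rw [max_eq_left (by linarith : a + -b ≤ 0), max_eq_right (by norm_num : (0:ℝ) ≤ 1 - 0),
      min_eq_right (by linarith), max_eq_left h]
    norm_num
  · rw [max_eq_right (by linarith : 0 ≤ a + -b)]
    rcases le_total (a - b) 1 with h' | h'
    · rw [max_eq_right (by linarith), min_eq_right h', max_eq_right h]
      ring
    · rw [max_eq_left (by linarith), min_eq_left h', max_eq_right zero_le_one]
      norm_num

end Correct

/-! #### Reading off a solution -/

theorem val_of_mem {l : List (Var × ℚ)} (hl : (l.map Prod.fst).Nodup) {w : Var} {q : ℚ}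
    (hw : w ≠ one) (h : (w, q) ∈ l) : val l w = q := by
  unfold val
  rw [if_neg hw]
  have : l.filter (fun p => decide (p.1 = w)) = [(w, q)] := by
    induction l with
    | nil => simp at h
    | cons a l ih =>
      rw [List.map_cons, List.nodup_cons] at hl
      rcases List.mem_cons.1 h with h | h
      · subst h
        rw [List.filter_cons_of_pos (by simp)]
        congr 1
        rw [List.filter_eq_nil_iff]
        intro p hp
        simp only [decide_eq_true_eq]
        rintro rfl
        have : p.1 ∈ l.map Prod.fst := List.mem_map_of_mem hp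
        exact hl.1 this
      · rw [List.filter_cons_of_neg, ih hl.2 h]
        simp only [decide_eq_true_eq]
        rintro rfl
        exact hl.1 (List.mem_map.2 ⟨_, h, rfl⟩)
  rw [this]
  rfl

theorem val_of_not_mem {l : List (Var × ℚ)} {w : Var} (hw : w ≠ one)
    (h : w ∉ l.map Prod.fst) : val l w = 0 := by
  unfold val
  rw [if_neg hw]
  have : l.filter (fun p => decide (p.1 = w)) = [] := by
    rw [List.filter_eq_nil_iff]
    intro p hp
    simp only [decide_eq_true_eq]
    rintro rfl
    exact h (List.mem_map_of_mem hp)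
  rw [this]
  rfl

/-- the assignment read off from a vector -/
def readOff (S : Sys) (y : List ℚ) : List (Var × ℚ) :=
  ((((flat S).map Prod.fst).zip y).filter fun p => decide (p.1.1 = 0)).map
    fun p => (p.1.2.1, p.2)

theorem key_kind0 {S : Sys} {k : Node} (hk : k ∈ (flat S).map Prod.fst) (h0 : k.1 = 0) :
    k = (0, k.2.1, 0) ∧ k.2.1 ∈ S.map Prod.fst := by
  rw [flat, List.map_append, List.mem_append, List.map_flatMap] at hk
  rcases hk with hk | hk
  · revert hk
    simp only [globals, List.map_cons, List.map_nil, List.mem_cons, List.not_mem_nil, or_false, gl]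
    rintro (rfl | rfl | rfl | rfl | rfl) <;> simp at h0
  · rw [List.mem_flatMap] at hk
    obtain ⟨e, he, hk⟩ := hk
    rw [block_keys] at hk
    simp only [List.mem_append, List.mem_map, List.mem_cons, List.not_mem_nil, or_false] at hk
    rcases hk with (rfl | rfl) | ⟨_, _, rfl⟩ | ⟨_, _, rfl⟩ | ⟨_, _, rfl⟩ | ⟨_, _, rfl⟩ |
      ⟨_, _, rfl⟩ <;> simp at h0
    exact ⟨rfl, List.mem_map_of_mem he⟩

theorem readOff_keys {S : Sys} {y : List ℚ} (hy : y.length = (flat S).length) :
    (readOff S y).map Prod.fst =
      (((flat S).map Prod.fst).filter fun k => decide (k.1 = 0)).map fun k => k.2.1 := by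
  have h : (((flat S).map Prod.fst).zip y).map Prod.fst = (flat S).map Prod.fst :=
    List.map_fst_zip (by simp [hy])
  unfold readOff
  rw [List.map_map]
  conv_rhs => rw [← h]
  rw [List.filter_map, List.map_map]
  rfl

theorem readOff_nodup {S : Sys} (hS : (S.map Prod.fst).Nodup) {y : List ℚ}
    (hy : y.length = (flat S).length) : ((readOff S y).map Prod.fst).Nodup := by
  rw [readOff_keys hy]
  refine List.Nodup.map_on ?_ ((flat_nodup hS).filter _)
  intro a ha b hb hab
  rw [List.mem_filter] at ha hb
  have h1 := key_kind0 ha.1 (by simpa using ha.2)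
  have h2 := key_kind0 hb.1 (by simpa using hb.2)
  rw [h1.1, h2.1, hab]

theorem val_readOff {S : Sys} (hS : (S.map Prod.fst).Nodup)
    {y : List ℚ} (hy : y.length = dim (Relu.inputOf (flat S))) {X : Node → ℝ}
    (hX : ∀ i, X (Relu.nd (flat S) i).1 = ((y.getD i 0 : ℚ) : ℝ))
    (hX0 : ∀ w, w ∉ (flat S).map Prod.fst → X w = 0)
    (hXe : ∀ p ∈ flat S, X p.1 = 1 - max 0 (p.2.map X).sum) (w : Var) :
    ((val (readOff S y) w : ℚ) : ℝ) = X (nodeOf w) := by
  have hy' : y.length = (flat S).length := by rw [hy, Relu.dim_eq]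
  by_cases hw : w = one
  · subst hw
    simp [val, nodeOf, (X_gl hXe).2]
  have hn : nodeOf w = (0, w, 0) := by simp [nodeOf, hw]
  rw [hn]
  by_cases hk : w ∈ S.map Prod.fst
  · obtain ⟨e, he, rfl⟩ := List.mem_map.1 hk
    obtain ⟨i, hi⟩ := Relu.exists_idx (mem_main he)
    have h1 := hX i
    rw [hi] at h1
    simp only at h1
    rw [h1]
    congr 1
    refine val_of_mem (readOff_nodup hS hy') hw ?_
    unfold readOff
    rw [List.mem_map]
    refine ⟨((0, e.1, 0), y.getD i 0), ?_, rfl⟩
    rw [List.mem_filter]
    refine ⟨?_, by simp⟩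
    have hil : i.1 < (flat S).length := by rw [← Relu.dim_eq]; exact i.2
    rw [List.mem_iff_getElem]
    refine ⟨i.1, by simp [hy', hil], ?_⟩
    rw [List.getElem_zip]
    refine Prod.ext ?_ ?_
    · simp only [List.getElem_map]
      have : (flat S)[i.1] = ((0, e.1, 0), [(4, e.1, 0)]) := hi
      rw [this]
    · simp only
      rw [List.getD_eq_getElem]
  · rw [hX0, val_of_not_mem hw]
    · simp
    · intro h
      rw [readOff_keys hy', List.mem_map] at h
      obtain ⟨k, hk2, rfl⟩ := h
      rw [List.mem_filter] at hk2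
      exact hk (key_kind0 hk2.1 (by simpa using hk2.2)).2
    · intro h
      exact hk (key_kind0 h rfl).2

theorem cast_sum (l : List Var) (f : Var → ℚ) :
    (((l.map f).sum : ℚ) : ℝ) = (l.map fun w => ((f w : ℚ) : ℝ)).sum := by
  induction l with
  | nil => simp
  | cons a l ih => simp [ih]

theorem correct {S : Sys} (hS : ClampProblem.Valid S) :
    Panch.problem.Valid (Relu.inputOf (flat S)) ∧ ∀ y, Panch.problem.IsSol
      (Relu.inputOf (flat S)) y → ClampProblem.IsSol S (readOff S y) := by
  obtain ⟨hS1, hS2⟩ := hS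
  refine ⟨Relu.valid (good hS1), fun y hy => ?_⟩
  obtain ⟨hlen, hpan⟩ := hy
  obtain ⟨X, h1, h2, h3⟩ := Relu.exists_fun (good hS1) out_nodup hpan
  have hval := val_readOff hS1 hlen h1 h2 h3
  constructor
  · intro v hv hv2
    have := hval v
    have hn : nodeOf v = (0, v, 0) := by simp [nodeOf, hv]
    rw [hn, h2 _ (fun h => hv2 (key_kind0 h rfl).2)] at this
    exact_mod_cast this
  · intro e he
    have h4 := X_eqn h2 h3 he
    have hne : e.1 ≠ one := fun h => hS2 (by rw [← h]; exact List.mem_map_of_mem he)
    have hn : nodeOf e.1 = (0, e.1, 0) := by simp [nodeOf, hne]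
    rw [← hn, ← hval] at h4
    simp only [← hval] at h4
    rw [← cast_sum, ← cast_sum] at h4
    exact_mod_cast h4

end Clamp

end Pool.Agent.H424R2.PPAD
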