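import Pool.Agent.H424R2.PPAD.Clamp

/-!
# The reduction from clamp systems to panchromatic vertices is polynomial-time computable
-/

namespace Pool.Agent.H424R2.PPAD

open Pool.Agent.NPC Panch Clamp

namespace Clamp

theorem poly_nodeOf : NPC.Poly nodeOf := by
  unfold nodeOf
  repeat' (beta_reduce; with_reducible_and_instances (first
    | assumption | exact NPC.Poly.const _ | exact NPC.Poly.id | apply NPC.Poly.fst
    | apply NPC.Poly.snd | apply NPC.Poly.cons | apply NPC.Poly.append | apply NPC.Poly.map
    | apply NPC.Poly.flatMap | apply NPC.Poly.filter | apply NPC.Poly.length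
    | apply NPC.Poly.range_length | apply NPC.Poly.zipIdx | apply NPC.Poly.zip
    | apply NPC.Poly.add | apply NPC.Poly.sub | apply NPC.Poly.mul | apply NPC.Poly.div
    | apply NPC.Poly.mod | apply NPC.Poly.decide_and | apply NPC.Poly.decide_or
    | apply NPC.Poly.decide_not | apply NPC.Poly.decide_lt | apply NPC.Poly.decide_le
    | apply NPC.Poly.decide_eq | apply NPC.Poly.decide_mem | apply NPC.Poly.ite
    | apply NPC.Poly.cond | apply NPC.Poly.some | apply NPC.Poly.getD | apply NPC.UPoly.range
    | apply NPC.UPoly.const | apply NPC.UPoly.add | apply NPC.UPoly.mul | apply NPC.UPoly.length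
    | apply NPC.Poly.pair))

theorem poly_blk0 : NPC.Poly blk0 := by
  unfold blk0
  repeat' (beta_reduce; with_reducible_and_instances (first
    | assumption | exact NPC.Poly.const _ | exact NPC.Poly.id | apply NPC.Poly.fst
    | apply NPC.Poly.snd | apply NPC.Poly.cons | apply NPC.Poly.append | apply NPC.Poly.map
    | apply NPC.Poly.flatMap | apply NPC.Poly.filter | apply NPC.Poly.length
    | apply NPC.Poly.range_length | apply NPC.Poly.zipIdx | apply NPC.Poly.zip
    | apply NPC.Poly.add | apply NPC.Poly.sub | apply NPC.Poly.mul | apply NPC.Poly.div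
    | apply NPC.Poly.mod | apply NPC.Poly.decide_and | apply NPC.Poly.decide_or
    | apply NPC.Poly.decide_not | apply NPC.Poly.decide_lt | apply NPC.Poly.decide_le
    | apply NPC.Poly.decide_eq | apply NPC.Poly.decide_mem | apply NPC.Poly.ite
    | apply NPC.Poly.cond | apply NPC.Poly.some | apply NPC.Poly.getD | apply NPC.UPoly.range
    | apply NPC.UPoly.const | apply NPC.UPoly.add | apply NPC.UPoly.mul | apply NPC.UPoly.length
    | apply NPC.Poly.pair))

theorem poly_blk1 : NPC.Poly (fun p : Var × List Var => blk1 p.1 p.2) := by
  unfold blk1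
  have h : NPC.Poly fun p : (Var × List Var) × (Var × ℕ) => nodeOf p.2.1 :=
    poly_nodeOf.comp (f := fun p : (Var × List Var) × (Var × ℕ) => p.2.1) (by repeat' (beta_reduce; with_reducible_and_instances (first
        | assumption | exact NPC.Poly.const _ | exact NPC.Poly.id | apply NPC.Poly.fst
        | apply NPC.Poly.snd | apply NPC.Poly.cons | apply NPC.Poly.append | apply NPC.Poly.map
        | apply NPC.Poly.flatMap | apply NPC.Poly.filter | apply NPC.Poly.length
        | apply NPC.Poly.range_length | apply NPC.Poly.zipIdx | apply NPC.Poly.zip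
        | apply NPC.Poly.add | apply NPC.Poly.sub | apply NPC.Poly.mul | apply NPC.Poly.div
        | apply NPC.Poly.mod | apply NPC.Poly.decide_and | apply NPC.Poly.decide_or
        | apply NPC.Poly.decide_not | apply NPC.Poly.decide_lt | apply NPC.Poly.decide_le
        | apply NPC.Poly.decide_eq | apply NPC.Poly.decide_mem | apply NPC.Poly.ite
        | apply NPC.Poly.cond | apply NPC.Poly.some | apply NPC.Poly.getD | apply NPC.UPoly.range
        | apply NPC.UPoly.const | apply NPC.UPoly.add | apply NPC.UPoly.mul
        | apply NPC.UPoly.length | apply NPC.Poly.pair)))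
  repeat' (beta_reduce; with_reducible_and_instances (first
    | assumption | exact NPC.Poly.const _ | exact NPC.Poly.id | apply NPC.Poly.fst
    | apply NPC.Poly.snd | apply NPC.Poly.cons | apply NPC.Poly.append | apply NPC.Poly.map
    | apply NPC.Poly.flatMap | apply NPC.Poly.filter | apply NPC.Poly.length
    | apply NPC.Poly.range_length | apply NPC.Poly.zipIdx | apply NPC.Poly.zip
    | apply NPC.Poly.add | apply NPC.Poly.sub | apply NPC.Poly.mul | apply NPC.Poly.div
    | apply NPC.Poly.mod | apply NPC.Poly.decide_and | apply NPC.Poly.decide_or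
    | apply NPC.Poly.decide_not | apply NPC.Poly.decide_lt | apply NPC.Poly.decide_le
    | apply NPC.Poly.decide_eq | apply NPC.Poly.decide_mem | apply NPC.Poly.ite
    | apply NPC.Poly.cond | apply NPC.Poly.some | apply NPC.Poly.getD | apply NPC.UPoly.range
    | apply NPC.UPoly.const | apply NPC.UPoly.add | apply NPC.UPoly.mul | apply NPC.UPoly.length
    | apply NPC.Poly.pair))

theorem poly_blk2 : NPC.Poly (fun p : Var × List Var => blk2 p.1 p.2) := by
  unfold blk2
  repeat' (beta_reduce; with_reducible_and_instances (first
    | assumption | exact NPC.Poly.const _ | exact NPC.Poly.id | apply NPC.Poly.fst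
    | apply NPC.Poly.snd | apply NPC.Poly.cons | apply NPC.Poly.append | apply NPC.Poly.map
    | apply NPC.Poly.flatMap | apply NPC.Poly.filter | apply NPC.Poly.length
    | apply NPC.Poly.range_length | apply NPC.Poly.zipIdx | apply NPC.Poly.zip
    | apply NPC.Poly.add | apply NPC.Poly.sub | apply NPC.Poly.mul | apply NPC.Poly.div
    | apply NPC.Poly.mod | apply NPC.Poly.decide_and | apply NPC.Poly.decide_or
    | apply NPC.Poly.decide_not | apply NPC.Poly.decide_lt | apply NPC.Poly.decide_le
    | apply NPC.Poly.decide_eq | apply NPC.Poly.decide_mem | apply NPC.Poly.ite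
    | apply NPC.Poly.cond | apply NPC.Poly.some | apply NPC.Poly.getD | apply NPC.UPoly.range
    | apply NPC.UPoly.const | apply NPC.UPoly.add | apply NPC.UPoly.mul | apply NPC.UPoly.length
    | apply NPC.Poly.pair))

theorem poly_blk3 : NPC.Poly (fun p : Var × List Var => blk3 p.1 p.2) := by
  unfold blk3
  have h : NPC.Poly fun p : (Var × List Var) × (Var × ℕ) => nodeOf p.2.1 :=
    poly_nodeOf.comp (f := fun p : (Var × List Var) × (Var × ℕ) => p.2.1) (by repeat' (beta_reduce; with_reducible_and_instances (first
        | assumption | exact NPC.Poly.const _ | exact NPC.Poly.id | apply NPC.Poly.fst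
        | apply NPC.Poly.snd | apply NPC.Poly.cons | apply NPC.Poly.append | apply NPC.Poly.map
        | apply NPC.Poly.flatMap | apply NPC.Poly.filter | apply NPC.Poly.length
        | apply NPC.Poly.range_length | apply NPC.Poly.zipIdx | apply NPC.Poly.zip
        | apply NPC.Poly.add | apply NPC.Poly.sub | apply NPC.Poly.mul | apply NPC.Poly.div
        | apply NPC.Poly.mod | apply NPC.Poly.decide_and | apply NPC.Poly.decide_or
        | apply NPC.Poly.decide_not | apply NPC.Poly.decide_lt | apply NPC.Poly.decide_le
        | apply NPC.Poly.decide_eq | apply NPC.Poly.decide_mem | apply NPC.Poly.ite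
        | apply NPC.Poly.cond | apply NPC.Poly.some | apply NPC.Poly.getD | apply NPC.UPoly.range
        | apply NPC.UPoly.const | apply NPC.UPoly.add | apply NPC.UPoly.mul
        | apply NPC.UPoly.length | apply NPC.Poly.pair)))
  repeat' (beta_reduce; with_reducible_and_instances (first
    | assumption | exact NPC.Poly.const _ | exact NPC.Poly.id | apply NPC.Poly.fst
    | apply NPC.Poly.snd | apply NPC.Poly.cons | apply NPC.Poly.append | apply NPC.Poly.map
    | apply NPC.Poly.flatMap | apply NPC.Poly.filter | apply NPC.Poly.length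
    | apply NPC.Poly.range_length | apply NPC.Poly.zipIdx | apply NPC.Poly.zip
    | apply NPC.Poly.add | apply NPC.Poly.sub | apply NPC.Poly.mul | apply NPC.Poly.div
    | apply NPC.Poly.mod | apply NPC.Poly.decide_and | apply NPC.Poly.decide_or
    | apply NPC.Poly.decide_not | apply NPC.Poly.decide_lt | apply NPC.Poly.decide_le
    | apply NPC.Poly.decide_eq | apply NPC.Poly.decide_mem | apply NPC.Poly.ite
    | apply NPC.Poly.cond | apply NPC.Poly.some | apply NPC.Poly.getD | apply NPC.UPoly.range
    | apply NPC.UPoly.const | apply NPC.UPoly.add | apply NPC.UPoly.mul | apply NPC.UPoly.length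
    | apply NPC.Poly.pair))

theorem poly_blk7 : NPC.Poly (fun p : Var × List Var => blk7 p.1 p.2) := by
  unfold blk7
  repeat' (beta_reduce; with_reducible_and_instances (first
    | assumption | exact NPC.Poly.const _ | exact NPC.Poly.id | apply NPC.Poly.fst
    | apply NPC.Poly.snd | apply NPC.Poly.cons | apply NPC.Poly.append | apply NPC.Poly.map
    | apply NPC.Poly.flatMap | apply NPC.Poly.filter | apply NPC.Poly.length
    | apply NPC.Poly.range_length | apply NPC.Poly.zipIdx | apply NPC.Poly.zip
    | apply NPC.Poly.add | apply NPC.Poly.sub | apply NPC.Poly.mul | apply NPC.Poly.div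
    | apply NPC.Poly.mod | apply NPC.Poly.decide_and | apply NPC.Poly.decide_or
    | apply NPC.Poly.decide_not | apply NPC.Poly.decide_lt | apply NPC.Poly.decide_le
    | apply NPC.Poly.decide_eq | apply NPC.Poly.decide_mem | apply NPC.Poly.ite
    | apply NPC.Poly.cond | apply NPC.Poly.some | apply NPC.Poly.getD | apply NPC.UPoly.range
    | apply NPC.UPoly.const | apply NPC.UPoly.add | apply NPC.UPoly.mul | apply NPC.UPoly.length
    | apply NPC.Poly.pair))

theorem poly_blk8 : NPC.Poly (fun p : Var × List Var => blk8 p.1 p.2) := by
  unfold blk8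
  repeat' (beta_reduce; with_reducible_and_instances (first
    | assumption | exact NPC.Poly.const _ | exact NPC.Poly.id | apply NPC.Poly.fst
    | apply NPC.Poly.snd | apply NPC.Poly.cons | apply NPC.Poly.append | apply NPC.Poly.map
    | apply NPC.Poly.flatMap | apply NPC.Poly.filter | apply NPC.Poly.length
    | apply NPC.Poly.range_length | apply NPC.Poly.zipIdx | apply NPC.Poly.zip
    | apply NPC.Poly.add | apply NPC.Poly.sub | apply NPC.Poly.mul | apply NPC.Poly.div
    | apply NPC.Poly.mod | apply NPC.Poly.decide_and | apply NPC.Poly.decide_or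
    | apply NPC.Poly.decide_not | apply NPC.Poly.decide_lt | apply NPC.Poly.decide_le
    | apply NPC.Poly.decide_eq | apply NPC.Poly.decide_mem | apply NPC.Poly.ite
    | apply NPC.Poly.cond | apply NPC.Poly.some | apply NPC.Poly.getD | apply NPC.UPoly.range
    | apply NPC.UPoly.const | apply NPC.UPoly.add | apply NPC.UPoly.mul | apply NPC.UPoly.length
    | apply NPC.Poly.pair))

theorem poly_block : NPC.Poly block := by
  unfold block
  have h1 : NPC.Poly fun e : Var × List Var × List Var => (e.1, e.2.1) := by repeat' (beta_reduce; with_reducible_and_instances (first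
      | assumption | exact NPC.Poly.const _ | exact NPC.Poly.id | apply NPC.Poly.fst
      | apply NPC.Poly.snd | apply NPC.Poly.cons | apply NPC.Poly.append | apply NPC.Poly.map
      | apply NPC.Poly.flatMap | apply NPC.Poly.filter | apply NPC.Poly.length
      | apply NPC.Poly.range_length | apply NPC.Poly.zipIdx | apply NPC.Poly.zip
      | apply NPC.Poly.add | apply NPC.Poly.sub | apply NPC.Poly.mul | apply NPC.Poly.div
      | apply NPC.Poly.mod | apply NPC.Poly.decide_and | apply NPC.Poly.decide_or
      | apply NPC.Poly.decide_not | apply NPC.Poly.decide_lt | apply NPC.Poly.decide_le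
      | apply NPC.Poly.decide_eq | apply NPC.Poly.decide_mem | apply NPC.Poly.ite
      | apply NPC.Poly.cond | apply NPC.Poly.some | apply NPC.Poly.getD | apply NPC.UPoly.range
      | apply NPC.UPoly.const | apply NPC.UPoly.add | apply NPC.UPoly.mul | apply NPC.UPoly.length
      | apply NPC.Poly.pair))
  have h2 : NPC.Poly fun e : Var × List Var × List Var => (e.1, e.2.2) := by repeat' (beta_reduce; with_reducible_and_instances (first
      | assumption | exact NPC.Poly.const _ | exact NPC.Poly.id | apply NPC.Poly.fst
      | apply NPC.Poly.snd | apply NPC.Poly.cons | apply NPC.Poly.append | apply NPC.Poly.map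
      | apply NPC.Poly.flatMap | apply NPC.Poly.filter | apply NPC.Poly.length
      | apply NPC.Poly.range_length | apply NPC.Poly.zipIdx | apply NPC.Poly.zip
      | apply NPC.Poly.add | apply NPC.Poly.sub | apply NPC.Poly.mul | apply NPC.Poly.div
      | apply NPC.Poly.mod | apply NPC.Poly.decide_and | apply NPC.Poly.decide_or
      | apply NPC.Poly.decide_not | apply NPC.Poly.decide_lt | apply NPC.Poly.decide_le
      | apply NPC.Poly.decide_eq | apply NPC.Poly.decide_mem | apply NPC.Poly.ite
      | apply NPC.Poly.cond | apply NPC.Poly.some | apply NPC.Poly.getD | apply NPC.UPoly.range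
      | apply NPC.UPoly.const | apply NPC.UPoly.add | apply NPC.UPoly.mul | apply NPC.UPoly.length
      | apply NPC.Poly.pair))
  exact poly_blk0.append ((poly_blk1.comp h1).append ((poly_blk2.comp h1).append
    ((poly_blk3.comp h2).append ((poly_blk7.comp h2).append (poly_blk8.comp h2)))))

theorem poly_flat : NPC.Poly flat := by
  unfold flat
  exact (NPC.Poly.const globals).append
    (NPC.Poly.flatMap (F := fun _ e => block e) NPC.Poly.id (poly_block.comp (by repeat' (beta_reduce; with_reducible_and_instances (first
        | assumption | exact NPC.Poly.const _ | exact NPC.Poly.id | apply NPC.Poly.fst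
        | apply NPC.Poly.snd | apply NPC.Poly.cons | apply NPC.Poly.append | apply NPC.Poly.map
        | apply NPC.Poly.flatMap | apply NPC.Poly.filter | apply NPC.Poly.length
        | apply NPC.Poly.range_length | apply NPC.Poly.zipIdx | apply NPC.Poly.zip
        | apply NPC.Poly.add | apply NPC.Poly.sub | apply NPC.Poly.mul | apply NPC.Poly.div
        | apply NPC.Poly.mod | apply NPC.Poly.decide_and | apply NPC.Poly.decide_or
        | apply NPC.Poly.decide_not | apply NPC.Poly.decide_lt | apply NPC.Poly.decide_le
        | apply NPC.Poly.decide_eq | apply NPC.Poly.decide_mem | apply NPC.Poly.ite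
        | apply NPC.Poly.cond | apply NPC.Poly.some | apply NPC.Poly.getD | apply NPC.UPoly.range
        | apply NPC.UPoly.const | apply NPC.UPoly.add | apply NPC.UPoly.mul
        | apply NPC.UPoly.length | apply NPC.Poly.pair)))))

theorem poly_matrixOf {ν : Type} [DecidableEq ν] [TEnc ν] :
    NPC.Poly (Relu.matrixOf (ν := ν)) := by
  unfold Relu.matrixOf
  repeat' (beta_reduce; with_reducible_and_instances (first
    | assumption | exact NPC.Poly.const _ | exact NPC.Poly.id | apply NPC.Poly.fst
    | apply NPC.Poly.snd | apply NPC.Poly.cons | apply NPC.Poly.append | apply NPC.Poly.map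
    | apply NPC.Poly.flatMap | apply NPC.Poly.filter | apply NPC.Poly.length
    | apply NPC.Poly.range_length | apply NPC.Poly.zipIdx | apply NPC.Poly.zip
    | apply NPC.Poly.add | apply NPC.Poly.sub | apply NPC.Poly.mul | apply NPC.Poly.div
    | apply NPC.Poly.mod | apply NPC.Poly.decide_and | apply NPC.Poly.decide_or
    | apply NPC.Poly.decide_not | apply NPC.Poly.decide_lt | apply NPC.Poly.decide_le
    | apply NPC.Poly.decide_eq | apply NPC.Poly.decide_mem | apply NPC.Poly.ite
    | apply NPC.Poly.cond | apply NPC.Poly.some | apply NPC.Poly.getD | apply NPC.UPoly.range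
    | apply NPC.UPoly.const | apply NPC.UPoly.add | apply NPC.UPoly.mul | apply NPC.UPoly.length
    | apply NPC.Poly.pair))

theorem poly_inputOf {ν : Type} [DecidableEq ν] [TEnc ν] :
    NPC.Poly (Relu.inputOf (ν := ν)) := by
  unfold Relu.inputOf
  exact poly_matrixOf.pair (by repeat' (beta_reduce; with_reducible_and_instances (first
      | assumption | exact NPC.Poly.const _ | exact NPC.Poly.id | apply NPC.Poly.fst
      | apply NPC.Poly.snd | apply NPC.Poly.cons | apply NPC.Poly.append | apply NPC.Poly.map
      | apply NPC.Poly.flatMap | apply NPC.Poly.filter | apply NPC.Poly.length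
      | apply NPC.Poly.range_length | apply NPC.Poly.zipIdx | apply NPC.Poly.zip
      | apply NPC.Poly.add | apply NPC.Poly.sub | apply NPC.Poly.mul | apply NPC.Poly.div
      | apply NPC.Poly.mod | apply NPC.Poly.decide_and | apply NPC.Poly.decide_or
      | apply NPC.Poly.decide_not | apply NPC.Poly.decide_lt | apply NPC.Poly.decide_le
      | apply NPC.Poly.decide_eq | apply NPC.Poly.decide_mem | apply NPC.Poly.ite
      | apply NPC.Poly.cond | apply NPC.Poly.some | apply NPC.Poly.getD | apply NPC.UPoly.range
      | apply NPC.UPoly.const | apply NPC.UPoly.add | apply NPC.UPoly.mul | apply NPC.UPoly.length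
      | apply NPC.Poly.pair)))

theorem poly_readOff : NPC.Poly (fun p : Sys × List ℚ => readOff p.1 p.2) := by
  unfold readOff
  have h : NPC.Poly fun p : Sys × List ℚ => flat p.1 := poly_flat.comp (by repeat' (beta_reduce; with_reducible_and_instances (first
      | assumption | exact NPC.Poly.const _ | exact NPC.Poly.id | apply NPC.Poly.fst
      | apply NPC.Poly.snd | apply NPC.Poly.cons | apply NPC.Poly.append | apply NPC.Poly.map
      | apply NPC.Poly.flatMap | apply NPC.Poly.filter | apply NPC.Poly.length
      | apply NPC.Poly.range_length | apply NPC.Poly.zipIdx | apply NPC.Poly.zip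
      | apply NPC.Poly.add | apply NPC.Poly.sub | apply NPC.Poly.mul | apply NPC.Poly.div
      | apply NPC.Poly.mod | apply NPC.Poly.decide_and | apply NPC.Poly.decide_or
      | apply NPC.Poly.decide_not | apply NPC.Poly.decide_lt | apply NPC.Poly.decide_le
      | apply NPC.Poly.decide_eq | apply NPC.Poly.decide_mem | apply NPC.Poly.ite
      | apply NPC.Poly.cond | apply NPC.Poly.some | apply NPC.Poly.getD | apply NPC.UPoly.range
      | apply NPC.UPoly.const | apply NPC.UPoly.add | apply NPC.UPoly.mul | apply NPC.UPoly.length
      | apply NPC.Poly.pair)))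
  repeat' (beta_reduce; with_reducible_and_instances (first
    | assumption | exact NPC.Poly.const _ | exact NPC.Poly.id | apply NPC.Poly.fst
    | apply NPC.Poly.snd | apply NPC.Poly.cons | apply NPC.Poly.append | apply NPC.Poly.map
    | apply NPC.Poly.flatMap | apply NPC.Poly.filter | apply NPC.Poly.length
    | apply NPC.Poly.range_length | apply NPC.Poly.zipIdx | apply NPC.Poly.zip
    | apply NPC.Poly.add | apply NPC.Poly.sub | apply NPC.Poly.mul | apply NPC.Poly.div
    | apply NPC.Poly.mod | apply NPC.Poly.decide_and | apply NPC.Poly.decide_or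
    | apply NPC.Poly.decide_not | apply NPC.Poly.decide_lt | apply NPC.Poly.decide_le
    | apply NPC.Poly.decide_eq | apply NPC.Poly.decide_mem | apply NPC.Poly.ite
    | apply NPC.Poly.cond | apply NPC.Poly.some | apply NPC.Poly.getD | apply NPC.UPoly.range
    | apply NPC.UPoly.const | apply NPC.UPoly.add | apply NPC.UPoly.mul | apply NPC.UPoly.length
    | apply NPC.Poly.pair))

end Clamp

/-- Clamp systems reduce to panchromatic vertices. -/
theorem clamp_reduces_panch : ClampProblem.Reduces Panch.problem := by
  refine ⟨fun S => Relu.inputOf (flat S), fun p => readOff p.1 p.2, ?_, ?_,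
    fun _ hS => Clamp.correct hS⟩
  · exact PTime.of_poly (α := Sys) (β := Panch.Input) (poly_inputOf.comp poly_flat)
  · exact PTime.of_poly (α := Sys × List ℚ) (β := List (Var × ℚ)) poly_readOff

end Pool.Agent.H424R2.PPAD
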