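import Mathlib

/-!
# Facets of polyhedra given by an irredundant system of inequalities
-/

namespace Pool.Agent.H424R2.PPAD

open Set

/-- A facet of the (full-dimensional) polyhedron `P` in `ℝ^n`: a nonempty exposed face of
dimension `n - 1`. -/
def IsFacet {n : ℕ} (P F : Set (Fin n → ℝ)) : Prop :=
  IsExposed ℝ P F ∧ F.Nonempty ∧ Module.finrank ℝ (vectorSpan ℝ F) + 1 = n

namespace Facets

variable {n : ℕ} {κ : Type} [Fintype κ] (ℓ : κ → (Fin n → ℝ) →L[ℝ] ℝ)

/-- the polyhedron -/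
def PP : Set (Fin n → ℝ) := {x | ∀ k, ℓ k x ≤ 1}

/-- the face -/
def fc (k : κ) : Set (Fin n → ℝ) := {x ∈ PP ℓ | ℓ k x = 1}

theorem exists_eps {x : Fin n → ℝ} (S : Set κ) (hS : ∀ k ∈ S, ℓ k x < 1) (d : Fin n → ℝ) :
    ∃ ε : ℝ, 0 < ε ∧ ∀ k ∈ S, ℓ k (x + ε • d) < 1 := by
  have h : ∀ k ∈ S, ∀ᶠ ε : ℝ in nhds 0, ℓ k (x + ε • d) < 1 := by
    intro k hk
    have hc : Continuous fun ε : ℝ => ℓ k (x + ε • d) := by fun_prop
    have := hc.tendsto 0
    refine this.eventually_lt_const ?_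
    simpa using hS k hk
  have h2 : ∀ᶠ ε : ℝ in nhds 0, ∀ k ∈ S, ℓ k (x + ε • d) < 1 :=
    (Filter.eventually_all_finite S.toFinite).2 h
  have h3 : ∀ᶠ ε : ℝ in nhdsWithin 0 (Ioi 0), ∀ k ∈ S, ℓ k (x + ε • d) < 1 :=
    h2.filter_mono nhdsWithin_le_nhds
  obtain ⟨ε, h1, h2⟩ := (h3.and self_mem_nhdsWithin).exists
  exact ⟨ε, h2, h1⟩

variable {ℓ}

theorem vectorSpan_fc {k : κ} {p : Fin n → ℝ} (h1 : ℓ k p = 1) (h2 : ∀ j, j ≠ k → ℓ j p < 1) :
    vectorSpan ℝ (fc ℓ k) = LinearMap.ker (ℓ k : (Fin n → ℝ) →ₗ[ℝ] ℝ) := by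
  apply le_antisymm
  · rw [vectorSpan_def]
    refine Submodule.span_le.2 ?_
    rintro d ⟨x, hx, y, hy, rfl⟩
    simp only [vsub_eq_sub, SetLike.mem_coe, LinearMap.mem_ker, map_sub]
    have := hx.2
    have := hy.2
    simp_all
  · intro d hd
    have hd' : ℓ k d = 0 := hd
    obtain ⟨ε, hε, he⟩ := exists_eps ℓ {j | j ≠ k} (x := p) (fun j hj => h2 j hj) d
    have hp : p ∈ fc ℓ k := by
      refine ⟨fun j => ?_, h1⟩
      by_cases hj : j = k
      · subst hj; exact h1.le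
      · exact (h2 j hj).le
    have hq : p + ε • d ∈ fc ℓ k := by
      have e : ℓ k (p + ε • d) = 1 := by rw [map_add, map_smul, hd', h1]; simp
      refine ⟨fun j => ?_, e⟩
      by_cases hj : j = k
      · subst hj; exact e.le
      · exact (he j hj).le
    have := vsub_mem_vectorSpan ℝ hq hp
    have e2 : d = ε⁻¹ • (p + ε • d - p) := by
      rw [add_sub_cancel_left, smul_smul, inv_mul_cancel₀ hε.ne', one_smul]
    rw [e2]
    exact Submodule.smul_mem _ _ this

theorem finrank_ker {k : κ} {p : Fin n → ℝ} (h1 : ℓ k p = 1) :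
    Module.finrank ℝ (LinearMap.ker (ℓ k : (Fin n → ℝ) →ₗ[ℝ] ℝ)) + 1 = n := by
  have h := LinearMap.finrank_range_add_finrank_ker (ℓ k : (Fin n → ℝ) →ₗ[ℝ] ℝ)
  have hr : LinearMap.range (ℓ k : (Fin n → ℝ) →ₗ[ℝ] ℝ) = ⊤ := by
    rw [LinearMap.range_eq_top]
    intro c
    refine ⟨c • p, ?_⟩
    have : ℓ k (c • p) = c := by rw [map_smul, h1]; simp
    exact this
  rw [hr, finrank_top, Module.finrank_self, Module.finrank_fin_fun] at h
  omega

theorem isFacet_fc {k : κ} {p : Fin n → ℝ} (h1 : ℓ k p = 1) (h2 : ∀ j, j ≠ k → ℓ j p < 1) :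
    IsFacet (PP ℓ) (fc ℓ k) := by
  have hp : p ∈ fc ℓ k := by
    refine ⟨fun j => ?_, h1⟩
    by_cases hj : j = k
    · subst hj; exact h1.le
    · exact (h2 j hj).le
  refine ⟨fun _ => ⟨ℓ k, ?_⟩, ⟨p, hp⟩, ?_⟩
  · ext x
    constructor
    · rintro ⟨hx, hx1⟩
      exact ⟨hx, fun y hy => by rw [hx1]; exact hy k⟩
    · rintro ⟨hx, hx1⟩
      refine ⟨hx, le_antisymm (hx k) ?_⟩
      rw [← h1]
      exact hx1 p hp.1
  · rw [vectorSpan_fc h1 h2]
    exact finrank_ker h1

theorem convex_exposed {F : Set (Fin n → ℝ)} (hF : IsExposed ℝ (PP ℓ) F) : Convex ℝ F := by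
  refine hF.convex ?_
  have : PP ℓ = ⋂ k, {x | ℓ k x ≤ 1} := by
    ext x; simp [PP]
  rw [this]
  exact convex_iInter fun k => convex_halfSpace_le (ℓ k).toLinearMap.isLinear 1

/-- Every facet is one of the faces given by the inequalities. -/
theorem eq_of_isFacet {F : Set (Fin n → ℝ)} (hF : IsFacet (PP ℓ) F)
    {p : κ → (Fin n → ℝ)} (h1 : ∀ k, ℓ k (p k) = 1) :
    ∃ k, F = fc ℓ k := by
  classical
  obtain ⟨hE, hne, hdim⟩ := hF
  obtain ⟨l, hl⟩ := hE hne
  -- `l` is constant on `F`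
  have hker : vectorSpan ℝ F ≤ LinearMap.ker (l : (Fin n → ℝ) →ₗ[ℝ] ℝ) := by
    rw [vectorSpan_def]
    refine Submodule.span_le.2 ?_
    rintro d ⟨x, hx, y, hy, rfl⟩
    rw [hl] at hx hy
    simp only [vsub_eq_sub, SetLike.mem_coe, LinearMap.mem_ker, map_sub]
    have h1 := hx.2 y hy.1
    have h2 := hy.2 x hx.1
    have h3 : l x = l y := le_antisymm h2 h1
    simp [h3]
  have hFP : F ⊆ PP ℓ := by
    intro x hx
    rw [hl] at hx
    exact hx.1
  -- there is `k` with `F ⊆ fc k`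
  have hex : ∃ k, ∀ x ∈ F, ℓ k x = 1 := by
    by_contra hcon
    push Not at hcon
    choose q hq hq1 using hcon
    have hq2 : ∀ k, ℓ k (q k) < 1 := fun k => lt_of_le_of_ne (hFP (hq k) k) (hq1 k)
    -- a point of `F` with all inequalities strict
    have hint : ∃ x ∈ F, ∀ k, ℓ k x < 1 := by
      by_cases hκ : Nonempty κ
      · have hcard : (0 : ℝ) < Fintype.card κ := by
          exact_mod_cast Fintype.card_pos
        refine ⟨∑ k, ((Fintype.card κ : ℝ)⁻¹) • q k, ?_, fun j => ?_⟩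
        · refine (convex_exposed hE).sum_mem (fun k _ => by positivity) ?_ (fun k _ => hq k)
          simp
        · rw [map_sum]
          have : ∑ k, ℓ j ((Fintype.card κ : ℝ)⁻¹ • q k) < ∑ _k : κ, (Fintype.card κ : ℝ)⁻¹ * 1 := by
            refine Finset.sum_lt_sum (fun k _ => ?_) ⟨j, Finset.mem_univ _, ?_⟩
            · rw [map_smul, smul_eq_mul]
              exact mul_le_mul_of_nonneg_left (hFP (hq k) j) (by positivity)
            · rw [map_smul, smul_eq_mul]
              exact mul_lt_mul_of_pos_left (hq2 j) (by positivity)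
          refine this.trans_le ?_
          simp
      · obtain ⟨x, hx⟩ := hne
        exact ⟨x, hx, fun k => absurd ⟨k⟩ hκ⟩
    obtain ⟨x, hx, hx1⟩ := hint
    -- then `l = 0`
    have hl0 : ∀ d, l d ≤ 0 := by
      intro d
      obtain ⟨ε, hε, he⟩ := exists_eps ℓ Set.univ (x := x) (fun k _ => hx1 k) d
      have hy : x + ε • d ∈ PP ℓ := fun k => (he k (Set.mem_univ _)).le
      rw [hl] at hx
      have := hx.2 _ hy
      rw [map_add, map_smul, smul_eq_mul] at this
      by_contra hd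
      push Not at hd
      nlinarith [mul_pos hε hd]
    have hl0' : ∀ d, l d = 0 := by
      intro d
      refine le_antisymm (hl0 d) ?_
      have := hl0 (-d)
      rw [map_neg] at this
      linarith
    -- so `F = P` contains a neighbourhood of `x`, of dimension `n`
    have htop : vectorSpan ℝ F = ⊤ := by
      rw [eq_top_iff]
      intro d _
      obtain ⟨ε, hε, he⟩ := exists_eps ℓ Set.univ (x := x) (fun k _ => hx1 k) d
      have hy : x + ε • d ∈ F := by
        rw [hl]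
        refine ⟨fun k => (he k (Set.mem_univ _)).le, fun y _ => ?_⟩
        rw [hl0', hl0']
      have := vsub_mem_vectorSpan ℝ hy hx
      have e2 : d = ε⁻¹ • (x + ε • d - x) := by
        rw [add_sub_cancel_left, smul_smul, inv_mul_cancel₀ hε.ne', one_smul]
      rw [e2]
      exact Submodule.smul_mem _ _ this
    rw [htop, finrank_top, Module.finrank_fin_fun] at hdim
    omega
  obtain ⟨k, hk⟩ := hex
  refine ⟨k, Set.Subset.antisymm (fun x hx => ⟨hFP hx, hk x hx⟩) ?_⟩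
  have hle : vectorSpan ℝ F ≤ LinearMap.ker (ℓ k : (Fin n → ℝ) →ₗ[ℝ] ℝ) := by
    rw [vectorSpan_def]
    refine Submodule.span_le.2 ?_
    rintro d ⟨x, hx, y, hy, rfl⟩
    simp only [vsub_eq_sub, SetLike.mem_coe, LinearMap.mem_ker, map_sub]
    have e1 := hk x hx
    have e2 := hk y hy
    simp [e1, e2]
  have heq : vectorSpan ℝ F = LinearMap.ker (ℓ k : (Fin n → ℝ) →ₗ[ℝ] ℝ) := by
    apply Submodule.eq_of_le_of_finrank_eq hle
    have := finrank_ker (h1 k)
    omega
  obtain ⟨x, hx⟩ := hne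
  intro y hy
  have hd : y - x ∈ LinearMap.ker (ℓ k : (Fin n → ℝ) →ₗ[ℝ] ℝ) := by
    have e1 := hk x hx
    have e2 := hy.2
    simp [e1, e2]
  rw [← heq] at hd
  have hd2 := hker hd
  have hd3 : l y = l x := by
    have : l (y - x) = 0 := hd2
    rw [map_sub] at this
    linarith
  have hx' := hx
  rw [hl] at hx'
  rw [hl]
  exact ⟨hy.1, fun w hw => by rw [hd3]; exact hx'.2 w hw⟩

end Facets

end Pool.Agent.H424R2.PPAD
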