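import Mathlib

/-!
# The continuous part: a piecewise linear function whose fixed points are the ends of the paths

Given a system of disjoint directed paths in the 1-skeleton of the cube `{0,1}^N`, we write down a
system of equations with unknowns `y_0, …, y_{N-1}, z` in `[0,1]` all of whose solutions are close
to ends of paths.
-/

namespace Pool.Agent.H424R2.PPAD.Field

open Finset

/-- truncation to `[0,1]` -/
noncomputable def cl (x : ℝ) : ℝ := max 0 (min 1 x)

theorem cl_nonneg (x : ℝ) : 0 ≤ cl x := le_max_left _ _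
theorem cl_le_one (x : ℝ) : cl x ≤ 1 := max_le zero_le_one (min_le_left _ _)
theorem cl_zero {x : ℝ} (h : x ≤ 0) : cl x = 0 := by
  unfold cl; rw [min_eq_right (by linarith), max_eq_left h]
theorem cl_one {x : ℝ} (h : 1 ≤ x) : cl x = 1 := by
  unfold cl; rw [min_eq_left h, max_eq_right zero_le_one]
theorem cl_id {x : ℝ} (h : 0 ≤ x) (h' : x ≤ 1) : cl x = x := by
  unfold cl; rw [min_eq_right h', max_eq_right h]
theorem cl_le {x : ℝ} (h : 0 ≤ x) : cl x ≤ x := by
  unfold cl; exact max_le h (min_le_right _ _)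
theorem cl_ge {x : ℝ} (h : x ≤ 1) : x ≤ cl x := by
  unfold cl; rw [min_eq_right h]; exact le_max_right _ _
theorem cl_mono {x y : ℝ} (h : x ≤ y) : cl x ≤ cl y := by
  unfold cl; exact max_le_max le_rfl (min_le_min le_rfl h)

/-- outgoing direction -/
def out (Ep Em : (ℕ → Bool) → ℕ → Prop) (x : ℕ → Bool) (i : ℕ) : Prop :=
  (x i = false ∧ Ep x i) ∨ (x i = true ∧ Em x i)

/-- incoming direction -/
def inn (Ep Em : (ℕ → Bool) → ℕ → Prop) (x : ℕ → Bool) (i : ℕ) : Prop :=
  (x i = true ∧ Ep x i) ∨ (x i = false ∧ Em x i)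

/-- The system of equations. -/
structure Eqs (N : ℕ) (y r q d fm gm tp tm ep em a1 a2 b1 b2 : ℕ → ℝ) (z u dn U T H K : ℝ) :
    Prop where
  hy : ∀ i < N, y i = cl (r i + a1 i + a2 i - b1 i - b2 i - 2 * U)
  hr : ∀ i < N, r i = cl (4 * y i - 1)
  hq : ∀ i < N, q i = cl (2 * y i - 1)
  hd : ∀ i < N, d i = cl (y i - q i)
  hfm : ∀ i < N, fm i = cl (2 - 8 * ∑ l ∈ (range N).erase i, d l)
  hgm : ∀ i < N, gm i = cl (1 - 8 * ∑ l ∈ (range N).erase i, d l)
  htp : ∀ i < N, tp i = cl (fm i + ep i - 1)
  htm : ∀ i < N, tm i = cl (fm i + em i - 1)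
  hT : T = cl (∑ i ∈ range N, (tp i + tm i))
  hH : H = cl (2 - 8 * ∑ i ∈ range N, y i)
  hu : u = cl (2 - 4 * z)
  hdn : dn = cl (4 * z)
  hU : U = cl (2 * z - 1)
  hK : K = cl (T + u - 1)
  hz : z = cl (1 - H - K)
  ha1 : ∀ i < N, a1 i = cl (gm i + ep i - dn - 1)
  ha2 : ∀ i < N, a2 i = cl (dn + gm i + em i - 2)
  hb1 : ∀ i < N, b1 i = cl (gm i + em i - dn - 1)
  hb2 : ∀ i < N, b2 i = cl (dn + gm i + ep i - 2)
  hep : ∀ i < N, 0 ≤ ep i ∧ ep i ≤ 1
  hem : ∀ i < N, 0 ≤ em i ∧ em i ≤ 1

section

variable {N : ℕ} {y r q d fm gm tp tm ep em a1 a2 b1 b2 : ℕ → ℝ} {z u dn U T H K : ℝ}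
  (E : Eqs N y r q d fm gm tp tm ep em a1 a2 b1 b2 z u dn U T H K)

include E

theorem Eqs.y_mem {i : ℕ} (hi : i < N) : 0 ≤ y i ∧ y i ≤ 1 := by
  rw [E.hy i hi]; exact ⟨cl_nonneg _, cl_le_one _⟩

theorem Eqs.z_mem : 0 ≤ z ∧ z ≤ 1 := by
  rw [E.hz]; exact ⟨cl_nonneg _, cl_le_one _⟩

theorem Eqs.d_low {i : ℕ} (hi : i < N) (h : y i ≤ 1 / 2) : d i = y i := by
  have := E.y_mem hi
  have h0 : cl (2 * y i - 1) = 0 := cl_zero (by linarith)
  rw [E.hd i hi, E.hq i hi, h0, sub_zero, cl_id this.1 this.2]

theorem Eqs.d_high {i : ℕ} (hi : i < N) (h : 1 / 2 ≤ y i) : d i = 1 - y i := by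
  have := E.y_mem hi
  have h0 : cl (2 * y i - 1) = 2 * y i - 1 := cl_id (by linarith) (by linarith)
  rw [E.hd i hi, E.hq i hi, h0, cl_id (by linarith) (by linarith)]
  ring

theorem Eqs.d_nonneg {i : ℕ} (hi : i < N) : 0 ≤ d i := by
  rw [E.hd i hi]; exact cl_nonneg _

/-- near-Boolean coordinates -/
theorem Eqs.near {i : ℕ} (hi : i < N) (h : d i < 1 / 4) :
    (y i = d i ∧ r i = 0 ∧ decide (1 / 2 ≤ y i) = false) ∨
    (y i = 1 - d i ∧ r i = 1 ∧ decide (1 / 2 ≤ y i) = true) := by
  rcases le_total (y i) (1 / 2) with h1 | h1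
  · left
    have h2 := E.d_low hi h1
    refine ⟨h2.symm, ?_, ?_⟩
    · rw [E.hr i hi, cl_zero (by linarith)]
    · simp only [decide_eq_false_iff_not, not_le]; linarith
  · right
    have h2 := E.d_high hi h1
    refine ⟨by linarith, ?_, ?_⟩
    · rw [E.hr i hi, cl_one (by linarith)]
    · simp only [decide_eq_true_eq]; linarith

theorem Eqs.d_le_sum {i l : ℕ} (hl : l < N) (hli : l ≠ i) :
    d l ≤ ∑ l ∈ (range N).erase i, d l := by
  refine Finset.single_le_sum (f := d) (fun k hk => ?_) (by simp [hl, hli])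
  rw [mem_erase, mem_range] at hk
  exact E.d_nonneg hk.2

theorem Eqs.sum_nonneg' (i : ℕ) : 0 ≤ ∑ l ∈ (range N).erase i, d l := by
  refine Finset.sum_nonneg fun k hk => ?_
  rw [mem_erase, mem_range] at hk
  exact E.d_nonneg hk.2

/-- fixed points of the rounding function -/
theorem Eqs.fix {i : ℕ} (hi : i < N) (h : y i = r i) : y i = 0 ∨ y i = 1 / 3 ∨ y i = 1 := by
  rw [E.hr i hi] at h
  rcases le_total (4 * y i - 1) 0 with h1 | h1
  · left; rw [h, cl_zero h1]
  · rcases le_total (4 * y i - 1) 1 with h2 | h2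
    · right; left; rw [cl_id h1 h2] at h; linarith
    · right; right; rw [h, cl_one h2]

theorem Eqs.fix_d {i : ℕ} (hi : i < N) (h : y i = r i) : d i = 0 ∨ d i = 1 / 3 := by
  rcases E.fix hi h with h | h | h
  · left; rw [E.d_low hi (by rw [h]; norm_num), h]
  · right; rw [E.d_low hi (by rw [h]; norm_num), h]
  · left; rw [E.d_high hi (by rw [h]; norm_num), h]; ring

theorem Eqs.dn_mem : 0 ≤ dn ∧ dn ≤ 1 := by
  rw [E.hdn]; exact ⟨cl_nonneg _, cl_le_one _⟩

theorem Eqs.gm_mem {i : ℕ} (hi : i < N) : 0 ≤ gm i ∧ gm i ≤ 1 := by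
  rw [E.hgm i hi]; exact ⟨cl_nonneg _, cl_le_one _⟩

theorem Eqs.r_mem {i : ℕ} (hi : i < N) : 0 ≤ r i ∧ r i ≤ 1 := by
  rw [E.hr i hi]; exact ⟨cl_nonneg _, cl_le_one _⟩

theorem Eqs.sum_lt_of_gm {i : ℕ} (hi : i < N) (h : 0 < gm i) :
    ∑ l ∈ (range N).erase i, d l < 1 / 8 := by
  by_contra hc
  push Not at hc
  rw [E.hgm i hi, cl_zero (by linarith)] at h
  exact lt_irrefl _ h

theorem Eqs.gm_one {i : ℕ} (hi : i < N) (h : ∀ l < N, l ≠ i → d l = 0) : gm i = 1 := by
  rw [E.hgm i hi]
  have : ∑ l ∈ (range N).erase i, d l = 0 := by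
    refine Finset.sum_eq_zero fun l hl => ?_
    rw [mem_erase, mem_range] at hl
    exact h l hl.2 hl.1
  rw [this]
  exact cl_one (by norm_num)

theorem Eqs.T_one {i : ℕ} (hi : i < N) (h : 1 ≤ tp i + tm i) : T = 1 := by
  rw [E.hT]
  refine cl_one (h.trans ?_)
  refine Finset.single_le_sum (f := fun i => tp i + tm i) (fun k hk => ?_) (mem_range.2 hi)
  rw [mem_range] at hk
  have h1 : 0 ≤ tp k := by rw [E.htp k hk]; exact cl_nonneg _
  have h2 : 0 ≤ tm k := by rw [E.htm k hk]; exact cl_nonneg _
  linarith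

theorem Eqs.H_one (h : ∀ i < N, y i = 0) : H = 1 := by
  rw [E.hH]
  have : ∑ i ∈ range N, y i = 0 := Finset.sum_eq_zero fun i hi => h i (mem_range.1 hi)
  rw [this]
  exact cl_one (by norm_num)

theorem Eqs.H_pos (h : 0 < H) {i : ℕ} (hi : i < N) : y i < 1 / 4 := by
  by_contra hc
  push Not at hc
  have h1 : y i ≤ ∑ i ∈ range N, y i :=
    Finset.single_le_sum (f := y) (fun k hk => (E.y_mem (mem_range.1 hk)).1) (mem_range.2 hi)
  rw [E.hH, cl_zero (by linarith)] at h
  exact lt_irrefl _ h

theorem Eqs.low {i : ℕ} (hi : i < N) (h : y i < 1 / 4) :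
    d i = y i ∧ r i = 0 ∧ decide (1 / 2 ≤ y i) = false := by
  have h1 := E.d_low hi (by linarith)
  refine ⟨h1, ?_, ?_⟩
  · rw [E.hr i hi, cl_zero (by linarith)]
  · simp only [decide_eq_false_iff_not, not_le]; linarith

variable {Ep Em : (ℕ → Bool) → ℕ → Prop}
  (hEp : ∀ i < N, (∀ l < N, l ≠ i → d l < 1 / 4) →
    (Ep (fun i => decide (1 / 2 ≤ y i)) i → ep i = 1) ∧
    (¬ Ep (fun i => decide (1 / 2 ≤ y i)) i → ep i = 0))
  (hEm : ∀ i < N, (∀ l < N, l ≠ i → d l < 1 / 4) →
    (Em (fun i => decide (1 / 2 ≤ y i)) i → em i = 1) ∧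
    (¬ Em (fun i => decide (1 / 2 ≤ y i)) i → em i = 0))
  (C2 : ∀ x i, i < N → ¬ (Ep x i ∧ Em x i))

include hEp hEm C2

/-- The three possible kinds of behaviour of a coordinate. -/
theorem Eqs.act {i : ℕ} (hi : i < N) :
    ((gm i = 0 ∨ (¬ Ep (fun i => decide (1 / 2 ≤ y i)) i ∧
        ¬ Em (fun i => decide (1 / 2 ≤ y i)) i)) ∧
      a1 i = 0 ∧ a2 i = 0 ∧ b1 i = 0 ∧ b2 i = 0) ∨
    (0 < gm i ∧ Ep (fun i => decide (1 / 2 ≤ y i)) i ∧ T = 1 ∧
      a1 i = cl (gm i - dn) ∧ a2 i = 0 ∧ b1 i = 0 ∧ b2 i = cl (dn + gm i - 1)) ∨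
    (0 < gm i ∧ Em (fun i => decide (1 / 2 ≤ y i)) i ∧ T = 1 ∧
      a1 i = 0 ∧ a2 i = cl (dn + gm i - 1) ∧ b1 i = cl (gm i - dn) ∧ b2 i = 0) := by
  have hg := E.gm_mem hi
  have hdn := E.dn_mem
  have hepi := E.hep i hi
  have hemi := E.hem i hi
  rcases hg.1.eq_or_lt with h0 | h0
  · left
    refine ⟨Or.inl h0.symm, ?_, ?_, ?_, ?_⟩
    · rw [E.ha1 i hi]; exact cl_zero (by linarith)
    · rw [E.ha2 i hi]; exact cl_zero (by linarith)
    · rw [E.hb1 i hi]; exact cl_zero (by linarith)
    · rw [E.hb2 i hi]; exact cl_zero (by linarith)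
  · have hs := E.sum_lt_of_gm hi h0
    have hnear : ∀ l < N, l ≠ i → d l < 1 / 4 := fun l hl hli => by
      have := E.d_le_sum hl hli
      linarith
    have hp := hEp i hi hnear
    have hm := hEm i hi hnear
    have hfm : fm i = 1 := by rw [E.hfm i hi]; exact cl_one (by linarith)
    by_cases h1 : Ep (fun i => decide (1 / 2 ≤ y i)) i
    · right; left
      have h2 : ¬ Em (fun i => decide (1 / 2 ≤ y i)) i := fun h2 => C2 _ i hi ⟨h1, h2⟩
      have e1 := hp.1 h1
      have e2 := hm.2 h2
      have htp : tp i = 1 := by rw [E.htp i hi]; exact cl_one (by linarith)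
      have htm : 0 ≤ tm i := by rw [E.htm i hi]; exact cl_nonneg _
      refine ⟨h0, h1, E.T_one hi (by linarith), ?_, ?_, ?_, ?_⟩
      · rw [E.ha1 i hi, e1]; congr 1; ring
      · rw [E.ha2 i hi, e2]; exact cl_zero (by linarith)
      · rw [E.hb1 i hi, e2]; exact cl_zero (by linarith)
      · rw [E.hb2 i hi, e1]; congr 1; ring
    · by_cases h2 : Em (fun i => decide (1 / 2 ≤ y i)) i
      · right; right
        have e1 := hp.2 h1
        have e2 := hm.1 h2
        have htm : tm i = 1 := by rw [E.htm i hi]; exact cl_one (by linarith)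
        have htp : 0 ≤ tp i := by rw [E.htp i hi]; exact cl_nonneg _
        refine ⟨h0, h2, E.T_one hi (by linarith), ?_, ?_, ?_, ?_⟩
        · rw [E.ha1 i hi, e1]; exact cl_zero (by linarith)
        · rw [E.ha2 i hi, e2]; congr 1; ring
        · rw [E.hb1 i hi, e2]; congr 1; ring
        · rw [E.hb2 i hi, e1]; exact cl_zero (by linarith)
      · left
        have e1 := hp.2 h1
        have e2 := hm.2 h2
        refine ⟨Or.inr ⟨h1, h2⟩, ?_, ?_, ?_, ?_⟩
        · rw [E.ha1 i hi, e1]; exact cl_zero (by linarith)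
        · rw [E.ha2 i hi, e2]; exact cl_zero (by linarith)
        · rw [E.hb1 i hi, e2]; exact cl_zero (by linarith)
        · rw [E.hb2 i hi, e1]; exact cl_zero (by linarith)

variable
  (Co : ∀ x i j, i < N → j < N → out Ep Em x i → out Ep Em x j → i = j)
  (Ci : ∀ x i j, i < N → j < N → inn Ep Em x i → inn Ep Em x j → i = j)
  (C3 : ∀ x : ℕ → Bool, (∀ i < N, x i = false) → ∀ i < N, ¬ inn Ep Em x i)

include C3 in
/-- the case `z > 1/2` -/
theorem Eqs.caseA (hz : 1 / 2 < z) : (∀ i < N, decide (1 / 2 ≤ y i) = false) ∧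
    ∀ i < N, ¬ out Ep Em (fun i => decide (1 / 2 ≤ y i)) i := by
  have hzm := E.z_mem
  have hT : T ≤ 1 := by rw [E.hT]; exact cl_le_one _
  have hu : u = 0 := by rw [E.hu]; exact cl_zero (by linarith)
  have hK : K = 0 := by rw [E.hK, hu]; exact cl_zero (by linarith)
  have hHm : 0 ≤ H ∧ H ≤ 1 := by rw [E.hH]; exact ⟨cl_nonneg _, cl_le_one _⟩
  have hzH : z = 1 - H := by
    have := E.hz
    rw [hK, cl_id (by linarith) (by linarith)] at this
    linarith
  have hdn : dn = 1 := by rw [E.hdn]; exact cl_one (by linarith)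
  have hU : U = 2 * z - 1 := by rw [E.hU]; exact cl_id (by linarith) (by linarith)
  rcases hHm.1.eq_or_lt with hH0 | hH0
  · exfalso
    have hz1 : z = 1 := by linarith
    have hall : ∀ i < N, y i = 0 := by
      intro i hi
      have hr := E.r_mem hi
      have hg := E.gm_mem hi
      rw [E.hy i hi]
      apply cl_zero
      rcases E.act hEp hEm C2 hi with ⟨-, h1, h2, h3, h4⟩ | ⟨-, -, -, h1, h2, h3, h4⟩ |
        ⟨-, -, -, h1, h2, h3, h4⟩
      · rw [h1, h2, h3, h4, hU]; linarith
      · have h5 : a1 i = 0 := by rw [h1]; exact cl_zero (by linarith)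
        have h6 : 0 ≤ b2 i := by rw [h4]; exact cl_nonneg _
        rw [h5, h2, h3, hU]; linarith
      · have h5 : a2 i ≤ 1 := by rw [h2]; exact cl_le_one _
        have h6 : 0 ≤ b1 i := by rw [h3]; exact cl_nonneg _
        rw [h1, h4, hU]; linarith
    have := E.H_one hall
    linarith
  · have hlow : ∀ i < N, d i = y i ∧ r i = 0 ∧ decide (1 / 2 ≤ y i) = false := fun i hi =>
      E.low hi (E.H_pos hH0 hi)
    refine ⟨fun i hi => (hlow i hi).2.2, fun k hk hout => ?_⟩
    have hno := C3 (fun i => decide (1 / 2 ≤ y i)) (fun i hi => (hlow i hi).2.2)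
    have hall : ∀ i < N, y i = 0 := by
      intro i hi
      have hg := E.gm_mem hi
      rw [E.hy i hi]
      apply cl_zero
      rw [(hlow i hi).2.1]
      rcases E.act hEp hEm C2 hi with ⟨-, h1, h2, h3, h4⟩ | ⟨-, -, -, h1, h2, h3, h4⟩ |
        ⟨-, h0, -, h1, h2, h3, h4⟩
      · rw [h1, h2, h3, h4, hU]; linarith
      · have h5 : a1 i = 0 := by rw [h1]; exact cl_zero (by linarith)
        have h6 : 0 ≤ b2 i := by rw [h4]; exact cl_nonneg _
        rw [h5, h2, h3, hU]; linarith
      · exact absurd (Or.inr ⟨(hlow i hi).2.2, h0⟩) (hno i hi)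
    have := E.H_one hall
    linarith

include Co Ci C3 in
/-- Every solution of the system gives an end of a path. -/
theorem Eqs.main : ((∀ i < N, decide (1 / 2 ≤ y i) = false) ∧
      ∀ i < N, ¬ out Ep Em (fun i => decide (1 / 2 ≤ y i)) i) ∨
    (¬ (∀ i < N, decide (1 / 2 ≤ y i) = false) ∧
      (((∃ i < N, out Ep Em (fun i => decide (1 / 2 ≤ y i)) i) ∧
        ∀ i < N, ¬ inn Ep Em (fun i => decide (1 / 2 ≤ y i)) i) ∨
       ((∃ i < N, inn Ep Em (fun i => decide (1 / 2 ≤ y i)) i) ∧
        ∀ i < N, ¬ out Ep Em (fun i => decide (1 / 2 ≤ y i)) i))) := by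
  by_cases hz : 1 / 2 < z
  · exact Or.inl (E.caseA hEp hEm C2 C3 hz)
  push Not at hz
  have hzm := E.z_mem
  have hU : U = 0 := by rw [E.hU]; exact cl_zero (by linarith)
  have hum : 0 ≤ u ∧ u ≤ 1 := by rw [E.hu]; exact ⟨cl_nonneg _, cl_le_one _⟩
  have hHm : 0 ≤ H ∧ H ≤ 1 := by rw [E.hH]; exact ⟨cl_nonneg _, cl_le_one _⟩
  have hTm : 0 ≤ T ∧ T ≤ 1 := by rw [E.hT]; exact ⟨cl_nonneg _, cl_le_one _⟩
  have hdnm := E.dn_mem
  have hy : ∀ i < N, y i = cl (r i + a1 i + a2 i - b1 i - b2 i) := by
    intro i hi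
    have := E.hy i hi
    rw [hU] at this
    rw [this]; congr 1; ring
  -- coordinates without push are fixed points of rounding
  have hfix : ∀ i < N, a1 i = 0 → a2 i = 0 → b1 i = 0 → b2 i = 0 → y i = r i := by
    intro i hi h1 h2 h3 h4
    have hr := E.r_mem hi
    rw [hy i hi, h1, h2, h3, h4, cl_id (by linarith) (by linarith)]
    ring
  -- if the vertex is `0` and there is no outgoing edge we are done; abbreviations
  set x : ℕ → Bool := fun i => decide (1 / 2 ≤ y i) with hxdef
  have hx0 : ∀ i, decide (1 / 2 ≤ y i) = x i := fun i => rfl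
  by_cases hT1 : T = 1
  swap
  · -- no push at all
    have hP0 : ∀ i < N, (gm i = 0 ∨ (¬ Ep x i ∧ ¬ Em x i)) ∧ y i = r i := by
      intro i hi
      rcases E.act hEp hEm C2 hi with ⟨h0, h1, h2, h3, h4⟩ | ⟨-, -, hT, -⟩ | ⟨-, -, hT, -⟩
      · exact ⟨h0, hfix i hi h1 h2 h3 h4⟩
      · exact absurd hT hT1
      · exact absurd hT hT1
    have hd01 : ∀ i < N, d i = 0 ∨ d i = 1 / 3 := fun i hi => E.fix_d hi (hP0 i hi).2
    have hT0 : T = 0 := by
      rw [E.hT]
      apply cl_zero
      refine le_of_eq (Finset.sum_eq_zero fun j hj => ?_)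
      rw [mem_range] at hj
      by_cases hall : ∀ l < N, l ≠ j → d l = 0
      · have hg := E.gm_one hj hall
        have hne := (hP0 j hj).1
        rw [hg] at hne
        simp only [one_ne_zero, false_or] at hne
        have hnear : ∀ l < N, l ≠ j → d l < 1 / 4 := fun l hl hlj => by
          rw [hall l hl hlj]; norm_num
        have e1 := (hEp j hj hnear).2 hne.1
        have e2 := (hEm j hj hnear).2 hne.2
        have hfm : fm j ≤ 1 := by rw [E.hfm j hj]; exact cl_le_one _
        rw [E.htp j hj, E.htm j hj, e1, e2, cl_zero (by linarith)]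
        ring
      · push Not at hall
        obtain ⟨l, hl, hlj, hdl⟩ := hall
        have h1 : d l = 1 / 3 := (hd01 l hl).resolve_left hdl
        have h2 := E.d_le_sum hl hlj
        have hfm : fm j = 0 := by rw [E.hfm j hj]; exact cl_zero (by linarith)
        have h3 := E.hep j hj
        have h4 := E.hem j hj
        rw [E.htp j hj, E.htm j hj, hfm, cl_zero (by linarith), cl_zero (by linarith)]
        ring
    have hK : K = 0 := by rw [E.hK, hT0]; exact cl_zero (by linarith)
    have hzH : z = 1 - H := by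
      have := E.hz
      rw [hK, cl_id (by linarith) (by linarith)] at this
      linarith
    have hH0 : 0 < H := by linarith
    have hlow : ∀ i < N, d i = y i ∧ r i = 0 ∧ decide (1 / 2 ≤ y i) = false := fun i hi =>
      E.low hi (E.H_pos hH0 hi)
    refine Or.inl ⟨fun i hi => (hlow i hi).2.2, fun k hk hout => ?_⟩
    have hEk : Ep x k := by
      rcases hout with ⟨_, h⟩ | ⟨h, _⟩
      · exact h
      · have := (hlow k hk).2.2
        rw [hx0, h] at this
        exact absurd this (by simp)
    have hg : gm k = 1 := E.gm_one hk fun l hl _ => by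
      rw [(hlow l hl).1, (hP0 l hl).2, (hlow l hl).2.1]
    rcases (hP0 k hk).1 with h | h
    · rw [hg] at h; exact one_ne_zero h
    · exact h.1 hEk
  · have hK : K = u := by
      rw [E.hK, hT1, cl_id (by linarith) (by linarith)]; ring
    have hz' : z = cl (1 - H - u) := by rw [← hK]; exact E.hz
    rcases hHm.1.eq_or_lt with hH0 | hH0
    swap
    · -- home
      have hlow : ∀ i < N, d i = y i ∧ r i = 0 ∧ decide (1 / 2 ≤ y i) = false := fun i hi =>
        E.low hi (E.H_pos hH0 hi)
      refine Or.inl ⟨fun i hi => (hlow i hi).2.2, fun k hk hout => ?_⟩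
      have hno := C3 x (fun i hi => (hlow i hi).2.2)
      have hxf : ∀ i < N, x i = false := fun i hi => (hlow i hi).2.2
      have hyi : ∀ i < N, i ≠ k → y i = 0 := by
        intro i hi hik
        rcases E.act hEp hEm C2 hi with ⟨-, h1, h2, h3, h4⟩ | ⟨-, h0, -⟩ | ⟨-, h0, -⟩
        · rw [hfix i hi h1 h2 h3 h4, (hlow i hi).2.1]
        · exact absurd (Co x i k hi hk (Or.inl ⟨hxf i hi, h0⟩) hout) hik
        · exact absurd (Or.inr ⟨hxf i hi, h0⟩) (hno i hi)
      have hg : gm k = 1 := E.gm_one hk fun l hl hlk => by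
        rw [(hlow l hl).1, hyi l hl hlk]
      have hEk : Ep x k := by
        rcases hout with ⟨_, h⟩ | ⟨h, _⟩
        · exact h
        · rw [hxf k hk] at h
          exact absurd h (by simp)
      have hyk := hy k hk
      have hyk4 := E.H_pos hH0 hk
      rcases E.act hEp hEm C2 hk with ⟨h, -⟩ | ⟨-, -, -, h1, h2, h3, h4⟩ | ⟨-, h0, -⟩
      · rcases h with h | h
        · rw [hg] at h; exact one_ne_zero h
        · exact h.1 hEk
      · rw [h1, h2, h3, h4, hg, (hlow k hk).2.1] at hyk
        rcases le_total z (1 / 4) with hz4 | hz4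
        · have hu1 : u = 1 := by rw [E.hu]; exact cl_one (by linarith)
          have hz0 : z = 0 := by rw [hz', hu1]; exact cl_zero (by linarith)
          have hdn0 : dn = 0 := by rw [E.hdn, hz0]; exact cl_zero (by norm_num)
          have e1 : cl (1 - dn) = 1 := by rw [hdn0]; exact cl_one (by norm_num)
          have e2 : cl (dn + 1 - 1) = 0 := by rw [hdn0]; exact cl_zero (by norm_num)
          rw [e1, e2, cl_one (by norm_num)] at hyk
          linarith
        · have hdn1 : dn = 1 := by rw [E.hdn]; exact cl_one (by linarith)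
          have e1 : cl (1 - dn) = 0 := by rw [hdn1]; exact cl_zero (by norm_num)
          have e2 : cl (dn + 1 - 1) = 1 := by rw [hdn1]; exact cl_one (by norm_num)
          rw [e1, e2, cl_zero (by norm_num)] at hyk
          have hall : ∀ i < N, y i = 0 := fun i hi => by
            by_cases hik : i = k
            · rw [hik]; exact hyk
            · exact hyi i hi hik
          have hH1 := E.H_one hall
          have : z = 0 := by rw [hz', hH1]; exact cl_zero (by linarith)
          linarith
      · exact C2 x k hk ⟨hEk, h0⟩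
    · -- away from home
      have hlev : (z = 0 ∧ dn = 0) ∨ (dn = 1) := by
        rcases le_total z (1 / 4) with hz4 | hz4
        · left
          have hu1 : u = 1 := by rw [E.hu]; exact cl_one (by linarith)
          have hz0 : z = 0 := by rw [hz', hu1]; exact cl_zero (by linarith)
          exact ⟨hz0, by rw [E.hdn, hz0]; exact cl_zero (by norm_num)⟩
        · right
          rw [E.hdn]; exact cl_one (by linarith)
      -- an active push
      obtain ⟨j, hj, hgj, hEj⟩ : ∃ j < N, 0 < gm j ∧ (Ep x j ∨ Em x j) := by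
        by_contra hcon
        push Not at hcon
        have hyr : ∀ i < N, y i = r i := by
          intro i hi
          rcases E.act hEp hEm C2 hi with ⟨-, h1, h2, h3, h4⟩ | ⟨hg, h0, -⟩ | ⟨hg, h0, -⟩
          · exact hfix i hi h1 h2 h3 h4
          · exact absurd h0 (hcon i hi hg).1
          · exact absurd h0 (hcon i hi hg).2
        have hd01 : ∀ i < N, d i = 0 ∨ d i = 1 / 3 := fun i hi => E.fix_d hi (hyr i hi)
        have hex : ∃ j < N, 0 < tp j + tm j := by
          by_contra hcon2
          push Not at hcon2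
          have : T = 0 := by
            rw [E.hT]
            exact cl_zero (Finset.sum_nonpos fun i hi => hcon2 i (mem_range.1 hi))
          linarith
        obtain ⟨j, hj, hpos⟩ := hex
        have hepj := E.hep j hj
        have hemj := E.hem j hj
        have hall : ∀ l < N, l ≠ j → d l = 0 := by
          intro l hl hlj
          rcases hd01 l hl with h | h
          · exact h
          · exfalso
            have h2 := E.d_le_sum hl hlj
            have hfm : fm j = 0 := by rw [E.hfm j hj]; exact cl_zero (by linarith)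
            rw [E.htp j hj, E.htm j hj, hfm, cl_zero (by linarith), cl_zero (by linarith)] at hpos
            linarith
        have hg := E.gm_one hj hall
        have hno := hcon j hj (by rw [hg]; norm_num)
        have hnear : ∀ l < N, l ≠ j → d l < 1 / 4 := fun l hl hlj => by
          rw [hall l hl hlj]; norm_num
        have e1 := (hEp j hj hnear).2 hno.1
        have e2 := (hEm j hj hnear).2 hno.2
        have hfm : fm j ≤ 1 := by rw [E.hfm j hj]; exact cl_le_one _
        rw [E.htp j hj, E.htm j hj, e1, e2, cl_zero (by linarith)] at hpos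
        linarith
      have hs := E.sum_lt_of_gm hj hgj
      have hnear8 : ∀ l < N, l ≠ j → d l < 1 / 8 := fun l hl hlj => by
        have := E.d_le_sum hl hlj
        linarith
      -- the coordinate `j` is near-Boolean as well
      have hdj : d j < 1 / 8 := by
        by_contra hcon
        push Not at hcon
        have hz0 : ∀ i < N, i ≠ j → d i = 0 := by
          intro i hi hij
          have h1 := E.d_le_sum hj (Ne.symm hij)
          have hg0 : gm i = 0 := by rw [E.hgm i hi]; exact cl_zero (by linarith)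
          rcases E.act hEp hEm C2 hi with ⟨-, h1, h2, h3, h4⟩ | ⟨hg, -⟩ | ⟨hg, -⟩
          · have h5 := hfix i hi h1 h2 h3 h4
            rcases E.fix_d hi h5 with h6 | h6
            · exact h6
            · have := hnear8 i hi hij
              rw [h6] at this
              norm_num at this
          · rw [hg0] at hg; exact absurd hg (lt_irrefl _)
          · rw [hg0] at hg; exact absurd hg (lt_irrefl _)
        have hg1 : gm j = 1 := E.gm_one hj hz0
        have hr := E.r_mem hj
        have hyj := hy j hj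
        have hbool : y j = 0 ∨ y j = 1 := by
          rcases E.act hEp hEm C2 hj with ⟨h, -⟩ | ⟨-, -, -, h1, h2, h3, h4⟩ |
            ⟨-, -, -, h1, h2, h3, h4⟩
          · exfalso
            rcases h with h | h
            · rw [hg1] at h; exact one_ne_zero h
            · rcases hEj with h' | h'
              · exact h.1 h'
              · exact h.2 h'
          · rw [h1, h2, h3, h4, hg1] at hyj
            rcases hlev with ⟨-, hdn⟩ | hdn
            · right
              have e1 : cl (1 - dn) = 1 := by rw [hdn]; exact cl_one (by norm_num)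
              have e2 : cl (dn + 1 - 1) = 0 := by rw [hdn]; exact cl_zero (by norm_num)
              rw [hyj, e1, e2]; exact cl_one (by linarith)
            · left
              have e1 : cl (1 - dn) = 0 := by rw [hdn]; exact cl_zero (by norm_num)
              have e2 : cl (dn + 1 - 1) = 1 := by rw [hdn]; exact cl_one (by norm_num)
              rw [hyj, e1, e2]; exact cl_zero (by linarith)
          · rw [h1, h2, h3, h4, hg1] at hyj
            rcases hlev with ⟨-, hdn⟩ | hdn
            · left
              have e1 : cl (1 - dn) = 1 := by rw [hdn]; exact cl_one (by norm_num)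
              have e2 : cl (dn + 1 - 1) = 0 := by rw [hdn]; exact cl_zero (by norm_num)
              rw [hyj, e1, e2]; exact cl_zero (by linarith)
            · right
              have e1 : cl (1 - dn) = 0 := by rw [hdn]; exact cl_zero (by norm_num)
              have e2 : cl (dn + 1 - 1) = 1 := by rw [hdn]; exact cl_one (by norm_num)
              rw [hyj, e1, e2]; exact cl_one (by linarith)
        rcases hbool with h | h
        · rw [E.d_low hj (by rw [h]; norm_num), h] at hcon
          norm_num at hcon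
        · rw [E.d_high hj (by rw [h]; norm_num), h] at hcon
          norm_num at hcon
      have hall8 : ∀ l < N, d l < 1 / 8 := fun l hl => by
        by_cases hlj : l = j
        · rw [hlj]; exact hdj
        · exact hnear8 l hl hlj
      have hvert : ∀ l < N, (y l = d l ∧ r l = 0 ∧ x l = false) ∨
          (y l = 1 - d l ∧ r l = 1 ∧ x l = true) := fun l hl =>
        E.near hl (by have := hall8 l hl; linarith)
      have hd0 : ∀ l < N, y l = r l → d l = 0 := by
        intro l hl h
        rcases E.fix_d hl h with h6 | h6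
        · exact h6
        · have := hall8 l hl
          rw [h6] at this
          norm_num at this
      rcases hlev with ⟨-, hdn⟩ | hdn
      · -- forward level: no outgoing edge
        have hnoout : ∀ k < N, ¬ out Ep Em x k := by
          intro k hk hout
          have hoth : ∀ i < N, i ≠ k → d i = 0 := by
            intro i hi hik
            apply hd0 i hi
            have hg := E.gm_mem hi
            rcases E.act hEp hEm C2 hi with ⟨-, h1, h2, h3, h4⟩ | ⟨hg0, h0, -, h1, h2, h3, h4⟩ |
              ⟨hg0, h0, -, h1, h2, h3, h4⟩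
            · exact hfix i hi h1 h2 h3 h4
            · rcases hvert i hi with ⟨_, hr, hx⟩ | ⟨_, hr, hx⟩
              · exact absurd (Co x i k hi hk (Or.inl ⟨hx, h0⟩) hout) hik
              · have e1 : 0 ≤ a1 i := by rw [h1]; exact cl_nonneg _
                have e2 : b2 i = 0 := by rw [h4, hdn]; exact cl_zero (by linarith)
                rw [hy i hi, hr, h2, h3, e2]
                exact cl_one (by linarith)
            · rcases hvert i hi with ⟨_, hr, hx⟩ | ⟨_, hr, hx⟩
              · have e1 : 0 ≤ b1 i := by rw [h3]; exact cl_nonneg _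
                have e2 : a2 i = 0 := by rw [h2, hdn]; exact cl_zero (by linarith)
                rw [hy i hi, hr, h1, h4, e2]
                exact cl_zero (by linarith)
              · exact absurd (Co x i k hi hk (Or.inr ⟨hx, h0⟩) hout) hik
          have hgk : gm k = 1 := E.gm_one hk hoth
          have hyk := hy k hk
          have hdk := hall8 k hk
          have hdk0 := E.d_nonneg hk
          have e1 : cl (1 - dn) = 1 := by rw [hdn]; exact cl_one (by norm_num)
          have e2 : cl (dn + 1 - 1) = 0 := by rw [hdn]; exact cl_zero (by norm_num)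
          rcases E.act hEp hEm C2 hk with ⟨h, -⟩ | ⟨-, h0, -, h1, h2, h3, h4⟩ |
            ⟨-, h0, -, h1, h2, h3, h4⟩
          · rcases h with h | h
            · rw [hgk] at h; exact one_ne_zero h
            · rcases hout with ⟨_, h'⟩ | ⟨_, h'⟩
              · exact h.1 h'
              · exact h.2 h'
          · rw [h1, h2, h3, h4, hgk, e1, e2] at hyk
            rcases hout with ⟨hx, h'⟩ | ⟨hx, h'⟩
            · rcases hvert k hk with ⟨hyd, hr, _⟩ | ⟨_, _, hx'⟩
              · rw [hr, cl_one (by norm_num)] at hyk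
                linarith
              · rw [hx] at hx'; exact absurd hx' (by simp)
            · exact C2 x k hk ⟨h0, h'⟩
          · rw [h1, h2, h3, h4, hgk, e1, e2] at hyk
            rcases hout with ⟨hx, h'⟩ | ⟨hx, h'⟩
            · exact C2 x k hk ⟨h', h0⟩
            · rcases hvert k hk with ⟨_, _, hx'⟩ | ⟨hyd, hr, _⟩
              · rw [hx] at hx'; exact absurd hx' (by simp)
              · rw [hr, cl_zero (by norm_num)] at hyk
                linarith
        have hinn : inn Ep Em x j := by
          rcases hvert j hj with ⟨_, _, hx⟩ | ⟨_, _, hx⟩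
          · rcases hEj with h | h
            · exact absurd (Or.inl ⟨hx, h⟩) (hnoout j hj)
            · exact Or.inr ⟨hx, h⟩
          · rcases hEj with h | h
            · exact Or.inl ⟨hx, h⟩
            · exact absurd (Or.inr ⟨hx, h⟩) (hnoout j hj)
        by_cases hx0 : ∀ i < N, x i = false
        · exact Or.inl ⟨hx0, hnoout⟩
        · exact Or.inr ⟨hx0, Or.inr ⟨⟨j, hj, hinn⟩, hnoout⟩⟩
      · -- backward level: no incoming edge
        have hnoinn : ∀ k < N, ¬ inn Ep Em x k := by
          intro k hk hout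
          have hoth : ∀ i < N, i ≠ k → d i = 0 := by
            intro i hi hik
            apply hd0 i hi
            have hg := E.gm_mem hi
            rcases E.act hEp hEm C2 hi with ⟨-, h1, h2, h3, h4⟩ | ⟨hg0, h0, -, h1, h2, h3, h4⟩ |
              ⟨hg0, h0, -, h1, h2, h3, h4⟩
            · exact hfix i hi h1 h2 h3 h4
            · rcases hvert i hi with ⟨_, hr, hx⟩ | ⟨_, hr, hx⟩
              · have e1 : 0 ≤ b2 i := by rw [h4]; exact cl_nonneg _
                have e2 : a1 i = 0 := by rw [h1, hdn]; exact cl_zero (by linarith)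
                rw [hy i hi, hr, h2, h3, e2]
                exact cl_zero (by linarith)
              · exact absurd (Ci x i k hi hk (Or.inl ⟨hx, h0⟩) hout) hik
            · rcases hvert i hi with ⟨_, hr, hx⟩ | ⟨_, hr, hx⟩
              · exact absurd (Ci x i k hi hk (Or.inr ⟨hx, h0⟩) hout) hik
              · have e1 : 0 ≤ a2 i := by rw [h2]; exact cl_nonneg _
                have e2 : b1 i = 0 := by rw [h3, hdn]; exact cl_zero (by linarith)
                rw [hy i hi, hr, h1, h4, e2]
                exact cl_one (by linarith)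
          have hgk : gm k = 1 := E.gm_one hk hoth
          have hyk := hy k hk
          have hdk := hall8 k hk
          have hdk0 := E.d_nonneg hk
          have e1 : cl (1 - dn) = 0 := by rw [hdn]; exact cl_zero (by norm_num)
          have e2 : cl (dn + 1 - 1) = 1 := by rw [hdn]; exact cl_one (by norm_num)
          rcases E.act hEp hEm C2 hk with ⟨h, -⟩ | ⟨-, h0, -, h1, h2, h3, h4⟩ |
            ⟨-, h0, -, h1, h2, h3, h4⟩
          · rcases h with h | h
            · rw [hgk] at h; exact one_ne_zero h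
            · rcases hout with ⟨_, h'⟩ | ⟨_, h'⟩
              · exact h.1 h'
              · exact h.2 h'
          · rw [h1, h2, h3, h4, hgk, e1, e2] at hyk
            rcases hout with ⟨hx, h'⟩ | ⟨hx, h'⟩
            · rcases hvert k hk with ⟨_, _, hx'⟩ | ⟨hyd, hr, _⟩
              · rw [hx] at hx'; exact absurd hx' (by simp)
              · rw [hr, cl_zero (by norm_num)] at hyk
                linarith
            · exact C2 x k hk ⟨h0, h'⟩
          · rw [h1, h2, h3, h4, hgk, e1, e2] at hyk
            rcases hout with ⟨hx, h'⟩ | ⟨hx, h'⟩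
            · exact C2 x k hk ⟨h', h0⟩
            · rcases hvert k hk with ⟨hyd, hr, _⟩ | ⟨_, _, hx'⟩
              · rw [hr, cl_one (by norm_num)] at hyk
                linarith
              · rw [hx] at hx'; exact absurd hx' (by simp)
        have hout : out Ep Em x j := by
          rcases hvert j hj with ⟨_, _, hx⟩ | ⟨_, _, hx⟩
          · rcases hEj with h | h
            · exact Or.inl ⟨hx, h⟩
            · exact absurd (Or.inr ⟨hx, h⟩) (hnoinn j hj)
          · rcases hEj with h | h
            · exact absurd (Or.inl ⟨hx, h⟩) (hnoinn j hj)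
            · exact Or.inr ⟨hx, h⟩
        by_cases hx0 : ∀ i < N, x i = false
        · exfalso
          have hall : ∀ i < N, y i = 0 := by
            intro i hi
            have hg := E.gm_mem hi
            have hr : r i = 0 := by
              rcases hvert i hi with ⟨_, hr, _⟩ | ⟨_, _, hx⟩
              · exact hr
              · rw [hx0 i hi] at hx; exact absurd hx (by simp)
            rcases E.act hEp hEm C2 hi with ⟨-, h1, h2, h3, h4⟩ | ⟨hg0, h0, -, h1, h2, h3, h4⟩ |
              ⟨hg0, h0, -, h1, h2, h3, h4⟩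
            · rw [hfix i hi h1 h2 h3 h4, hr]
            · have e1 : 0 ≤ b2 i := by rw [h4]; exact cl_nonneg _
              have e2 : a1 i = 0 := by rw [h1, hdn]; exact cl_zero (by linarith)
              rw [hy i hi, hr, h2, h3, e2]
              exact cl_zero (by linarith)
            · exact absurd (Or.inr ⟨hx0 i hi, h0⟩) (hnoinn i hi)
          have := E.H_one hall
          linarith
        · exact Or.inr ⟨hx0, Or.inl ⟨⟨j, hj, hout⟩, hnoinn⟩⟩

end

end Pool.Agent.H424R2.PPAD.Field
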