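import Pool.Agent.H424R2.PPAD.Sem
import Pool.Agent.H424R2.PPAD.BuildPoly
import Pool.Agent.H424R2.PPAD.ClampPoly

/-!
# `PPAD`-hardness of clamp systems and of panchromatic vertices
-/

namespace Pool.Agent.H424R2.PPAD

open Pool.Agent.NPC

namespace Build

theorem Sf_congr (I : Circ × Circ) (u v : ℕ → Bool) (h : Graph.Agree (eolN I) u v) :
    Graph.Agree (eolN I) (Sf I u) (Sf I v) := by
  have : (List.range (eolN I)).map u = (List.range (eolN I)).map v :=
    List.map_congr_left fun l hl => h l (List.mem_range.1 hl)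
  intro l _
  simp only [Sf, this]

theorem Pf_congr (I : Circ × Circ) (u v : ℕ → Bool) (h : Graph.Agree (eolN I) u v) :
    Graph.Agree (eolN I) (Pf I u) (Pf I v) := by
  have : (List.range (eolN I)).map u = (List.range (eolN I)).map v :=
    List.map_congr_left fun l hl => h l (List.mem_range.1 hl)
  intro l _
  simp only [Pf, this]

theorem map_getD (L : List Bool) (n : ℕ) (h : L.length = n) :
    (List.range n).map (fun i => L.getD i false) = L := by
  apply List.ext_getElem
  · simp [h]
  · intro i h1 h2
    simp only [List.getElem_map, List.getElem_range]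
    exact List.getD_eq_getElem _ _ h2

theorem eval1 (I : Circ × Circ) (u : ℕ → Bool) :
    I.1.eval ((List.range (eolN I)).map u) = (List.range (eolN I)).map (Sf I u) := by
  unfold Sf
  rw [map_getD]
  simp [Circ.eval, eolN]

theorem eval2 (I : Circ × Circ) (hlen : I.2.2.length = eolN I) (u : ℕ → Bool) :
    I.2.eval ((List.range (eolN I)).map u) = (List.range (eolN I)).map (Pf I u) := by
  unfold Pf
  rw [map_getD]
  simp [Circ.eval, hlen]

theorem map_eq_iff (n : ℕ) (u v : ℕ → Bool) :
    (List.range n).map u = (List.range n).map v ↔ Graph.Agree n u v := by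
  rw [List.map_inj_left]
  simp [Graph.Agree]

theorem zeros_eq (n : ℕ) : zeros n = (List.range n).map Graph.zero := by
  unfold zeros Graph.zero
  rw [List.map_const', List.length_range]

theorem correct {I : Circ × Circ} (hI : EOL.Valid I) {y : List (Var × ℚ)}
    (hy : ClampProblem.IsSol (sys I) y) : EOL.IsSol I (answer I y) := by
  obtain ⟨hlen, hP0, hS0⟩ := hI
  obtain ⟨-, hy⟩ := hy
  set X : Var → ℝ := fun v => ((val y v : ℚ) : ℝ) with hXdef
  have hone : X one = 1 := by simp [hXdef, val]
  have hX : ∀ t i j, 0 < t → t ≤ 27 → i < bd I → j < bd I →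
      X (t, i, j) = Field.cl (((eqn I t i j).1.map X).sum - ((eqn I t i j).2.map X).sum) := by
    intro t i j h0 ht hi hj
    have hmem : ((t, i, j), eqn I t i j) ∈ sys I := by
      unfold sys
      rw [List.mem_map]
      exact ⟨(t, i, j), mem_keys h0 ht hi hj, rfl⟩
    have h := hy _ hmem
    simp only at h
    simp only [hXdef]
    rw [h]
    unfold Field.cl
    push_cast
    rw [List.map_map, List.map_map]
    rfl
  have E := eqs I X hone hX
  set x : ℕ → Bool := fun i => decide (1 / 2 ≤ X (vY i)) with hx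
  have hnear : ∀ i < 2 * eolN I + 1, (∀ l < 2 * eolN I + 1, l ≠ i → X (vD l) < 1 / 4) →
      ∀ l < 2 * eolN I + 1, l ≠ i → X (vR l) = b2r (x l) := by
    intro i _ h l hl hli
    rcases E.near hl (h l hl hli) with ⟨_, h2, h3⟩ | ⟨_, h2, h3⟩
    · have h4 : x l = false := h3
      rw [h4]; exact h2
    · have h4 : x l = true := h3
      rw [h4]; exact h2
  have hval : ∀ i < 2 * eolN I + 1, (∀ l < 2 * eolN I + 1, l ≠ i → X (vD l) < 1 / 4) →
      ((Graph.Ep (eolN I) (Sf I) (Pf I) x i → X (vEP i) = 1) ∧
        (¬ Graph.Ep (eolN I) (Sf I) (Pf I) x i → X (vEP i) = 0)) ∧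
      ((Graph.Em (eolN I) (Sf I) (Pf I) x i → X (vEM i) = 1) ∧
        (¬ Graph.Em (eolN I) (Sf I) (Pf I) x i → X (vEM i) = 0)) := by
    intro i hi h
    have hR := hnear i hi h
    rcases Graph.cases_idx hi with h1 | ⟨j, hj, rfl⟩ | rfl
    · exact val_a I X hone hX hlen h1 hR
    · exact val_b I X hone hX hlen hj hR
    · exact val_m I X hone hX hlen hR
  have hP0' : Graph.Agree (eolN I) (Pf I Graph.zero) Graph.zero := by
    rw [zeros_eq, eval2 I hlen, map_eq_iff] at hP0
    exact hP0
  have hS0' : ¬ Graph.Agree (eolN I) (Sf I Graph.zero) Graph.zero := by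
    rw [zeros_eq, eval1 I, Ne, map_eq_iff] at hS0
    exact hS0
  have hmain := E.main (Ep := Graph.Ep (eolN I) (Sf I) (Pf I))
    (Em := Graph.Em (eolN I) (Sf I) (Pf I)) (fun i hi h => (hval i hi h).1)
    (fun i hi h => (hval i hi h).2) (fun x i _ => Graph.C2 x i)
    (fun x i j hi hj => Graph.Co x i j hi hj)
    (fun x i j hi hj => Graph.Ci (Pf_congr I) x i j hi hj)
    (fun x hx => Graph.C3 (Pf_congr I) hP0' x hx)
  have hsol := Graph.solution (Sf_congr I) (Pf_congr I) hS0' x hmain
  have hans : answer I y = (List.range (eolN I)).map x := by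
    unfold answer
    refine List.map_congr_left fun i _ => ?_
    simp only [hx, hXdef]
    rw [decide_eq_decide]
    constructor
    · intro h
      have : (((1 / 2 : ℚ)) : ℝ) ≤ ((val y (vY i) : ℚ) : ℝ) := by exact_mod_cast h
      simpa using this
    · intro h
      have : (((1 / 2 : ℚ)) : ℝ) ≤ ((val y (vY i) : ℚ) : ℝ) := by simpa using h
      exact_mod_cast this
  refine ⟨by simp [answer], ?_⟩
  rw [hans, eval1, eval2 I hlen, eval2 I hlen, eval1, zeros_eq]
  simp only [Ne, map_eq_iff]
  exact hsol

end Build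

/-- End-of-Line reduces to the problem of solving clamp systems. -/
theorem eol_reduces_clamp : EOL.Reduces ClampProblem := by
  refine ⟨fun I => Build.sys I, fun p => Build.answer p.1 p.2, ?_, ?_,
    fun I hI => ⟨Build.sys_valid I, fun y hy => Build.correct hI hy⟩⟩
  · exact PTime.of_poly (α := Circ × Circ) (β := Sys) Build.poly_sys
  · exact PTime.of_poly (α := (Circ × Circ) × List (Var × ℚ)) (β := List Bool)
      Build.poly_answer

/-- Solving clamp systems is `PPAD`-hard. -/
theorem clamp_ppadHard : PPADHard ClampProblem := eol_reduces_clamp.ppadHard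

/-- Finding panchromatic vertices is `PPAD`-hard. -/
theorem panch_ppadHard : PPADHard Panch.problem :=
  (eol_reduces_clamp.trans clamp_reduces_panch).ppadHard

end Pool.Agent.H424R2.PPAD
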