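import Pool.Agent.H424R2.PPAD.Defs
import Pool.Agent.H424R2.PPAD.Facets

/-!
# Panchromatic vertices for square 0-1 polyhedral Sperner colourings: definitions
-/

namespace Pool.Agent.H424R2.PPAD

open Pool.Agent.NPC

namespace Panch

/-- An input: the list of the rows of the 0-1 matrix `A`, the list of the colours of the facets
defined by the inequalities `(Ax)_i ≤ 1`, and the list of the colours of the facets defined by the
inequalities `x_j ≤ 1`.  Rows, columns and colours are numbered from `0` to `n - 1`. -/
abbrev Input := List (List Bool) × List ℕ × List ℕ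

/-- The dimension `n`. -/
def dim (I : Input) : ℕ := I.1.length

/-- The entry `(i, j)` of the matrix `A`, as a real number. -/
def entry (I : Input) (i j : ℕ) : ℝ := if (I.1.getD i []).getD j false = true then 1 else 0

/-- The polyhedron `P = {x ∈ ℝ^n : Ax ≤ 1, x ≤ 1}`. -/
def poly (I : Input) : Set (Fin (dim I) → ℝ) :=
  {x | (∀ i : Fin (dim I), ∑ j : Fin (dim I), entry I i j * x j ≤ 1) ∧ ∀ j, x j ≤ 1}

/-- The face of `P` where the inequality `(Ax)_i ≤ 1` is an equality. -/
def rowFace (I : Input) (i : Fin (dim I)) : Set (Fin (dim I) → ℝ) :=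
  {x ∈ poly I | ∑ j : Fin (dim I), entry I i j * x j = 1}

/-- The face of `P` where the inequality `x_j ≤ 1` is an equality. -/
def bdFace (I : Input) (j : Fin (dim I)) : Set (Fin (dim I) → ℝ) := {x ∈ poly I | x j = 1}

/-- The recession cone of a set. -/
def recCone {n : ℕ} (F : Set (Fin n → ℝ)) : Set (Fin n → ℝ) :=
  {d | ∀ x ∈ F, ∀ t : ℝ, 0 ≤ t → x + t • d ∈ F}

/-- `-e_i` is an extreme direction of `F`: it spans an extreme ray of the recession cone. -/
def IsExtremeDir {n : ℕ} (F : Set (Fin n → ℝ)) (i : Fin n) : Prop :=
  -(Pi.single i 1 : Fin n → ℝ) ∈ recCone F ∧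
    ∀ d₁ ∈ recCone F, ∀ d₂ ∈ recCone F, d₁ + d₂ = -(Pi.single i 1 : Fin n → ℝ) →
      ∃ s : ℝ, d₁ = s • (Pi.single i 1 : Fin n → ℝ)

/-- The colouring of the facets, as listed on the defining inequalities. -/
def HasColour (I : Input) (F : Set (Fin (dim I) → ℝ)) (c : Fin (dim I)) : Prop :=
  IsFacet (poly I) F ∧ ((∃ i, F = rowFace I i ∧ I.2.1.getD i 0 = c) ∨
    ∃ j, F = bdFace I j ∧ I.2.2.getD j 0 = c)

/-- The valid inputs: square 0-1 matrices together with a valid colouring of the facets. -/
structure Valid (I : Input) : Prop where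
  /-- `n ≥ 1` -/
  pos : 0 < dim I
  /-- the matrix is square -/
  square : ∀ r ∈ I.1, r.length = dim I
  /-- all inequalities `(Ax)_i ≤ 1` are given a colour -/
  length_row : I.2.1.length = dim I
  /-- all inequalities `x_j ≤ 1` are given a colour -/
  length_bd : I.2.2.length = dim I
  /-- every facet has exactly one colour -/
  colour : ∀ F, IsFacet (poly I) F → ∃! c, HasColour I F c
  /-- no facet having `-e_i` as an extreme direction has colour `i` -/
  ext : ∀ F i, IsExtremeDir F i → ¬ HasColour I F i
  /-- each colour is assigned to exactly two facets -/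
  two : ∀ c, {F | HasColour I F c}.ncard = 2

/-- `v` is a panchromatic vertex: it is a vertex of `P` and for every colour `c` it lies on some
facet of colour `c`. -/
def IsPanchromatic (I : Input) (v : Fin (dim I) → ℝ) : Prop :=
  v ∈ (poly I).extremePoints ℝ ∧ ∀ c, ∃ F, HasColour I F c ∧ v ∈ F

/-- The search problem: given a square 0-1 matrix and a valid colouring, output (the list of the
coordinates of) a panchromatic vertex, which is a rational vector. -/
def problem : SearchProblem where
  Inst := Input
  Sol := List ℚ
  encInst := inferInstance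
  encSol := inferInstance
  Valid := Valid
  IsSol I y := y.length = dim I ∧ IsPanchromatic I fun i => ((y.getD i 0 : ℚ) : ℝ)

end Panch

end Pool.Agent.H424R2.PPAD
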