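import Pool.Agent.H424R2.PPAD.Panch

/-!
# From systems `x_i = 1 - max(0, ∑_{j ∈ S_i} x_j)` to panchromatic vertices
-/

namespace Pool.Agent.H424R2.PPAD

open Pool.Agent.NPC Panch Set

namespace Relu

variable {ν : Type} [DecidableEq ν]

/-- The matrix `1 + adjacency matrix`. -/
def matrixOf (L : List (ν × List ν)) : List (List Bool) :=
  L.map fun p => L.map fun q => decide (q.1 = p.1 ∨ q.1 ∈ p.2)

/-- The instance. -/
def inputOf (L : List (ν × List ν)) : Input :=
  (matrixOf L, List.range L.length, List.range L.length)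

/-- The conditions on the digraph. -/
structure Good (L : List (ν × List ν)) : Prop where
  pos : L ≠ []
  nodup : (L.map Prod.fst).Nodup
  ne : ∀ p ∈ L, ∃ q ∈ L, q.1 ∈ p.2
  no2 : ∀ p ∈ L, ∀ q ∈ L, q.1 ∈ p.2 → p.1 ∉ q.2

variable (L : List (ν × List ν))

theorem dim_eq : dim (inputOf L) = L.length := by simp [dim, inputOf, matrixOf]

/-- the entry of the list -/
def nd (i : Fin (dim (inputOf L))) : ν × List ν := L[i.1]'(by rw [← dim_eq]; exact i.2)

theorem nd_mem (i) : nd L i ∈ L := List.getElem_mem _

/-- the support of row `i` -/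
def R (i : Fin (dim (inputOf L))) : Finset (Fin (dim (inputOf L))) :=
  Finset.univ.filter fun j => (nd L j).1 = (nd L i).1 ∨ (nd L j).1 ∈ (nd L i).2

theorem entry_eq (i j : Fin (dim (inputOf L))) :
    entry (inputOf L) i j = if j ∈ R L i then 1 else 0 := by
  have hi : i.1 < L.length := by rw [← dim_eq]; exact i.2
  have hj : j.1 < L.length := by rw [← dim_eq]; exact j.2
  have e1 : (matrixOf L).getD i.1 [] =
      L.map fun q => decide (q.1 = (nd L i).1 ∨ q.1 ∈ (nd L i).2) := by
    rw [List.getD_eq_getElem _ _ (by simpa [matrixOf] using hi)]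
    simp [matrixOf, nd]
  unfold entry
  change (if ((matrixOf L).getD i.1 []).getD j.1 false = true then (1 : ℝ) else 0) = _
  rw [e1, List.getD_eq_getElem _ _ (by simpa using hj), List.getElem_map]
  simp [R, nd]

theorem sum_eq (i : Fin (dim (inputOf L))) (x : Fin (dim (inputOf L)) → ℝ) :
    ∑ j : Fin (dim (inputOf L)), entry (inputOf L) i j * x j = ∑ j ∈ R L i, x j := by
  rw [← Finset.sum_filter_add_sum_filter_not Finset.univ (fun j => j ∈ R L i)]
  have h1 : ∑ j ∈ Finset.univ.filter (fun j => j ∉ R L i), entry (inputOf L) i j * x j = 0 := by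
    refine Finset.sum_eq_zero fun j hj => ?_
    rw [Finset.mem_filter] at hj
    rw [entry_eq, if_neg hj.2, zero_mul]
  rw [h1, add_zero]
  have h2 : Finset.univ.filter (fun j => j ∈ R L i) = R L i := by ext; simp
  rw [h2]
  refine Finset.sum_congr rfl fun j hj => ?_
  rw [entry_eq, if_pos hj, one_mul]

variable {L}

theorem nd_inj (h : Good L) {i j : Fin (dim (inputOf L))} (hij : (nd L i).1 = (nd L j).1) :
    i = j := by
  have h1 := h.nodup
  rw [List.nodup_iff_injective_getElem] at h1
  have hi : i.1 < (L.map Prod.fst).length := by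
    rw [List.length_map, ← dim_eq]; exact i.2
  have hj : j.1 < (L.map Prod.fst).length := by
    rw [List.length_map, ← dim_eq]; exact j.2
  have := @h1 ⟨i.1, hi⟩ ⟨j.1, hj⟩ (by simpa [nd] using hij)
  simp only [Fin.mk.injEq] at this
  exact Fin.ext this

theorem self_mem (i) : i ∈ R L i := by simp [R]

theorem exists_idx {p : ν × List ν} (hp : p ∈ L) : ∃ i, nd L i = p := by
  obtain ⟨k, hk, rfl⟩ := List.mem_iff_getElem.1 hp
  exact ⟨⟨k, by rw [dim_eq]; exact hk⟩, rfl⟩

theorem not_self (h : Good L) (i) : (nd L i).1 ∉ (nd L i).2 := fun hc =>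
  h.no2 _ (nd_mem L i) _ (nd_mem L i) hc hc

theorem exists_adj (h : Good L) (i) : ∃ j, j ≠ i ∧ j ∈ R L i := by
  obtain ⟨q, hq, hq2⟩ := h.ne _ (nd_mem L i)
  obtain ⟨j, rfl⟩ := exists_idx hq
  refine ⟨j, ?_, by simp [R, hq2]⟩
  rintro rfl
  exact not_self h _ hq2

theorem card_ge (h : Good L) (i) : 2 ≤ (R L i).card := by
  obtain ⟨j, hj, hj2⟩ := exists_adj h i
  have : ({i, j} : Finset _) ⊆ R L i := by
    intro k hk
    simp only [Finset.mem_insert, Finset.mem_singleton] at hk
    rcases hk with rfl | rfl
    · exact self_mem _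
    · exact hj2
  have h2 := Finset.card_le_card this
  rwa [Finset.card_pair hj.symm] at h2

theorem R_ne (h : Good L) {i k} (hik : k ≠ i) : R L k ≠ R L i := by
  intro he
  have h1 : i ∈ R L k := by rw [he]; exact self_mem _
  have h2 : k ∈ R L i := by rw [← he]; exact self_mem _
  simp only [R, Finset.mem_filter, Finset.mem_univ, true_and] at h1 h2
  rcases h1 with h1 | h1
  · exact hik (nd_inj h h1).symm
  rcases h2 with h2 | h2
  · exact hik (nd_inj h h2)
  exact h.no2 _ (nd_mem L k) _ (nd_mem L i) h1 h2

variable (L) in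
/-- the linear forms -/
noncomputable def ell : (Fin (dim (inputOf L)) ⊕ Fin (dim (inputOf L))) →
    (Fin (dim (inputOf L)) → ℝ) →L[ℝ] ℝ
  | Sum.inl i => ∑ j ∈ R L i, ContinuousLinearMap.proj j
  | Sum.inr j => ContinuousLinearMap.proj j

theorem ell_inl (i) (x : Fin (dim (inputOf L)) → ℝ) : ell L (Sum.inl i) x = ∑ j ∈ R L i, x j := by
  simp [ell]

theorem ell_inr (i) (x : Fin (dim (inputOf L)) → ℝ) : ell L (Sum.inr i) x = x i := rfl

theorem poly_eq : poly (inputOf L) = Facets.PP (ell L) := by
  ext x
  simp only [poly, Facets.PP, Set.mem_setOf_eq, Sum.forall, ell_inl, ell_inr, sum_eq]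

theorem rowFace_eq (i) : rowFace (inputOf L) i = Facets.fc (ell L) (Sum.inl i) := by
  ext x
  simp only [rowFace, Facets.fc, Set.mem_setOf_eq, ell_inl, sum_eq, poly_eq]

theorem bdFace_eq (i) : bdFace (inputOf L) i = Facets.fc (ell L) (Sum.inr i) := by
  ext x
  simp only [bdFace, Facets.fc, Set.mem_setOf_eq, ell_inr, poly_eq]

variable (L) in
/-- the points showing irredundancy -/
noncomputable def pt : (Fin (dim (inputOf L)) ⊕ Fin (dim (inputOf L))) →
    (Fin (dim (inputOf L)) → ℝ)
  | Sum.inl i => fun j => if j ∈ R L i then ((R L i).card : ℝ)⁻¹ else -1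
  | Sum.inr i => fun j => if j = i then 1 else -1

theorem ell_pt (h : Good L) (k) : ell L k (pt L k) = 1 := by
  rcases k with i | i
  · rw [ell_inl]
    have hc := card_ge h i
    have : ∀ j ∈ R L i, pt L (Sum.inl i) j = ((R L i).card : ℝ)⁻¹ := by
      intro j hj; simp [pt, hj]
    rw [Finset.sum_congr rfl this, Finset.sum_const, nsmul_eq_mul]
    field_simp
  · rw [ell_inr]; simp [pt]

theorem ell_pt_lt (h : Good L) (k) : ∀ j, j ≠ k → ell L j (pt L k) < 1 := by
  rcases k with i | i
  · have hc := card_ge h i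
    have hc' : (2 : ℝ) ≤ (R L i).card := by exact_mod_cast hc
    rintro (k | k) hk
    · have hk' : k ≠ i := fun e => hk (by rw [e])
      rw [ell_inl]
      by_cases hsub : R L k ⊆ R L i
      · have hss : R L k ⊂ R L i := lt_of_le_of_ne hsub (R_ne h hk')
        have h1 : ∀ j ∈ R L k, pt L (Sum.inl i) j = ((R L i).card : ℝ)⁻¹ := by
          intro j hj; simp [pt, hsub hj]
        rw [Finset.sum_congr rfl h1, Finset.sum_const, nsmul_eq_mul]
        have h2 : ((R L k).card : ℝ) < (R L i).card := by exact_mod_cast Finset.card_lt_card hss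
        rw [← div_eq_mul_inv, div_lt_one (by linarith)]
        exact h2
      · obtain ⟨j0, hj0, hj1⟩ := Finset.not_subset.1 hsub
        rw [← Finset.add_sum_erase _ _ hj0]
        have h1 : pt L (Sum.inl i) j0 = -1 := by simp [pt, hj1]
        have h2 : ∑ j ∈ (R L k).erase j0, pt L (Sum.inl i) j ≤
            ∑ j ∈ R L i, ((R L i).card : ℝ)⁻¹ := by
          calc ∑ j ∈ (R L k).erase j0, pt L (Sum.inl i) j
              ≤ ∑ j ∈ (R L k).erase j0, (if j ∈ R L i then ((R L i).card : ℝ)⁻¹ else 0) := by
                refine Finset.sum_le_sum fun j _ => ?_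
                simp only [pt]
                split_ifs
                · exact le_rfl
                · norm_num
            _ ≤ ∑ j, (if j ∈ R L i then ((R L i).card : ℝ)⁻¹ else 0) := by
                refine Finset.sum_le_sum_of_subset_of_nonneg (Finset.subset_univ _)
                  fun j _ _ => ?_
                split_ifs
                · positivity
                · exact le_rfl
            _ = ∑ j ∈ R L i, ((R L i).card : ℝ)⁻¹ := by
                rw [Finset.sum_ite_mem, Finset.univ_inter]
        have h3 : ∑ j ∈ R L i, ((R L i).card : ℝ)⁻¹ = 1 := by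
          rw [Finset.sum_const, nsmul_eq_mul]
          field_simp
        rw [h1]
        linarith
    · rw [ell_inr]
      simp only [pt]
      split_ifs
      · rw [inv_lt_one₀ (by linarith)]
        linarith
      · norm_num
  · rintro (k | k) hk
    · rw [ell_inl]
      obtain ⟨j0, hj0, hj1⟩ : ∃ j0 ∈ R L k, j0 ≠ i := by
        obtain ⟨j, hj, hj2⟩ := exists_adj h k
        by_cases hki : k = i
        · exact ⟨j, hj2, by rw [← hki]; exact hj⟩
        · exact ⟨k, self_mem _, hki⟩
      rw [← Finset.add_sum_erase _ _ hj0]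
      have h1 : pt L (Sum.inr i) j0 = -1 := by simp [pt, hj1]
      have h2 : ∑ j ∈ (R L k).erase j0, pt L (Sum.inr i) j ≤ 1 := by
        calc ∑ j ∈ (R L k).erase j0, pt L (Sum.inr i) j
            ≤ ∑ j ∈ (R L k).erase j0, (if j = i then (1 : ℝ) else 0) := by
              refine Finset.sum_le_sum fun j _ => ?_
              simp only [pt]
              split_ifs
              · exact le_rfl
              · norm_num
          _ ≤ ∑ j, (if j = i then (1 : ℝ) else 0) := by
              refine Finset.sum_le_sum_of_subset_of_nonneg (Finset.subset_univ _)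
                fun j _ _ => ?_
              split_ifs <;> norm_num
          _ = 1 := by simp
      rw [h1]
      linarith
    · have hk' : k ≠ i := fun e => hk (by rw [e])
      rw [ell_inr]
      simp [pt, hk']

theorem facet_row (h : Good L) (i) : IsFacet (poly (inputOf L)) (rowFace (inputOf L) i) := by
  rw [poly_eq, rowFace_eq]
  exact Facets.isFacet_fc (ell_pt h _) (ell_pt_lt h _)

theorem facet_bd (h : Good L) (i) : IsFacet (poly (inputOf L)) (bdFace (inputOf L) i) := by
  rw [poly_eq, bdFace_eq]
  exact Facets.isFacet_fc (ell_pt h _) (ell_pt_lt h _)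

theorem pt_mem (h : Good L) (k) : pt L k ∈ Facets.fc (ell L) k := by
  refine ⟨fun j => ?_, ell_pt h k⟩
  by_cases hj : j = k
  · rw [hj]; exact (ell_pt h k).le
  · exact (ell_pt_lt h k j hj).le

theorem fc_inj (h : Good L) {k k'} (he : Facets.fc (ell L) k = Facets.fc (ell L) k') :
    k = k' := by
  by_contra hne
  have h1 := pt_mem h k
  rw [he] at h1
  exact (ell_pt_lt h k k' (Ne.symm hne)).ne h1.2

theorem facet_cases (h : Good L) {F} (hF : IsFacet (poly (inputOf L)) F) :
    (∃ i, F = rowFace (inputOf L) i) ∨ ∃ i, F = bdFace (inputOf L) i := by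
  rw [poly_eq] at hF
  obtain ⟨k, hk⟩ := Facets.eq_of_isFacet hF (ell_pt h)
  rcases k with i | i
  · left; exact ⟨i, by rw [rowFace_eq, hk]⟩
  · right; exact ⟨i, by rw [bdFace_eq, hk]⟩

theorem col_row (i : Fin (dim (inputOf L))) : (inputOf L).2.1.getD i 0 = i := by
  have hi : i.1 < L.length := by rw [← dim_eq]; exact i.2
  simp [inputOf, List.getD_eq_getElem?_getD, hi]

theorem col_bd (i : Fin (dim (inputOf L))) : (inputOf L).2.2.getD i 0 = i := by
  have hi : i.1 < L.length := by rw [← dim_eq]; exact i.2
  simp [inputOf, List.getD_eq_getElem?_getD, hi]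

theorem hasColour_iff (h : Good L) (F c) :
    HasColour (inputOf L) F c ↔ F = rowFace (inputOf L) c ∨ F = bdFace (inputOf L) c := by
  constructor
  · rintro ⟨-, ⟨i, hi, hc⟩ | ⟨i, hi, hc⟩⟩
    · rw [col_row] at hc
      left; rw [hi, Fin.ext hc]
    · rw [col_bd] at hc
      right; rw [hi, Fin.ext hc]
  · rintro (rfl | rfl)
    · exact ⟨facet_row h c, Or.inl ⟨c, rfl, col_row c⟩⟩
    · exact ⟨facet_bd h c, Or.inr ⟨c, rfl, col_bd c⟩⟩

theorem valid (h : Good L) : Valid (inputOf L) where
  pos := by rw [dim_eq]; exact List.length_pos_iff.2 h.pos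
  square := by
    intro r hr
    simp only [inputOf, matrixOf, List.mem_map] at hr
    obtain ⟨p, _, rfl⟩ := hr
    rw [dim_eq, List.length_map]
  length_row := by rw [dim_eq]; simp [inputOf]
  length_bd := by rw [dim_eq]; simp [inputOf]
  colour := by
    intro F hF
    rcases facet_cases h hF with ⟨i, rfl⟩ | ⟨i, rfl⟩
    · refine ⟨i, (hasColour_iff h _ _).2 (Or.inl rfl), fun c hc => ?_⟩
      rcases (hasColour_iff h _ _).1 hc with hc | hc
      · rw [rowFace_eq, rowFace_eq] at hc
        simpa using (fc_inj h hc).symm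
      · rw [rowFace_eq, bdFace_eq] at hc
        simpa using (fc_inj h hc).symm
    · refine ⟨i, (hasColour_iff h _ _).2 (Or.inr rfl), fun c hc => ?_⟩
      rcases (hasColour_iff h _ _).1 hc with hc | hc
      · rw [rowFace_eq, bdFace_eq] at hc
        simpa using (fc_inj h hc).symm
      · rw [bdFace_eq, bdFace_eq] at hc
        simpa using (fc_inj h hc).symm
  ext := by
    intro F i hext hcol
    have hd := hext.1
    rcases (hasColour_iff h _ _).1 hcol with rfl | rfl
    · rw [rowFace_eq] at hd
      have := (hd _ (pt_mem h (Sum.inl i)) 1 zero_le_one).2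
      rw [map_add, ell_pt h, one_smul, map_neg, ell_inl] at this
      have e : ∑ j ∈ R L i, (Pi.single i 1 : Fin (dim (inputOf L)) → ℝ) j = 1 := by
        rw [Finset.sum_eq_single i]
        · simp
        · intro b _ hb
          simp [hb]
        · intro hi
          exact absurd (self_mem i) hi
      rw [e] at this
      norm_num at this
    · rw [bdFace_eq] at hd
      have := (hd _ (pt_mem h (Sum.inr i)) 1 zero_le_one).2
      rw [map_add, ell_pt h, one_smul, map_neg, ell_inr] at this
      simp at this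
  two := by
    intro c
    have : {F | HasColour (inputOf L) F c} = {rowFace (inputOf L) c, bdFace (inputOf L) c} := by
      ext F
      rw [Set.mem_setOf_eq, hasColour_iff h]
      rfl
    rw [this, Set.ncard_pair]
    intro he
    rw [rowFace_eq, bdFace_eq] at he
    simpa using fc_inj h he

/-- Panchromatic vertices satisfy the equations. -/
theorem equations (h : Good L) {v : Fin (dim (inputOf L)) → ℝ}
    (hv : IsPanchromatic (inputOf L) v) (i : Fin (dim (inputOf L))) :
    v i = 1 - max 0 (∑ j ∈ (R L i).erase i, v j) := by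
  have hP : v ∈ poly (inputOf L) := (extremePoints_subset hv.1)
  rw [poly_eq] at hP
  have h1 := hP (Sum.inl i)
  have h2 := hP (Sum.inr i)
  rw [ell_inl] at h1
  rw [ell_inr] at h2
  rw [← Finset.add_sum_erase _ _ (self_mem i)] at h1
  obtain ⟨F, hF, hvF⟩ := hv.2 i
  rcases (hasColour_iff h _ _).1 hF with rfl | rfl
  · rw [rowFace_eq] at hvF
    have h3 := hvF.2
    rw [ell_inl, ← Finset.add_sum_erase _ _ (self_mem i)] at h3
    rw [max_eq_right (by linarith)]
    linarith
  · rw [bdFace_eq] at hvF
    have h3 := hvF.2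
    rw [ell_inr] at h3
    rw [max_eq_left (by linarith), h3]
    ring

end Relu

end Pool.Agent.H424R2.PPAD
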