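import Pool.Agent.H424R2.PPAD.Circuit

/-!
# Semantics of the clamp system of an instance of End-of-Line
-/

namespace Pool.Agent.H424R2.PPAD

open Pool.Agent.NPC

namespace Build

open Pool.Agent.H424R2.PPAD.Field (cl)

/-- real value of a bit -/
def b2r (b : Bool) : ℝ := if b then 1 else 0

@[simp] theorem b2r_true : b2r true = 1 := rfl
@[simp] theorem b2r_false : b2r false = 0 := rfl

theorem b2r_nonneg (b : Bool) : 0 ≤ b2r b := by cases b <;> simp
theorem b2r_le (b : Bool) : b2r b ≤ 1 := by cases b <;> simp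

theorem cl_b2r (b : Bool) : cl (b2r b) = b2r b := by
  cases b
  · exact Field.cl_zero (by simp)
  · exact Field.cl_one (by simp)

theorem cl_sub_b2r (u v : Bool) : cl (b2r u - b2r v) = b2r (u && !v) := by
  cases u <;> cases v <;> simp only [b2r_true, b2r_false, Bool.not_true, Bool.not_false,
    Bool.and_true, Bool.and_false]
  · exact Field.cl_zero (by norm_num)
  · exact Field.cl_zero (by norm_num)
  · exact Field.cl_one (by norm_num)
  · exact Field.cl_zero (by norm_num)

theorem cl_nand (u v : Bool) : cl (1 + (1 + 0) - (b2r u + b2r v)) = b2r (!(u && v)) := by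
  cases u <;> cases v <;> simp only [b2r_true, b2r_false, Bool.not_true, Bool.not_false,
    Bool.and_true, Bool.and_false]
  · exact Field.cl_one (by norm_num)
  · exact Field.cl_one (by norm_num)
  · exact Field.cl_one (by norm_num)
  · exact Field.cl_zero (by norm_num)

theorem sum_range_list (N : ℕ) (f : ℕ → ℝ) :
    ((List.range N).map f).sum = ∑ i ∈ Finset.range N, f i := by
  induction N with
  | zero => simp
  | succ N ih => rw [List.range_succ, List.map_append, List.sum_append, Finset.sum_range_succ, ih]; simp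

theorem sum_flatMap (X : Var → ℝ) (l : List ℕ) (f : ℕ → List Var) :
    ((l.flatMap f).map X).sum = (l.map fun a => ((f a).map X).sum).sum := by
  induction l with
  | nil => simp
  | cons a l ih => simp [List.flatMap_cons, ih]

theorem sum_range_flatMap (X : Var → ℝ) (N : ℕ) (f : ℕ → List Var) :
    (((List.range N).flatMap f).map X).sum = ∑ l ∈ Finset.range N, ((f l).map X).sum := by
  rw [sum_flatMap, sum_range_list]

theorem cl_bit_sum {n : ℕ} {t : ℕ → ℝ} (ht : ∀ l < n, t l = 0 ∨ t l = 1) :
    (∑ l ∈ Finset.range n, t l = 0 ∧ ∀ l < n, t l = 0) ∨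
    (1 ≤ ∑ l ∈ Finset.range n, t l ∧ ∃ l < n, t l = 1) := by
  by_cases h : ∀ l < n, t l = 0
  · left
    exact ⟨Finset.sum_eq_zero fun l hl => h l (Finset.mem_range.1 hl), h⟩
  · right
    push Not at h
    obtain ⟨l, hl, hne⟩ := h
    have h1 : t l = 1 := (ht l hl).resolve_left hne
    refine ⟨?_, l, hl, h1⟩
    rw [← h1]
    refine Finset.single_le_sum (f := t) (fun k hk => ?_) (Finset.mem_range.2 hl)
    rcases ht k (Finset.mem_range.1 hk) with h | h <;> rw [h]
    norm_num

section

variable (I : Circ × Circ) (X : Var → ℝ) (hone : X one = 1)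
  (hX : ∀ t i j, 0 < t → t ≤ 27 → i < bd I → j < bd I →
    X (t, i, j) = cl (((eqn I t i j).1.map X).sum - ((eqn I t i j).2.map X).sum))

theorem bd_ge : 18 < bd I := by unfold bd; omega

theorem lt_bd {i : ℕ} (h : i < 2 * eolN I + 1) : i < bd I := by unfold bd; omega

include hone hX

/-- the field equations hold -/
theorem eqs : Field.Eqs (2 * eolN I + 1) (fun i => X (vY i)) (fun i => X (vR i))
    (fun i => X (vQ i)) (fun i => X (vD i)) (fun i => X (vFM i)) (fun i => X (vGM i))
    (fun i => X (vTP i)) (fun i => X (vTM i)) (fun i => X (vEP i)) (fun i => X (vEM i))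
    (fun i => X (vA1 i)) (fun i => X (vA2 i)) (fun i => X (vB1 i)) (fun i => X (vB2 i))
    (X vZ) (X vU) (X vDN) (X vUP) (X vT) (X vH) (X vK) := by
  have h18 := bd_ge I
  have h0 : 0 < bd I := by omega
  have hoth : ∀ i, ((others (2 * eolN I + 1) i).map X).sum =
      8 * ∑ l ∈ (Finset.range (2 * eolN I + 1)).erase i, X (vD l) := by
    intro i
    unfold others
    rw [sum_range_flatMap, Finset.mul_sum]
    rw [← Finset.sum_subset (Finset.erase_subset i (Finset.range (2 * eolN I + 1)))]
    · refine Finset.sum_congr rfl fun l hl => ?_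
      rw [Finset.mem_erase] at hl
      rw [if_neg hl.1, List.map_replicate, List.sum_replicate]
      simp
    · intro l hl hl2
      have : l = i := by
        by_contra h
        exact hl2 (Finset.mem_erase.2 ⟨h, hl⟩)
      rw [if_pos this]
      simp
  constructor
  case hy =>
    intro i hi
    have := hX 1 i 0 (by norm_num) (by norm_num) (lt_bd I hi) h0
    simp only [eqn, if_true, List.map_cons, List.map_nil, List.sum_cons, List.sum_nil] at this
    change X (1, i, 0) = _
    rw [this]; congr 1; ring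
  case hr =>
    intro i hi
    have := hX 3 i 0 (by norm_num) (by norm_num) (lt_bd I hi) h0
    simp [eqn, hone] at this
    change X (3, i, 0) = _
    rw [this]; congr 1; ring
  case hq =>
    intro i hi
    have := hX 4 i 0 (by norm_num) (by norm_num) (lt_bd I hi) h0
    simp [eqn, hone] at this
    change X (4, i, 0) = _
    rw [this]; congr 1; ring
  case hd =>
    intro i hi
    have := hX 5 i 0 (by norm_num) (by norm_num) (lt_bd I hi) h0
    simp [eqn] at this
    change X (5, i, 0) = _
    rw [this]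
  case hfm =>
    intro i hi
    have := hX 6 i 0 (by norm_num) (by norm_num) (lt_bd I hi) h0
    simp [eqn, hone, hoth] at this
    change X (6, i, 0) = _
    rw [this]; congr 1; ring
  case hgm =>
    intro i hi
    have := hX 7 i 0 (by norm_num) (by norm_num) (lt_bd I hi) h0
    simp [eqn, hone, hoth] at this
    change X (7, i, 0) = _
    rw [this]
  case htp =>
    intro i hi
    have := hX 11 i 0 (by norm_num) (by norm_num) (lt_bd I hi) h0
    simp [eqn, hone] at this
    change X (11, i, 0) = _
    rw [this]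
  case htm =>
    intro i hi
    have := hX 12 i 0 (by norm_num) (by norm_num) (lt_bd I hi) h0
    simp [eqn, hone] at this
    change X (12, i, 0) = _
    rw [this]
  case hT =>
    have := hX 13 0 0 (by norm_num) (by norm_num) h0 h0
    simp [eqn, sum_range_flatMap] at this
    change X (13, 0, 0) = _
    rw [this]
  case hH =>
    have := hX 14 0 0 (by norm_num) (by norm_num) h0 h0
    simp [eqn, sum_range_flatMap, hone] at this
    change X (14, 0, 0) = _
    rw [this, Finset.mul_sum]
    congr 1
    norm_num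
    refine Finset.sum_congr rfl fun l _ => ?_
    ring
  case hu =>
    have := hX 8 0 0 (by norm_num) (by norm_num) h0 h0
    simp [eqn, hone] at this
    change X (8, 0, 0) = _
    rw [this]; congr 1; ring
  case hdn =>
    have := hX 9 0 0 (by norm_num) (by norm_num) h0 h0
    simp [eqn] at this
    change X (9, 0, 0) = _
    rw [this]; congr 1; ring
  case hU =>
    have := hX 10 0 0 (by norm_num) (by norm_num) h0 h0
    simp [eqn, hone] at this
    change X (10, 0, 0) = _
    rw [this]; congr 1; ring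
  case hK =>
    have := hX 15 0 0 (by norm_num) (by norm_num) h0 h0
    simp [eqn, hone] at this
    change X (15, 0, 0) = _
    rw [this]
  case hz =>
    have := hX 2 0 0 (by norm_num) (by norm_num) h0 h0
    simp [eqn, hone] at this
    change X (2, 0, 0) = _
    rw [this]; congr 1; ring
  case ha1 =>
    intro i hi
    have := hX 16 i 0 (by norm_num) (by norm_num) (lt_bd I hi) h0
    simp [eqn, hone] at this
    change X (16, i, 0) = _
    rw [this]; congr 1; ring
  case ha2 =>
    intro i hi
    have := hX 17 i 0 (by norm_num) (by norm_num) (lt_bd I hi) h0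
    simp [eqn, hone] at this
    change X (17, i, 0) = _
    rw [this]; congr 1; ring
  case hb1 =>
    intro i hi
    have := hX 18 i 0 (by norm_num) (by norm_num) (lt_bd I hi) h0
    simp [eqn, hone] at this
    change X (18, i, 0) = _
    rw [this]; congr 1; ring
  case hb2 =>
    intro i hi
    have := hX 19 i 0 (by norm_num) (by norm_num) (lt_bd I hi) h0
    simp [eqn, hone] at this
    change X (19, i, 0) = _
    rw [this]; congr 1; ring
  case hep =>
    intro i hi
    have := hX 20 i 0 (by norm_num) (by norm_num) (lt_bd I hi) h0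
    change 0 ≤ X (20, i, 0) ∧ X (20, i, 0) ≤ 1
    rw [this]
    exact ⟨Field.cl_nonneg _, Field.cl_le_one _⟩
  case hem =>
    intro i hi
    have := hX 21 i 0 (by norm_num) (by norm_num) (lt_bd I hi) h0
    change 0 ≤ X (21, i, 0) ∧ X (21, i, 0) ≤ 1
    rw [this]
    exact ⟨Field.cl_nonneg _, Field.cl_le_one _⟩

omit hone in
/-- value of a reference to a wire -/
theorem ref_sum {c : ℕ} {β : ℕ → Bool} {L : List Bool} (hL : L = (List.range (eolN I)).map β)
    (hin : ∀ w < eolN I, X (inp (eolN I) c w) = b2r (β w)) {j : ℕ}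
    (hW : ∀ j' < j, X (vW c j') = b2r (((circ I c).wires L).getD (eolN I + j') false)) (w : ℕ) :
    ((ref (eolN I) c w j).map X).sum =
      b2r (if w < eolN I + j then ((circ I c).wires L).getD w false else false) := by
  have hLl : L.length = eolN I := by rw [hL]; simp
  unfold ref
  by_cases h1 : w < eolN I
  · rw [if_pos h1, if_pos (by omega)]
    simp only [List.map_cons, List.map_nil, List.sum_cons, List.sum_nil, add_zero]
    rw [hin w h1, Circuit.wires_eq, Circuit.F_input _ _ (by omega), hL]
    congr 1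
    simp [List.getD_eq_getElem?_getD, h1]
  · rw [if_neg h1]
    by_cases h2 : w < eolN I + j
    · rw [if_pos h2, if_pos h2]
      simp only [List.map_cons, List.map_nil, List.sum_cons, List.sum_nil, add_zero]
      rw [hW (w - eolN I) (by omega)]
      congr 2
      omega
    · rw [if_neg h2, if_neg h2]
      simp

theorem gate_val {c : ℕ} (hc : c < 4) {β : ℕ → Bool} {L : List Bool}
    (hL : L = (List.range (eolN I)).map β)
    (hin : ∀ w < eolN I, X (inp (eolN I) c w) = b2r (β w)) {j : ℕ}
    (hj : j < (circ I c).1.length) :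
    X (vW c j) = b2r (((circ I c).wires L).getD (eolN I + j) false) := by
  induction j using Nat.strong_induction_on with
  | _ j ih =>
    have h18 := bd_ge I
    have hlen : (circ I c).1.length ≤ I.1.1.length + I.2.1.length := by
      unfold circ; split_ifs <;> omega
    have hjb : j < bd I := by unfold bd; omega
    have h := hX 22 c j (by norm_num) (by norm_num) (by omega) hjb
    have hLl : L.length = eolN I := by rw [hL]; simp
    have hW : ∀ j' < j, X (vW c j') = b2r (((circ I c).wires L).getD (eolN I + j') false) :=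
      fun j' hj' => ih j' hj' (by omega)
    simp only [eqn, Nat.reduceEqDiff, if_false, if_true, List.map_cons, List.map_nil,
      List.sum_cons, List.sum_nil, hone, List.map_append, List.sum_append,
      ref_sum I X hX hL hin hW] at h
    change X (22, c, j) = _
    rw [h, cl_nand, Circuit.wires_eq]
    have := Circuit.F_gate (circ I c).1 L hj
    rw [hLl] at this
    rw [this]

theorem out_val {c : ℕ} (hc : c < 4) {β : ℕ → Bool} {L : List Bool}
    (hL : L = (List.range (eolN I)).map β)
    (hin : ∀ w < eolN I, X (inp (eolN I) c w) = b2r (β w)) {l : ℕ} (hlb : l < bd I)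
    (hl : l < (circ I c).2.length) :
    X (vO c l) = b2r (((circ I c).eval L).getD l false) := by
  have h18 := bd_ge I
  have h := hX 24 c l (by norm_num) (by norm_num) (by omega) hlb
  have hLl : L.length = eolN I := by rw [hL]; simp
  have hW : ∀ j' < (circ I c).1.length,
      X (vW c j') = b2r (((circ I c).wires L).getD (eolN I + j') false) :=
    fun j' hj' => gate_val I X hone hX hc hL hin hj'
  simp only [eqn, Nat.reduceEqDiff, if_false, if_true, List.map_nil, List.sum_nil,
    ref_sum I X hX hL hin hW, sub_zero, cl_b2r] at h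
  change X (24, c, l) = _
  rw [h]
  congr 1
  have e1 : ((circ I c).eval L).getD l false =
      ((circ I c).wires L).getD ((circ I c).2.getD l 0) false := by
    unfold Circ.eval
    rw [List.getD_eq_getElem _ _ (by simpa using hl), List.getElem_map,
      List.getD_eq_getElem _ _ hl]
  rw [e1]
  split_ifs with h2
  · rfl
  · rw [Circuit.getD_ge]
    rw [Circuit.wires_eq, Circuit.F_length, hLl]
    omega

end

/-- the successor function on bit vectors -/
def Sf (I : Circ × Circ) (a : ℕ → Bool) : ℕ → Bool := fun i =>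
  (I.1.eval ((List.range (eolN I)).map a)).getD i false

/-- the predecessor function on bit vectors -/
def Pf (I : Circ × Circ) (a : ℕ → Bool) : ℕ → Bool := fun i =>
  (I.2.eval ((List.range (eolN I)).map a)).getD i false

section

variable (I : Circ × Circ) (X : Var → ℝ) (hone : X one = 1)
  (hX : ∀ t i j, 0 < t → t ≤ 27 → i < bd I → j < bd I →
    X (t, i, j) = cl (((eqn I t i j).1.map X).sum - ((eqn I t i j).2.map X).sum))
  (hlen : I.2.2.length = eolN I)

include hone hX in
theorem val_O0 {a : ℕ → Bool} (ha : ∀ w < eolN I, X (vR w) = b2r (a w)) {l : ℕ}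
    (hl : l < eolN I) : X (vO 0 l) = b2r (Sf I a l) := by
  have h := out_val I X hone hX (c := 0) (by norm_num) (β := a) rfl
    (fun w hw => by simpa [inp] using ha w hw) (l := l) (by unfold bd; omega)
    (by simpa [circ, eolN] using hl)
  simpa [circ, Sf] using h

include hone hX hlen in
theorem val_O1 {a : ℕ → Bool} (ha : ∀ w < eolN I, X (vR w) = b2r (a w)) {l : ℕ}
    (hl : l < eolN I) : X (vO 1 l) = b2r (Pf I (Sf I a) l) := by
  have h := out_val I X hone hX (c := 1) (by norm_num) (β := Sf I a) rfl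
    (fun w hw => by simpa [inp] using val_O0 I X hone hX ha hw) (l := l) (by unfold bd; omega)
    (by simpa [circ, hlen] using hl)
  simpa [circ, Pf] using h

include hone hX hlen in
theorem val_O2 {b : ℕ → Bool} (hb : ∀ w < eolN I, X (vR (eolN I + w)) = b2r (b w)) {l : ℕ}
    (hl : l < eolN I) : X (vO 2 l) = b2r (Pf I b l) := by
  have h := out_val I X hone hX (c := 2) (by norm_num) (β := b) rfl
    (fun w hw => by simpa [inp] using hb w hw) (l := l) (by unfold bd; omega)
    (by simpa [circ, hlen] using hl)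
  simpa [circ, Pf] using h

include hone hX hlen in
theorem val_O3 {b : ℕ → Bool} (hb : ∀ w < eolN I, X (vR (eolN I + w)) = b2r (b w)) {l : ℕ}
    (hl : l < eolN I) : X (vO 3 l) = b2r (Sf I (Pf I b) l) := by
  have h := out_val I X hone hX (c := 3) (by norm_num) (β := Pf I b) rfl
    (fun w hw => by simpa [inp] using val_O2 I X hone hX hlen hb hw) (l := l)
    (by unfold bd; omega) (by simpa [circ, eolN] using hl)
  simpa [circ, Sf] using h

/-- the two differences of a pair -/
def dd (X : Var → ℝ) (k l : ℕ) : ℝ := X (vX (2 * k) l) + X (vX (2 * k + 1) l)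

theorem df_sum (k l : ℕ) : ((df k l).map X).sum = dd X k l := by
  simp [df, dd]

include hX in
theorem val_even {k l : ℕ} (hk : k < 7) (hl : l < bd I) {u v : Bool}
    (hu : X (prA (eolN I) k l) = b2r u) (hv : X (prB (eolN I) k l) = b2r v) :
    X (vX (2 * k) l) = b2r (u && !v) := by
  have h18 := bd_ge I
  have h := hX 23 (2 * k) l (by norm_num) (by norm_num) (by omega) hl
  have e1 : 2 * k % 2 = 0 := by omega
  have e2 : 2 * k / 2 = k := by omega
  simp only [eqn, Nat.reduceEqDiff, if_false, if_true, e1, e2, List.map_cons, List.map_nil,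
    List.sum_cons, List.sum_nil, add_zero, hu, hv, cl_sub_b2r] at h
  exact h

include hX in
theorem val_odd {k l : ℕ} (hk : k < 7) (hl : l < bd I) {u v : Bool}
    (hu : X (prA (eolN I) k l) = b2r u) (hv : X (prB (eolN I) k l) = b2r v) :
    X (vX (2 * k + 1) l) = b2r (v && !u) := by
  have h18 := bd_ge I
  have h := hX 23 (2 * k + 1) l (by norm_num) (by norm_num) (by omega) hl
  have e1 : (2 * k + 1) % 2 = 1 := by omega
  have e2 : (2 * k + 1) / 2 = k := by omega
  simp only [eqn, Nat.reduceEqDiff, if_false, if_true, e1, e2, one_ne_zero, List.map_cons,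
    List.map_nil, List.sum_cons, List.sum_nil, add_zero, hu, hv, cl_sub_b2r] at h
  exact h

include hX in
theorem val_dd {k l : ℕ} (hk : k < 7) (hl : l < bd I) {u v : Bool}
    (hu : X (prA (eolN I) k l) = b2r u) (hv : X (prB (eolN I) k l) = b2r v) :
    dd X k l = if u = v then 0 else 1 := by
  unfold dd
  rw [val_even I X hX hk hl hu hv, val_odd I X hX hk hl hu hv]
  cases u <;> cases v <;> simp

omit hX in
theorem cl_cond1 {n : ℕ} {c m : Bool} {t1 t2 : ℕ → ℝ} (h1 : ∀ l < n, t1 l = 0 ∨ t1 l = 1)
    (h2 : ∀ l < n, t2 l = 0 ∨ t2 l = 1) :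
    ((c = true ∧ m = true ∧ (∀ l < n, t1 l = 0) ∧ ∀ l < n, t2 l = 0) →
      cl (b2r c + b2r m - (1 + (∑ l ∈ Finset.range n, t1 l + ∑ l ∈ Finset.range n, t2 l))) = 1) ∧
    (¬ (c = true ∧ m = true ∧ (∀ l < n, t1 l = 0) ∧ ∀ l < n, t2 l = 0) →
      cl (b2r c + b2r m - (1 + (∑ l ∈ Finset.range n, t1 l + ∑ l ∈ Finset.range n, t2 l)))
        = 0) := by
  have hc := b2r_le c
  have hm := b2r_le m
  constructor
  · rintro ⟨rfl, rfl, h3, h4⟩
    rw [Finset.sum_eq_zero fun l hl => h3 l (Finset.mem_range.1 hl),
      Finset.sum_eq_zero fun l hl => h4 l (Finset.mem_range.1 hl)]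
    exact Field.cl_one (by norm_num)
  · intro h
    apply Field.cl_zero
    rcases cl_bit_sum h1 with ⟨e1, f1⟩ | ⟨e1, f1⟩ <;> rcases cl_bit_sum h2 with ⟨e2, f2⟩ | ⟨e2, f2⟩
    · cases c
      · simp only [b2r_false]; linarith
      · cases m
        · simp only [b2r_false]; linarith
        · exact absurd ⟨rfl, rfl, f1, f2⟩ h
    · linarith
    · linarith
    · linarith

omit hX in
theorem cl_cond2 {n : ℕ} {c m : Bool} {t1 t2 : ℕ → ℝ} (h1 : ∀ l < n, t1 l = 0 ∨ t1 l = 1)
    (h2 : ∀ l < n, t2 l = 0 ∨ t2 l = 1) :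
    ((c = true ∧ m = false ∧ (∀ l < n, t1 l = 0) ∧ ∀ l < n, t2 l = 0) →
      cl (b2r c - (b2r m + (∑ l ∈ Finset.range n, t1 l + ∑ l ∈ Finset.range n, t2 l))) = 1) ∧
    (¬ (c = true ∧ m = false ∧ (∀ l < n, t1 l = 0) ∧ ∀ l < n, t2 l = 0) →
      cl (b2r c - (b2r m + (∑ l ∈ Finset.range n, t1 l + ∑ l ∈ Finset.range n, t2 l)))
        = 0) := by
  have hc := b2r_le c
  have hm := b2r_nonneg m
  constructor
  · rintro ⟨rfl, rfl, h3, h4⟩
    rw [Finset.sum_eq_zero fun l hl => h3 l (Finset.mem_range.1 hl),
      Finset.sum_eq_zero fun l hl => h4 l (Finset.mem_range.1 hl)]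
    exact Field.cl_one (by norm_num)
  · intro h
    apply Field.cl_zero
    rcases cl_bit_sum h1 with ⟨e1, f1⟩ | ⟨e1, f1⟩ <;> rcases cl_bit_sum h2 with ⟨e2, f2⟩ | ⟨e2, f2⟩
    · cases c
      · simp only [b2r_false]; linarith
      · cases m
        · exact absurd ⟨rfl, rfl, f1, f2⟩ h
        · simp only [b2r_true]; linarith
    · linarith
    · linarith
    · linarith

omit hX in
theorem ite01 (p : Prop) [Decidable p] : (if p then (0 : ℝ) else 1) = 0 ∨
    (if p then (0 : ℝ) else 1) = 1 := by split_ifs <;> simp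

include hone hX hlen in
/-- The values of `ep`, `em` in a direction of the first block. -/
theorem val_a {x : ℕ → Bool} {i : ℕ} (hi : i < eolN I)
    (hR : ∀ l < 2 * eolN I + 1, l ≠ i → X (vR l) = b2r (x l)) :
    ((Graph.Ep (eolN I) (Sf I) (Pf I) x i → X (vEP i) = 1) ∧
      (¬ Graph.Ep (eolN I) (Sf I) (Pf I) x i → X (vEP i) = 0)) ∧
    ((Graph.Em (eolN I) (Sf I) (Pf I) x i → X (vEM i) = 1) ∧
      (¬ Graph.Em (eolN I) (Sf I) (Pf I) x i → X (vEM i) = 0)) := by
  have h18 := bd_ge I
  have hnb : ∀ l < eolN I, l < bd I := fun l hl => by unfold bd; omega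
  have hb : ∀ w < eolN I, X (vR (eolN I + w)) = b2r (Graph.bl (eolN I) x w) := fun w hw =>
    hR (eolN I + w) (by omega) (by omega)
  have ha : ∀ w < eolN I, w ≠ i → X (vR w) = b2r (x w) := fun w hw hwi => hR w (by omega) hwi
  have hm : X (vR (2 * eolN I)) = b2r (x (2 * eolN I)) := hR _ (by omega) (by omega)
  have hp : ∀ w < eolN I, X (vO 2 w) = b2r (Pf I (Graph.bl (eolN I) x) w) := fun w hw =>
    val_O2 I X hone hX hlen hb hw
  have hsp : ∀ w < eolN I, X (vO 3 w) = b2r (Sf I (Pf I (Graph.bl (eolN I) x)) w) :=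
    fun w hw => val_O3 I X hone hX hlen hb hw
  have d3 : ∀ l < eolN I, dd X 3 l = if Graph.bl (eolN I) x l =
      Sf I (Pf I (Graph.bl (eolN I) x)) l then 0 else 1 := fun l hl =>
    val_dd I X hX (by norm_num) (hnb l hl) (by simpa [prA] using hb l hl)
      (by simpa [prB] using hsp l hl)
  have d2 : ∀ l < eolN I, l ≠ i → dd X 2 l = if x l = Graph.bl (eolN I) x l then 0 else 1 :=
    fun l hl hli => val_dd I X hX (by norm_num) (hnb l hl) (by simpa [prA] using ha l hl hli)
      (by simpa [prB] using hb l hl)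
  have d4 : ∀ l < eolN I, l ≠ i → dd X 4 l = if x l = Pf I (Graph.bl (eolN I) x) l
      then 0 else 1 :=
    fun l hl hli => val_dd I X hX (by norm_num) (hnb l hl) (by simpa [prA] using ha l hl hli)
      (by simpa [prB] using hp l hl)
  have h12 : X (vX 12 i) = b2r (Graph.bl (eolN I) x i && !Pf I (Graph.bl (eolN I) x) i) :=
    val_even I X hX (k := 6) (by norm_num) (hnb i hi) (by simpa [prA] using hb i hi)
      (by simpa [prB] using hp i hi)
  have h13 : X (vX 13 i) = b2r (Pf I (Graph.bl (eolN I) x) i && !Graph.bl (eolN I) x i) :=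
    val_odd I X hX (k := 6) (by norm_num) (hnb i hi) (by simpa [prA] using hb i hi)
      (by simpa [prB] using hp i hi)
  set t1 : ℕ → ℝ := fun l => dd X 3 l with ht1
  set t2 : ℕ → ℝ := fun l => if l < i then dd X 2 l else if i < l then dd X 4 l else 0 with ht2
  have hneg : ((negA (eolN I) i).map X).sum =
      1 + (∑ l ∈ Finset.range (eolN I), t1 l + ∑ l ∈ Finset.range (eolN I), t2 l) := by
    unfold negA
    rw [List.map_cons, List.sum_cons, hone, List.map_append, List.sum_append,
      sum_range_flatMap, sum_range_flatMap]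
    simp only [df_sum]
    congr 2
    refine Finset.sum_congr rfl fun l _ => ?_
    simp only [ht2]
    split_ifs <;> simp [df_sum]
  have b1 : ∀ l < eolN I, t1 l = 0 ∨ t1 l = 1 := fun l hl => by
    simp only [ht1]; rw [d3 l hl]; exact ite01 _
  have b2 : ∀ l < eolN I, t2 l = 0 ∨ t2 l = 1 := fun l hl => by
    simp only [ht2]
    split_ifs with e1 e2
    · rw [d2 l hl (by omega)]; exact ite01 _
    · rw [d4 l hl (by omega)]; exact ite01 _
    · left; rfl
  have eP : X (vEP i) = cl (b2r (Graph.bl (eolN I) x i && !Pf I (Graph.bl (eolN I) x) i) +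
      b2r (x (2 * eolN I)) -
      (1 + (∑ l ∈ Finset.range (eolN I), t1 l + ∑ l ∈ Finset.range (eolN I), t2 l))) := by
    have h := hX 20 i 0 (by norm_num) (by norm_num) (hnb i hi) (by omega)
    simp only [eqn, Nat.reduceEqDiff, if_false, if_true, hi, List.map_cons,
      List.map_nil, List.sum_cons, List.sum_nil, add_zero, h12, hm, hneg] at h
    exact h
  have eM : X (vEM i) = cl (b2r (Pf I (Graph.bl (eolN I) x) i && !Graph.bl (eolN I) x i) +
      b2r (x (2 * eolN I)) -
      (1 + (∑ l ∈ Finset.range (eolN I), t1 l + ∑ l ∈ Finset.range (eolN I), t2 l))) := by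
    have h := hX 21 i 0 (by norm_num) (by norm_num) (hnb i hi) (by omega)
    simp only [eqn, Nat.reduceEqDiff, if_false, if_true, hi, List.map_cons,
      List.map_nil, List.sum_cons, List.sum_nil, add_zero, h13, hm, hneg] at h
    exact h
  have c1 : (∀ l < eolN I, t1 l = 0) ↔
      Graph.Agree (eolN I) (Sf I (Pf I (Graph.bl (eolN I) x))) (Graph.bl (eolN I) x) := by
    constructor
    · intro h l hl
      have := h l hl
      simp only [ht1] at this
      rw [d3 l hl] at this
      by_contra hne
      rw [if_neg (fun e => hne e.symm)] at this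
      norm_num at this
    · intro h l hl
      simp only [ht1]
      rw [d3 l hl, if_pos (h l hl).symm]
  have c2 : (∀ l < eolN I, t2 l = 0) ↔ (∀ l < i, x l = Graph.bl (eolN I) x l) ∧
      ∀ l, i < l → l < eolN I → x l = Pf I (Graph.bl (eolN I) x) l := by
    constructor
    · intro h
      constructor
      · intro l hl
        have := h l (by omega)
        simp only [ht2] at this
        rw [if_pos hl, d2 l (by omega) (by omega)] at this
        by_contra hne
        rw [if_neg hne] at this
        norm_num at this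
      · intro l hl hln
        have := h l hln
        simp only [ht2] at this
        rw [if_neg (by omega), if_pos hl, d4 l hln (by omega)] at this
        by_contra hne
        rw [if_neg hne] at this
        norm_num at this
    · rintro ⟨h, h'⟩ l hl
      simp only [ht2]
      split_ifs with e1 e2
      · rw [d2 l hl (by omega), if_pos (h l e1)]
      · rw [d4 l hl (by omega), if_pos (h' l e2 hl)]
      · rfl
  have k1 := cl_cond1 (c := Graph.bl (eolN I) x i && !Pf I (Graph.bl (eolN I) x) i)
    (m := x (2 * eolN I)) b1 b2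
  have k2 := cl_cond1 (c := Pf I (Graph.bl (eolN I) x) i && !Graph.bl (eolN I) x i)
    (m := x (2 * eolN I)) b1 b2
  rw [← eP, c1, c2] at k1
  rw [← eM, c1, c2] at k2
  have i1 : Graph.Ep (eolN I) (Sf I) (Pf I) x i ↔
      ((Graph.bl (eolN I) x i && !Pf I (Graph.bl (eolN I) x) i) = true ∧ x (2 * eolN I) = true ∧
        Graph.Agree (eolN I) (Sf I (Pf I (Graph.bl (eolN I) x))) (Graph.bl (eolN I) x) ∧
        (∀ l < i, x l = Graph.bl (eolN I) x l) ∧
        ∀ l, i < l → l < eolN I → x l = Pf I (Graph.bl (eolN I) x) l) := by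
    unfold Graph.Ep Graph.Mv
    simp only [hi, if_true, Bool.and_eq_true, Bool.not_eq_true']
    constructor
    · rintro ⟨h1, h2, h3, h4, _, h5, h6⟩
      exact ⟨⟨h4, h3⟩, h1, h2, h5, h6⟩
    · rintro ⟨⟨h4, h3⟩, h1, h2, h5, h6⟩
      exact ⟨h1, h2, h3, h4, by rw [h3, h4]; simp, h5, h6⟩
  have i2 : Graph.Em (eolN I) (Sf I) (Pf I) x i ↔
      ((Pf I (Graph.bl (eolN I) x) i && !Graph.bl (eolN I) x i) = true ∧ x (2 * eolN I) = true ∧
        Graph.Agree (eolN I) (Sf I (Pf I (Graph.bl (eolN I) x))) (Graph.bl (eolN I) x) ∧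
        (∀ l < i, x l = Graph.bl (eolN I) x l) ∧
        ∀ l, i < l → l < eolN I → x l = Pf I (Graph.bl (eolN I) x) l) := by
    unfold Graph.Em Graph.Mv
    simp only [hi, if_true, Bool.and_eq_true, Bool.not_eq_true']
    constructor
    · rintro ⟨h1, h2, h3, h4, _, h5, h6⟩
      exact ⟨⟨h3, h4⟩, h1, h2, h5, h6⟩
    · rintro ⟨⟨h3, h4⟩, h1, h2, h5, h6⟩
      exact ⟨h1, h2, h3, h4, by rw [h3, h4]; simp, h5, h6⟩
  rw [i1, i2]
  exact ⟨k1, k2⟩

include hone hX hlen in
/-- The values of `ep`, `em` in a direction of the second block. -/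
theorem val_b {x : ℕ → Bool} {j : ℕ} (hj : j < eolN I)
    (hR : ∀ l < 2 * eolN I + 1, l ≠ eolN I + j → X (vR l) = b2r (x l)) :
    ((Graph.Ep (eolN I) (Sf I) (Pf I) x (eolN I + j) → X (vEP (eolN I + j)) = 1) ∧
      (¬ Graph.Ep (eolN I) (Sf I) (Pf I) x (eolN I + j) → X (vEP (eolN I + j)) = 0)) ∧
    ((Graph.Em (eolN I) (Sf I) (Pf I) x (eolN I + j) → X (vEM (eolN I + j)) = 1) ∧
      (¬ Graph.Em (eolN I) (Sf I) (Pf I) x (eolN I + j) → X (vEM (eolN I + j)) = 0)) := by
  have h18 := bd_ge I
  have hnb : ∀ l < eolN I, l < bd I := fun l hl => by unfold bd; omega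
  have hb : ∀ w < eolN I, w ≠ j → X (vR (eolN I + w)) = b2r (Graph.bl (eolN I) x w) :=
    fun w hw hwj => hR (eolN I + w) (by omega) (by omega)
  have ha : ∀ w < eolN I, X (vR w) = b2r (x w) := fun w hw => hR w (by omega) (by omega)
  have hm : X (vR (2 * eolN I)) = b2r (x (2 * eolN I)) := hR _ (by omega) (by omega)
  have hs : ∀ w < eolN I, X (vO 0 w) = b2r (Sf I x w) := fun w hw =>
    val_O0 I X hone hX ha hw
  have hps : ∀ w < eolN I, X (vO 1 w) = b2r (Pf I (Sf I x) w) :=
    fun w hw => val_O1 I X hone hX hlen ha hw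
  have d0 : ∀ l < eolN I, dd X 0 l = if x l = Pf I (Sf I x) l then 0 else 1 := fun l hl =>
    val_dd I X hX (by norm_num) (hnb l hl) (by simpa [prA] using ha l hl)
      (by simpa [prB] using hps l hl)
  have d1 : ∀ l < eolN I, l ≠ j → dd X 1 l = if Graph.bl (eolN I) x l = Sf I x l
      then 0 else 1 :=
    fun l hl hlj => val_dd I X hX (by norm_num) (hnb l hl) (by simpa [prA] using hb l hl hlj)
      (by simpa [prB] using hs l hl)
  have d2 : ∀ l < eolN I, l ≠ j → dd X 2 l = if x l = Graph.bl (eolN I) x l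
      then 0 else 1 :=
    fun l hl hlj => val_dd I X hX (by norm_num) (hnb l hl) (by simpa [prA] using ha l hl)
      (by simpa [prB] using hb l hl hlj)
  have h10 : X (vX 10 j) = b2r (x j && !Sf I x j) :=
    val_even I X hX (k := 5) (by norm_num) (hnb j hj) (by simpa [prA] using ha j hj)
      (by simpa [prB] using hs j hj)
  have h11 : X (vX 11 j) = b2r (Sf I x j && !x j) :=
    val_odd I X hX (k := 5) (by norm_num) (hnb j hj) (by simpa [prA] using ha j hj)
      (by simpa [prB] using hs j hj)
  set t1 : ℕ → ℝ := fun l => dd X 0 l with ht1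
  set t2 : ℕ → ℝ := fun l => if l < j then dd X 1 l else if j < l then dd X 2 l else 0 with ht2
  have hneg : ((negB (eolN I) j).map X).sum = b2r (x (2 * eolN I)) +
      (∑ l ∈ Finset.range (eolN I), t1 l + ∑ l ∈ Finset.range (eolN I), t2 l) := by
    unfold negB
    rw [List.map_cons, List.sum_cons, hm, List.map_append, List.sum_append,
      sum_range_flatMap, sum_range_flatMap]
    simp only [df_sum]
    congr 2
    refine Finset.sum_congr rfl fun l _ => ?_
    simp only [ht2]
    split_ifs <;> simp [df_sum]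
  have b1 : ∀ l < eolN I, t1 l = 0 ∨ t1 l = 1 := fun l hl => by
    simp only [ht1]; rw [d0 l hl]; exact ite01 _
  have b2 : ∀ l < eolN I, t2 l = 0 ∨ t2 l = 1 := fun l hl => by
    simp only [ht2]
    split_ifs with e1 e2
    · rw [d1 l hl (by omega)]; exact ite01 _
    · rw [d2 l hl (by omega)]; exact ite01 _
    · left; rfl
  have n1 : ¬ eolN I + j < eolN I := by omega
  have n2 : eolN I + j < 2 * eolN I := by omega
  have n3 : eolN I + j - eolN I = j := by omega
  have eP : X (vEP (eolN I + j)) = cl (b2r (Sf I x j && !x j) - (b2r (x (2 * eolN I)) +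
      (∑ l ∈ Finset.range (eolN I), t1 l + ∑ l ∈ Finset.range (eolN I), t2 l))) := by
    have h := hX 20 (eolN I + j) 0 (by norm_num) (by norm_num) (by unfold bd; omega) (by omega)
    simp only [eqn, Nat.reduceEqDiff, if_false, if_true, n1, n2, n3, List.map_cons,
      List.map_nil, List.sum_cons, List.sum_nil, add_zero, h11, hneg] at h
    exact h
  have eM : X (vEM (eolN I + j)) = cl (b2r (x j && !Sf I x j) - (b2r (x (2 * eolN I)) +
      (∑ l ∈ Finset.range (eolN I), t1 l + ∑ l ∈ Finset.range (eolN I), t2 l))) := by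
    have h := hX 21 (eolN I + j) 0 (by norm_num) (by norm_num) (by unfold bd; omega) (by omega)
    simp only [eqn, Nat.reduceEqDiff, if_false, if_true, n1, n2, n3, List.map_cons,
      List.map_nil, List.sum_cons, List.sum_nil, add_zero, h10, hneg] at h
    exact h
  have c1 : (∀ l < eolN I, t1 l = 0) ↔ Graph.Agree (eolN I) (Pf I (Sf I x)) x := by
    constructor
    · intro h l hl
      have := h l hl
      simp only [ht1] at this
      rw [d0 l hl] at this
      by_contra hne
      rw [if_neg (fun e => hne e.symm)] at this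
      norm_num at this
    · intro h l hl
      simp only [ht1]
      rw [d0 l hl, if_pos (h l hl).symm]
  have c2 : (∀ l < eolN I, t2 l = 0) ↔ (∀ l < j, Graph.bl (eolN I) x l = Sf I x l) ∧
      ∀ l, j < l → l < eolN I → Graph.bl (eolN I) x l = x l := by
    constructor
    · intro h
      constructor
      · intro l hl
        have := h l (by omega)
        simp only [ht2] at this
        rw [if_pos hl, d1 l (by omega) (by omega)] at this
        by_contra hne
        rw [if_neg hne] at this
        norm_num at this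
      · intro l hl hln
        have := h l hln
        simp only [ht2] at this
        rw [if_neg (by omega), if_pos hl, d2 l hln (by omega)] at this
        by_contra hne
        rw [if_neg (fun e => hne e.symm)] at this
        norm_num at this
    · rintro ⟨h, h'⟩ l hl
      simp only [ht2]
      split_ifs with e1 e2
      · rw [d1 l hl (by omega), if_pos (h l e1)]
      · rw [d2 l hl (by omega), if_pos (h' l e2 hl).symm]
      · rfl
  have k1 := cl_cond2 (c := Sf I x j && !x j) (m := x (2 * eolN I)) b1 b2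
  have k2 := cl_cond2 (c := x j && !Sf I x j) (m := x (2 * eolN I)) b1 b2
  rw [← eP, c1, c2] at k1
  rw [← eM, c1, c2] at k2
  have i1 : Graph.Ep (eolN I) (Sf I) (Pf I) x (eolN I + j) ↔
      ((Sf I x j && !x j) = true ∧ x (2 * eolN I) = false ∧
        Graph.Agree (eolN I) (Pf I (Sf I x)) x ∧
        (∀ l < j, Graph.bl (eolN I) x l = Sf I x l) ∧
        ∀ l, j < l → l < eolN I → Graph.bl (eolN I) x l = x l) := by
    unfold Graph.Ep Graph.Mv
    simp only [n1, n2, n3, if_true, if_false, Bool.and_eq_true, Bool.not_eq_true']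
    constructor
    · rintro ⟨h1, h2, h3, h4, _, h5, h6⟩
      exact ⟨⟨h4, h3⟩, h1, h2, h5, h6⟩
    · rintro ⟨⟨h4, h3⟩, h1, h2, h5, h6⟩
      exact ⟨h1, h2, h3, h4, by rw [h3, h4]; simp, h5, h6⟩
  have i2 : Graph.Em (eolN I) (Sf I) (Pf I) x (eolN I + j) ↔
      ((x j && !Sf I x j) = true ∧ x (2 * eolN I) = false ∧
        Graph.Agree (eolN I) (Pf I (Sf I x)) x ∧
        (∀ l < j, Graph.bl (eolN I) x l = Sf I x l) ∧
        ∀ l, j < l → l < eolN I → Graph.bl (eolN I) x l = x l) := by
    unfold Graph.Em Graph.Mv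
    simp only [n1, n2, n3, if_true, if_false, Bool.and_eq_true, Bool.not_eq_true']
    constructor
    · rintro ⟨h1, h2, h3, h4, _, h5, h6⟩
      exact ⟨⟨h3, h4⟩, h1, h2, h5, h6⟩
    · rintro ⟨⟨h3, h4⟩, h1, h2, h5, h6⟩
      exact ⟨h1, h2, h3, h4, by rw [h3, h4]; simp, h5, h6⟩
  rw [i1, i2]
  exact ⟨k1, k2⟩

include hone hX hlen in
/-- The values of `ep`, `em` in the mode direction. -/
theorem val_m {x : ℕ → Bool}
    (hR : ∀ l < 2 * eolN I + 1, l ≠ 2 * eolN I → X (vR l) = b2r (x l)) :
    ((Graph.Ep (eolN I) (Sf I) (Pf I) x (2 * eolN I) → X (vEP (2 * eolN I)) = 1) ∧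
      (¬ Graph.Ep (eolN I) (Sf I) (Pf I) x (2 * eolN I) → X (vEP (2 * eolN I)) = 0)) ∧
    ((Graph.Em (eolN I) (Sf I) (Pf I) x (2 * eolN I) → X (vEM (2 * eolN I)) = 1) ∧
      (¬ Graph.Em (eolN I) (Sf I) (Pf I) x (2 * eolN I) → X (vEM (2 * eolN I)) = 0)) := by
  have h18 := bd_ge I
  have hnb : ∀ l < eolN I, l < bd I := fun l hl => by unfold bd; omega
  have hb : ∀ w < eolN I, X (vR (eolN I + w)) = b2r (Graph.bl (eolN I) x w) :=
    fun w hw => hR (eolN I + w) (by omega) (by omega)
  have ha : ∀ w < eolN I, X (vR w) = b2r (x w) := fun w hw => hR w (by omega) (by omega)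
  have hs : ∀ w < eolN I, X (vO 0 w) = b2r (Sf I x w) := fun w hw =>
    val_O0 I X hone hX ha hw
  have hps : ∀ w < eolN I, X (vO 1 w) = b2r (Pf I (Sf I x) w) :=
    fun w hw => val_O1 I X hone hX hlen ha hw
  have hp : ∀ w < eolN I, X (vO 2 w) = b2r (Pf I (Graph.bl (eolN I) x) w) := fun w hw =>
    val_O2 I X hone hX hlen hb hw
  have hsp : ∀ w < eolN I, X (vO 3 w) = b2r (Sf I (Pf I (Graph.bl (eolN I) x)) w) :=
    fun w hw => val_O3 I X hone hX hlen hb hw
  have d0 : ∀ l < eolN I, dd X 0 l = if x l = Pf I (Sf I x) l then 0 else 1 := fun l hl =>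
    val_dd I X hX (by norm_num) (hnb l hl) (by simpa [prA] using ha l hl)
      (by simpa [prB] using hps l hl)
  have d1 : ∀ l < eolN I, dd X 1 l = if Graph.bl (eolN I) x l = Sf I x l
      then 0 else 1 :=
    fun l hl => val_dd I X hX (by norm_num) (hnb l hl) (by simpa [prA] using hb l hl)
      (by simpa [prB] using hs l hl)
  have d2 : ∀ l < eolN I, dd X 2 l = if x l = Graph.bl (eolN I) x l then 0 else 1 :=
    fun l hl => val_dd I X hX (by norm_num) (hnb l hl) (by simpa [prA] using ha l hl)
      (by simpa [prB] using hb l hl)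
  have d3 : ∀ l < eolN I, dd X 3 l = if Graph.bl (eolN I) x l =
      Sf I (Pf I (Graph.bl (eolN I) x)) l then 0 else 1 := fun l hl =>
    val_dd I X hX (by norm_num) (hnb l hl) (by simpa [prA] using hb l hl)
      (by simpa [prB] using hsp l hl)
  have d5 : ∀ l < eolN I, dd X 5 l = if x l = Sf I x l then 0 else 1 := fun l hl =>
    val_dd I X hX (by norm_num) (hnb l hl) (by simpa [prA] using ha l hl)
      (by simpa [prB] using hs l hl)
  have d6 : ∀ l < eolN I, dd X 6 l = if Graph.bl (eolN I) x l =
      Pf I (Graph.bl (eolN I) x) l then 0 else 1 := fun l hl =>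
    val_dd I X hX (by norm_num) (hnb l hl) (by simpa [prA] using hb l hl)
      (by simpa [prB] using hp l hl)
  -- general fact: all differences of a pair vanish iff the bits agree
  have key : ∀ (k : ℕ) (u v : ℕ → Bool),
      (∀ l < eolN I, dd X k l = if u l = v l then 0 else 1) →
      ((∀ l < eolN I, dd X k l = 0) ↔ Graph.Agree (eolN I) u v) := by
    intro k u v h
    constructor
    · intro h2 l hl
      have := h2 l hl
      rw [h l hl] at this
      by_contra hne
      rw [if_neg hne] at this
      norm_num at this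
    · intro h2 l hl
      rw [h l hl, if_pos (h2 l hl)]
  have b01 : ∀ (k : ℕ) (u v : ℕ → Bool),
      (∀ l < eolN I, dd X k l = if u l = v l then 0 else 1) →
      ∀ l < eolN I, dd X k l = 0 ∨ dd X k l = 1 := by
    intro k u v h l hl
    rw [h l hl]; exact ite01 _
  have ne : ∀ (k : ℕ) (u v : ℕ → Bool),
      (∀ l < eolN I, dd X k l = if u l = v l then 0 else 1) →
      ∃ c : Bool, (c = true ↔ ¬ Graph.Agree (eolN I) u v) ∧
        cl (∑ l ∈ Finset.range (eolN I), dd X k l) = b2r c := by
    intro k u v h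
    rcases cl_bit_sum (b01 k u v h) with ⟨e1, f1⟩ | ⟨e1, l, hl, f1⟩
    · refine ⟨false, ?_, ?_⟩
      · simp only [Bool.false_eq_true, false_iff, not_not]
        exact (key k u v h).1 f1
      · rw [e1]; exact Field.cl_zero (by norm_num)
    · refine ⟨true, ?_, Field.cl_one e1⟩
      simp only [true_iff]
      intro h2
      have := (key k u v h).2 h2 l hl
      rw [this] at f1
      norm_num at f1
  obtain ⟨c5, hc5, e5⟩ := ne 5 _ _ d5
  obtain ⟨c6, hc6, e6⟩ := ne 6 _ _ d6
  have n1 : ¬ 2 * eolN I < eolN I := by omega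
  have n2 : ¬ 2 * eolN I < 2 * eolN I := by omega
  have hNE1 : X vNE1 = b2r c5 := by
    have h := hX 25 0 0 (by norm_num) (by norm_num) (by omega) (by omega)
    simp only [eqn, Nat.reduceEqDiff, if_false, if_true, sum_range_flatMap, df_sum,
      List.map_nil, List.sum_nil, sub_zero, e5] at h
    exact h
  have hNE2 : X vNE2 = b2r c6 := by
    have h := hX 26 0 0 (by norm_num) (by norm_num) (by omega) (by omega)
    simp only [eqn, Nat.reduceEqDiff, if_false, if_true, sum_range_flatMap, df_sum,
      List.map_nil, List.sum_nil, sub_zero, e6] at h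
    exact h
  have eP : X (vEP (2 * eolN I)) = cl (b2r c5 - (b2r false +
      (∑ l ∈ Finset.range (eolN I), dd X 0 l + ∑ l ∈ Finset.range (eolN I), dd X 1 l))) := by
    have h := hX 20 (2 * eolN I) 0 (by norm_num) (by norm_num) (by unfold bd; omega) (by omega)
    simp only [eqn, Nat.reduceEqDiff, if_false, if_true, n1, n2, List.map_cons,
      List.map_nil, List.sum_cons, List.sum_nil, add_zero, hNE1, sum_range_flatMap,
      List.map_append, List.sum_append, df_sum, Finset.sum_add_distrib] at h
    rw [b2r_false, zero_add]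
    exact h
  have eM : X (vEM (2 * eolN I)) = cl (b2r c6 - (b2r false +
      (∑ l ∈ Finset.range (eolN I), dd X 2 l + ∑ l ∈ Finset.range (eolN I), dd X 3 l))) := by
    have h := hX 21 (2 * eolN I) 0 (by norm_num) (by norm_num) (by unfold bd; omega) (by omega)
    simp only [eqn, Nat.reduceEqDiff, if_false, if_true, n1, n2, List.map_cons,
      List.map_nil, List.sum_cons, List.sum_nil, add_zero, hNE2, sum_range_flatMap,
      List.map_append, List.sum_append, df_sum, Finset.sum_add_distrib] at h
    rw [b2r_false, zero_add]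
    exact h
  have k1 := cl_cond2 (c := c5) (m := false) (b01 0 _ _ d0) (b01 1 _ _ d1)
  have k2 := cl_cond2 (c := c6) (m := false) (b01 2 _ _ d2) (b01 3 _ _ d3)
  rw [← eP, key 0 _ _ d0, key 1 _ _ d1, hc5] at k1
  rw [← eM, key 2 _ _ d2, key 3 _ _ d3, hc6] at k2
  have i1 : Graph.Ep (eolN I) (Sf I) (Pf I) x (2 * eolN I) ↔
      (¬ Graph.Agree (eolN I) x (Sf I x) ∧ false = false ∧
        Graph.Agree (eolN I) x (Pf I (Sf I x)) ∧
        Graph.Agree (eolN I) (Graph.bl (eolN I) x) (Sf I x)) := by
    unfold Graph.Ep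
    simp only [n1, n2, if_false]
    constructor
    · rintro ⟨h1, h2, h3⟩
      exact ⟨fun h => h2 h.symm, trivial, h1.symm, h3⟩
    · rintro ⟨h1, _, h2, h3⟩
      exact ⟨h2.symm, fun h => h1 h.symm, h3⟩
  have i2 : Graph.Em (eolN I) (Sf I) (Pf I) x (2 * eolN I) ↔
      (¬ Graph.Agree (eolN I) (Graph.bl (eolN I) x) (Pf I (Graph.bl (eolN I) x)) ∧
        false = false ∧ Graph.Agree (eolN I) x (Graph.bl (eolN I) x) ∧
        Graph.Agree (eolN I) (Graph.bl (eolN I) x)
          (Sf I (Pf I (Graph.bl (eolN I) x)))) := by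
    unfold Graph.Em
    simp only [n1, n2, if_false]
    constructor
    · rintro ⟨h1, h2, h3⟩
      exact ⟨fun h => h3 h.symm, trivial, h1, h2.symm⟩
    · rintro ⟨h1, _, h2, h3⟩
      exact ⟨h2, h3.symm, fun h => h1 h.symm⟩
  rw [i1, i2]
  exact ⟨k1, k2⟩

end

end Build

end Pool.Agent.H424R2.PPAD
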